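import Pool.Agent.Lib.PolyTime.Machine

/-!
# Structured stack programs as lists of instructions
-/

namespace Pool.Agent.MPa0a715.WM

open Pool.Agent.PolyTime SP

/-- Instructions: stack, operation (`0`: none, `1`: pop, `2`: push `false`, `3`: push `true`), and
the next instruction when the top is `true`, when it is `false`, when the stack is empty. -/
abbrev Ins := ℕ × ℕ × ℕ × ℕ × ℕ

/-- number of a stack -/
def rn : Reg → ℕ
  | Reg.m => 0
  | Reg.a => 1
  | Reg.b => 2
  | Reg.c => 3

/-- stack with given number -/
def regOf (n : ℕ) : Reg :=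
  if n = 0 then Reg.m else if n = 1 then Reg.a else if n = 2 then Reg.b else Reg.c

theorem regOf_rn (r : Reg) : regOf (rn r) = r := by cases r <;> rfl

theorem rn_lt (r : Reg) : rn r < 4 := by cases r <;> simp [rn]

theorem rn_regOf {n : ℕ} (h : n < 4) : rn (regOf n) = n := by
  rcases n with _ | _ | _ | _ | n
  · rfl
  · rfl
  · rfl
  · rfl
  · omega

/-- number of instructions of a program -/
def len : SP → ℕ
  | skip => 1
  | push _ _ => 1
  | seq P Q => len P + len Q
  | pop _ P Q R => len P + (len Q + len R) + 1
  | loop _ P => len P + 1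

/-- the instructions, placed at `s`, the program continues at `ex` -/
def flat : SP → ℕ → ℕ → List Ins
  | skip, _, ex => [(0, 0, ex, ex, ex)]
  | push r b, _, ex => [(rn r, if b then 3 else 2, ex, ex, ex)]
  | seq P Q, s, ex => flat P s (s + len P) ++ flat Q (s + len P) ex
  | pop r P Q R, s, ex => (rn r, 1, s + 1, s + 1 + len P, s + 1 + len P + len Q) ::
      (flat P (s + 1) ex ++ (flat Q (s + 1 + len P) ex ++ flat R (s + 1 + len P + len Q) ex))
  | loop r P, s, ex => (rn r, 1, s + 1, ex, ex) :: flat P (s + 1) s

theorem length_flat (P : SP) : ∀ s ex : ℕ, (flat P s ex).length = len P := by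
  induction P with
  | skip => intro s ex; rfl
  | push r b => intro s ex; rfl
  | seq P Q hP hQ =>
    intro s ex
    rw [flat, List.length_append, hP, hQ, len]
  | pop r P Q R hP hQ hR =>
    intro s ex
    rw [flat, List.length_cons, List.length_append, List.length_append, hP, hQ, hR, len]
  | loop r P hP =>
    intro s ex
    rw [flat, List.length_cons, hP, len]

/-- the instruction with a given number; beyond the end the machine stands still -/
def ins (prog : List Ins) (q : ℕ) : Ins := prog.getD q (0, 0, q, q, q)

/-- an operation on a stack -/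
def app (op : ℕ) (l : List Bool) : List Bool :=
  if op = 0 then l else if op = 1 then l.tail else decide (op = 3) :: l

/-- content of a cell: `0` nothing, `1` the bit `false`, `2` the bit `true` -/
def cell (l : List Bool) (i : ℕ) : ℕ :=
  match l[i]? with
  | none => 0
  | some false => 1
  | some true => 2

/-- the next instruction, given the content of the top cell -/
def nxt (I : Ins) (v : ℕ) : ℕ :=
  if v = 0 then I.2.2.2.2 else if v = 1 then I.2.2.2.1 else I.2.2.1

/-- one step -/
def step (prog : List Ins) (c : ℕ × St) : ℕ × St :=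
  (nxt (ins prog c.1) (cell (c.2 (regOf (ins prog c.1).1)) 0),
    Function.update c.2 (regOf (ins prog c.1).1)
      (app (ins prog c.1).2.1 (c.2 (regOf (ins prog c.1).1))))

/-- the list of instructions contains the given segment -/
def Seg (prog : List Ins) (s : ℕ) (l : List Ins) : Prop :=
  ∃ u v, u.length = s ∧ prog = u ++ (l ++ v)

theorem Seg.left {prog : List Ins} {s : ℕ} {l l' : List Ins} (h : Seg prog s (l ++ l')) :
    Seg prog s l := by
  obtain ⟨u, v, h1, h2⟩ := h
  exact ⟨u, l' ++ v, h1, by rw [h2, List.append_assoc]⟩

theorem Seg.right {prog : List Ins} {s : ℕ} {l l' : List Ins} (h : Seg prog s (l ++ l')) :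
    Seg prog (s + l.length) l' := by
  obtain ⟨u, v, h1, h2⟩ := h
  exact ⟨u ++ l, v, by rw [List.length_append, h1], by rw [h2]; simp only [List.append_assoc]⟩

theorem Seg.tail {prog : List Ins} {s : ℕ} {I : Ins} {l : List Ins} (h : Seg prog s (I :: l)) :
    Seg prog (s + 1) l := by
  have := Seg.right (l := [I]) (l' := l) h
  exact this

theorem Seg.head {prog : List Ins} {s : ℕ} {I : Ins} {l : List Ins} (h : Seg prog s (I :: l)) :
    ins prog s = I := by
  obtain ⟨u, v, h1, h2⟩ := h
  unfold ins
  rw [h2, List.getD_append_right _ _ _ _ (by omega), h1, Nat.sub_self]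
  rfl

/-- simulation of a run -/
theorem sim {P : SP} {σ σ' : St} {t : ℕ} (h : Run P σ σ' t) :
    ∀ (prog : List Ins) (s ex : ℕ), Seg prog s (flat P s ex) →
      (step prog)^[t] (s, σ) = (ex, σ') := by
  induction h with
  | skip σ =>
    intro prog s ex hs
    have hI := Seg.head hs
    rw [Function.iterate_one]
    unfold step
    simp only
    rw [hI]
    refine Prod.ext ?_ ?_
    · simp only [nxt]
      split_ifs <;> rfl
    · exact Function.update_eq_self _ _
  | push r b σ =>
    intro prog s ex hs
    have hI := Seg.head hs
    rw [Function.iterate_one]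
    unfold step
    simp only
    rw [hI]
    refine Prod.ext ?_ ?_
    · simp only [nxt]
      split_ifs <;> rfl
    · simp only [regOf_rn]
      cases b <;> rfl
  | @seq P Q σ σ' σ'' t t' _ _ ih₁ ih₂ =>
    intro prog s ex hs
    have h1 := ih₁ prog s _ hs.left
    have h2 := hs.right
    rw [length_flat] at h2
    have h3 := ih₂ prog _ ex h2
    rw [Nat.add_comm, Function.iterate_add_apply, h1, h3]
  | @pop_true r P Q R σ σ' l t h _ ih =>
    intro prog s ex hs
    have hI := hs.head
    have h1 := ih prog _ ex hs.tail.left
    rw [Function.iterate_succ_apply, ← h1]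
    congr 1
    unfold step
    simp only
    rw [hI]
    simp only [regOf_rn, h]
    rfl
  | @pop_false r P Q R σ σ' l t h _ ih =>
    intro prog s ex hs
    have hI := hs.head
    have h2 := hs.tail.right.left
    rw [length_flat] at h2
    have h1 := ih prog _ ex h2
    rw [Function.iterate_succ_apply, ← h1]
    congr 1
    unfold step
    simp only
    rw [hI]
    simp only [regOf_rn, h]
    rfl
  | @pop_nil r P Q R σ σ' t h _ ih =>
    intro prog s ex hs
    have hI := hs.head
    have h2 := hs.tail.right.right
    rw [length_flat, length_flat] at h2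
    have h1 := ih prog _ ex h2
    rw [Function.iterate_succ_apply, ← h1]
    congr 1
    unfold step
    simp only
    rw [hI]
    have hσ : Function.update σ r [] = σ := by
      rw [← h]; exact Function.update_eq_self r σ
    simp only [regOf_rn, h]
    refine Prod.ext rfl hσ
  | @loop_true r P σ σ' σ'' l t t' h _ _ ih₁ ih₂ =>
    intro prog s ex hs
    have hI := hs.head
    have h1 := ih₁ prog _ s hs.tail
    have h2 := ih₂ prog s ex hs
    rw [Function.iterate_succ_apply, Nat.add_comm, Function.iterate_add_apply, ← h2, ← h1]
    congr 2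
    unfold step
    simp only
    rw [hI]
    simp only [regOf_rn, h]
    rfl
  | @loop_false r P σ l h =>
    intro prog s ex hs
    have hI := hs.head
    rw [Function.iterate_one]
    unfold step
    simp only
    rw [hI]
    simp only [regOf_rn, h]
    rfl
  | @loop_nil r P σ h =>
    intro prog s ex hs
    have hI := hs.head
    rw [Function.iterate_one]
    unfold step
    simp only
    rw [hI]
    have hσ : Function.update σ r [] = σ := by
      rw [← h]; exact Function.update_eq_self r σ
    simp only [regOf_rn, h]
    refine Prod.ext rfl hσ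

/-- the instructions of a whole program -/
def whole (P : SP) : List Ins := flat P 0 (len P)

theorem length_whole (P : SP) : (whole P).length = len P := length_flat P _ _

/-- beyond the end the machine stands still -/
theorem step_halted (P : SP) (σ : St) (n : ℕ) :
    (step (whole P))^[n] (len P, σ) = (len P, σ) := by
  have h1 : step (whole P) (len P, σ) = (len P, σ) := by
    have h2 : ins (whole P) (len P) = (0, 0, len P, len P, len P) := by
      unfold ins
      rw [List.getD_eq_default _ _ (by rw [length_whole])]
    unfold step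
    simp only
    rw [h2]
    refine Prod.ext ?_ ?_
    · simp only [nxt]
      split_ifs <;> rfl
    · exact Function.update_eq_self _ _
  induction n with
  | zero => rfl
  | succ n ih => rw [Function.iterate_succ_apply, h1, ih]

/-- a run of the whole program -/
theorem sim_whole {P : SP} {σ σ' : St} {t : ℕ} (h : Run P σ σ' t) {n : ℕ} (hn : t ≤ n) :
    (step (whole P))^[n] (0, σ) = (len P, σ') := by
  have h1 := sim h (whole P) 0 (len P) ⟨[], [], rfl, by rw [List.append_nil]; rfl⟩
  obtain ⟨k, rfl⟩ := Nat.exists_eq_add_of_le hn
  rw [Nat.add_comm, Function.iterate_add_apply, h1, step_halted]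

/-- all instructions lead to instructions of the program or to its end, stacks have numbers below
`4` and there are four operations -/
theorem flat_ok (P : SP) : ∀ (s ex b : ℕ), s + len P ≤ b → ex ≤ b → ∀ I ∈ flat P s ex,
    I.1 < 4 ∧ I.2.1 < 4 ∧ I.2.2.1 ≤ b ∧ I.2.2.2.1 ≤ b ∧ I.2.2.2.2 ≤ b := by
  induction P with
  | skip =>
    intro s ex b _ hex I hI
    rw [flat, List.mem_singleton] at hI
    subst hI
    exact ⟨by simp, by simp, hex, hex, hex⟩
  | push r c =>
    intro s ex b _ hex I hI
    rw [flat, List.mem_singleton] at hI
    subst hI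
    exact ⟨rn_lt r, by cases c <;> simp, hex, hex, hex⟩
  | seq P Q hP hQ =>
    intro s ex b hs hex I hI
    rw [len] at hs
    rw [flat, List.mem_append] at hI
    rcases hI with hI | hI
    · exact hP s _ b (by omega) (by omega) I hI
    · exact hQ _ ex b (by omega) hex I hI
  | pop r P Q R hP hQ hR =>
    intro s ex b hs hex I hI
    rw [len] at hs
    rw [flat, List.mem_cons, List.mem_append, List.mem_append] at hI
    rcases hI with rfl | hI | hI | hI
    · refine ⟨rn_lt r, by simp, ?_, ?_, ?_⟩ <;> simp only <;> omega
    · exact hP _ ex b (by omega) hex I hI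
    · exact hQ _ ex b (by omega) hex I hI
    · exact hR _ ex b (by omega) hex I hI
  | loop r P hP =>
    intro s ex b hs hex I hI
    rw [len] at hs
    rw [flat, List.mem_cons] at hI
    rcases hI with rfl | hI
    · refine ⟨rn_lt r, by simp, ?_, hex, hex⟩
      simp only
      omega
    · exact hP _ s b (by omega) (by omega) I hI

theorem ins_ok (P : SP) {q : ℕ} (hq : q ≤ len P) : (ins (whole P) q).1 < 4 ∧
    (ins (whole P) q).2.1 < 4 ∧ ∀ v, nxt (ins (whole P) q) v ≤ len P := by
  have h : (ins (whole P) q).1 < 4 ∧ (ins (whole P) q).2.1 < 4 ∧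
      (ins (whole P) q).2.2.1 ≤ len P ∧ (ins (whole P) q).2.2.2.1 ≤ len P ∧
      (ins (whole P) q).2.2.2.2 ≤ len P := by
    rcases Nat.lt_or_eq_of_le hq with h1 | rfl
    · refine flat_ok P 0 (len P) (len P) (by omega) le_rfl _ ?_
      unfold ins
      rw [List.getD_eq_getElem _ _ (by rw [length_whole]; exact h1)]
      exact List.getElem_mem _
    · unfold ins
      rw [List.getD_eq_default _ _ (by rw [length_whole])]
      exact ⟨by simp, by simp, le_rfl, le_rfl, le_rfl⟩
  refine ⟨h.1, h.2.1, fun v => ?_⟩
  unfold nxt
  split_ifs
  · exact h.2.2.2.2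
  · exact h.2.2.2.1
  · exact h.2.2.1

end Pool.Agent.MPa0a715.WM
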