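import Pool.Agent.Lib.MP_a0a715_lc.Blocks
import Pool.Agent.Lib.MP_a0a715_lc_WM.Flat

/-!
# The layers of the circuit simulating a list of instructions

Layer `t` holds the configuration at time `t`: one wire for every instruction, and three wires for
every cell of the four stacks, counted from the top.
-/

namespace Pool.Agent.MPa0a715.WM

open Pool.Agent.MPa0a715 Pool.Agent.PolyTime

/-- the wire holding a constant -/
def cst (c : Bool) : Name := if c then (3, 0) else (2, 0)

/-- gates of the initial layer: `n` instructions, known word `y`, `k` unknown bits -/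
def initG (n k : ℕ) (y : List Bool) (i : ℕ) : Option Bool × List Name :=
  if i < n then (some true, [cst (decide (i = 0))])
  else if (i - n) % 12 / 3 = 0 then
    if (i - n) / 12 < y.length then
      (some true, [cst (decide ((i - n) % 3 = if y.getD ((i - n) / 12) false = true then 2
        else 1))])
    else if (i - n) / 12 < y.length + k then
      if (i - n) % 3 = 0 then (some true, [(2, 0)])
      else if (i - n) % 3 = 1 then (none, [(0, (i - n) / 12 - y.length)])
      else (some true, [(0, (i - n) / 12 - y.length)])
    else (some true, [cst (decide ((i - n) % 3 = 0))])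
  else (some true, [cst (decide ((i - n) % 3 = 0))])

/-- the wire from which the cell `w` is taken when instruction `q` is performed -/
def src (prog : List Ins) (n L b w q : ℕ) : Name :=
  if (w - n) % 12 / 3 = (ins prog q).1 ∧ (ins prog q).2.1 ≠ 0 then
    if (ins prog q).2.1 = 1 then (if w + 12 < L then (b, w + 12) else (2, 0))
    else if (w - n) / 12 = 0 then cst (decide ((w - n) % 3 + 1 = (ins prog q).2.1))
    else (b, w - 12)
  else (b, w)

/-- the `z`-th conjunction for the wire `w`; the previous layer is block `b` -/
def term (prog : List Ins) (n L b w z : ℕ) : List Name :=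
  if w < n then
    if nxt (ins prog (z / 3)) (z % 3) = w then
      [(b, z / 3), (b, n + 3 * (ins prog (z / 3)).1 + z % 3)]
    else [(2, 0)]
  else [(b, z / 3), src prog n L b w (z / 3)]

/-- the gates -/
def gk (prog : List Ins) (n k L : ℕ) (y : List Bool) (b i : ℕ) : Option Bool × List Name :=
  if b = 1 then (none, [(0, 0)])
  else if b = 2 then (some true, [(0, 0), (1, 0)])
  else if b = 3 then (some false, [(0, 0), (1, 0)])
  else if b = 4 then initG n k y i
  else if b % 2 = 1 then (some true, term prog n L (b - 1) (i / (3 * n)) (i % (3 * n)))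
  else (some false, (List.range (3 * n)).map fun z => (b - 1, i * (3 * n) + z))

/-- sizes of the blocks -/
def bsz (n L b : ℕ) : ℕ :=
  if b < 4 then 1 else if b = 4 then L else if b % 2 = 1 then L * (3 * n) else L

/-- the blocks -/
def blks (prog : List Ins) (n k L : ℕ) (y : List Bool) (T : ℕ) : List Blk :=
  (List.range (4 + 2 * T)).map fun i => (bsz n L (i + 1), gk prog n k L y (i + 1))

section
variable {prog : List Ins} {n k L T W : ℕ} {y : List Bool}

theorem getElem?_blks {i : ℕ} {l : Blk} (h : (blks prog n k L y T)[i]? = some l) :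
    i < 4 + 2 * T ∧ l = (bsz n L (i + 1), gk prog n k L y (i + 1)) := by
  unfold blks at h
  rw [List.getElem?_map] at h
  by_cases hi : i < 4 + 2 * T
  · rw [List.getElem?_range hi, Option.map_some, Option.some_inj] at h
    exact ⟨hi, h.symm⟩
  · rw [List.getElem?_eq_none (by rw [List.length_range]; omega)] at h
    simp at h

theorem blks_getElem? {i : ℕ} (hi : i < 4 + 2 * T) : (blks prog n k L y T)[i]? =
    some (bsz n L (i + 1), gk prog n k L y (i + 1)) := by
  unfold blks
  rw [List.getElem?_map, List.getElem?_range hi, Option.map_some]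

theorem cnt_blks {b : ℕ} (hb : b ≤ 4 + 2 * T) :
    cnt k (blks prog n k L y T) b = if b = 0 then k else bsz n L b := by
  unfold cnt
  rcases Nat.eq_zero_or_pos b with rfl | h
  · rfl
  · obtain ⟨c, rfl⟩ : ∃ c, b = c + 1 := ⟨b - 1, by omega⟩
    rw [if_neg (by omega), List.getD_cons_succ, List.getD_eq_getElem?_getD, List.getElem?_map,
      blks_getElem? (by omega)]
    rfl

theorem allB_of {P : ℕ → Blk → Prop} {bs : List Blk} : ∀ {b : ℕ},
    (∀ i l, bs[i]? = some l → P (b + i) l) → AllB P b bs := by
  induction bs with
  | nil => intro b _; trivial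
  | cons a bs ih =>
    intro b h
    refine ⟨h 0 a rfl, ih fun i l hl => ?_⟩
    have := h (i + 1) l (by rw [List.getElem?_cons_succ]; exact hl)
    rwa [Nat.add_assoc, Nat.add_comm 1 i]

/-- the wires that may be read by block `b` -/
def Rd (n k L b : ℕ) (r : Name) : Prop :=
  r.1 < b ∧ r.2 < if r.1 = 0 then k else bsz n L r.1

theorem rd_cst {b : ℕ} (hb : 3 < b) (c : Bool) : Rd n k L b (cst c) := by
  unfold Rd cst bsz
  cases c
  · exact ⟨by simp; omega, by simp⟩
  · exact ⟨by simp; omega, by simp⟩

theorem rd_false {b : ℕ} (hb : 3 < b) : Rd n k L b (2, 0) := rd_cst hb false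

theorem rd_layer {b j : ℕ} (hb : 4 ≤ b) (hb2 : b % 2 = 0) (hj : j < L) :
    Rd n k L (b + 1) (b, j) := by
  refine ⟨Nat.lt_succ_self _, ?_⟩
  simp only [bsz]
  rw [if_neg (by omega), if_neg (by omega)]
  split_ifs
  · exact hj
  · omega
  · exact hj

theorem rd_initG {i : ℕ} : (initG n k y i).2 ≠ [] ∧
    ∀ r ∈ (initG n k y i).2, Rd n k L 4 r := by
  unfold initG
  split_ifs
  all_goals
    refine ⟨List.cons_ne_nil _ _, fun r hr => ?_⟩
    rw [List.mem_singleton] at hr
    rw [hr]
    first
    | exact rd_cst (by omega) _
    | exact rd_false (by omega)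
    | (refine ⟨by simp, ?_⟩
       simp only [if_true]
       omega)

theorem rd_term (hprog : ∀ q < n, (ins prog q).1 < 4) (hL : n + 12 ≤ L) {b w z : ℕ}
    (hb : 4 ≤ b) (hb2 : b % 2 = 0) (hw : w < L) (hz : z < 3 * n) :
    term prog n L b w z ≠ [] ∧ ∀ r ∈ term prog n L b w z, Rd n k L (b + 1) r := by
  have hq : z / 3 < n := by omega
  have hr := hprog _ hq
  unfold term
  split_ifs with h1 h2
  · refine ⟨List.cons_ne_nil _ _, fun r hr => ?_⟩
    rw [List.mem_cons, List.mem_singleton] at hr
    rcases hr with rfl | rfl
    · exact rd_layer hb hb2 (by omega)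
    · exact rd_layer hb hb2 (by omega)
  · refine ⟨List.cons_ne_nil _ _, fun r hr => ?_⟩
    rw [List.mem_singleton] at hr
    rw [hr]
    exact rd_false (by omega)
  · refine ⟨List.cons_ne_nil _ _, fun r hr => ?_⟩
    rw [List.mem_cons, List.mem_singleton] at hr
    rcases hr with rfl | rfl
    · exact rd_layer hb hb2 (by omega)
    · unfold src
      split_ifs with h3 h4 h5 h6
      · exact rd_layer hb hb2 (by omega)
      · exact rd_false (by omega)
      · exact rd_cst (by omega) _
      · exact rd_layer hb hb2 (by omega)
      · exact rd_layer hb hb2 (by omega)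

theorem rd_gk (hn : 0 < n) (hk : 0 < k) (hprog : ∀ q < n, (ins prog q).1 < 4)
    (hL : n + 12 ≤ L) {b i : ℕ} (hb : 0 < b) (hi : i < bsz n L b) :
    (gk prog n k L y b i).2 ≠ [] ∧ ∀ r ∈ (gk prog n k L y b i).2, Rd n k L b r := by
  unfold gk
  split_ifs with h1 h2 h3 h4 h5
  · refine ⟨List.cons_ne_nil _ _, fun r hr => ?_⟩
    rw [List.mem_singleton] at hr
    rw [hr]
    exact ⟨by simp; omega, by simpa using hk⟩
  · refine ⟨List.cons_ne_nil _ _, fun r hr => ?_⟩
    rw [List.mem_cons, List.mem_singleton] at hr
    rcases hr with rfl | rfl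
    · exact ⟨by simp; omega, by simpa using hk⟩
    · exact ⟨by simp; omega, by simp [bsz]⟩
  · refine ⟨List.cons_ne_nil _ _, fun r hr => ?_⟩
    rw [List.mem_cons, List.mem_singleton] at hr
    rcases hr with rfl | rfl
    · exact ⟨by simp; omega, by simpa using hk⟩
    · exact ⟨by simp; omega, by simp [bsz]⟩
  · rw [h4]
    exact rd_initG
  · have hsz : bsz n L b = L * (3 * n) := by
      unfold bsz
      rw [if_neg (by omega), if_neg h4, if_pos h5]
    rw [hsz] at hi
    obtain ⟨c, rfl⟩ : ∃ c, b = c + 1 := ⟨b - 1, by omega⟩
    have hz : i % (3 * n) < 3 * n := Nat.mod_lt _ (by omega)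
    have hw : i / (3 * n) < L := Nat.div_lt_of_lt_mul (by rwa [Nat.mul_comm])
    exact rd_term hprog hL (by omega) (by omega) hw hz
  · have hsz : bsz n L b = L := by
      unfold bsz
      rw [if_neg (by omega), if_neg h4, if_neg h5]
    rw [hsz] at hi
    refine ⟨?_, fun r hr => ?_⟩
    · simp only [ne_eq, List.map_eq_nil_iff, List.range_eq_nil]
      omega
    · obtain ⟨z, hz, rfl⟩ := List.mem_map.1 hr
      rw [List.mem_range] at hz
      refine ⟨by simp only; omega, ?_⟩
      have h6 : (i + 1) * (3 * n) ≤ L * (3 * n) := Nat.mul_le_mul_right _ hi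
      rw [Nat.add_mul, Nat.one_mul] at h6
      simp only [bsz]
      rw [if_neg (by omega), if_neg (by omega), if_neg (by omega), if_pos (by omega)]
      omega

theorem blks_ok (hn : 0 < n) (hk : 0 < k) (hprog : ∀ q < n, (ins prog q).1 < 4)
    (hL : n + 12 ≤ L) :
    AllB (BlkOK k (blks prog n k L y T)) 1 (blks prog n k L y T) := by
  refine allB_of fun i l hl => ?_
  obtain ⟨hi, rfl⟩ := getElem?_blks hl
  intro j hj
  simp only at hj ⊢
  obtain ⟨h1, h2⟩ := rd_gk (y := y) hn hk hprog hL (Nat.succ_pos i) hj
  refine ⟨h1, fun r hr => ?_⟩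
  obtain ⟨h3, h4⟩ := h2 r hr
  refine ⟨?_, Or.inl (by simp only; omega)⟩
  rw [cnt_blks (by omega)]
  exact h4

end

/-! ### the values of the wires -/

/-- block `b` holds the configuration `c`, for cells above depth `D` -/
def Rep (E : Name → Bool) (n b D : ℕ) (c : ℕ × St) : Prop :=
  (∀ i < n, E (b, i) = true ↔ c.1 = i) ∧
  ∀ r < 4, ∀ v < 3, ∀ u < D, E (b, n + 12 * u + 3 * r + v) = true ↔
    cell (c.2 (regOf r)) u = v

theorem cell_lt (l : List Bool) (u : ℕ) : cell l u < 3 := by
  unfold cell
  rcases l[u]? with _ | _ | _ <;> simp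

theorem cell_cons_zero (c : Bool) (l : List Bool) : cell (c :: l) 0 = if c then 2 else 1 := by
  cases c <;> rfl

theorem cell_cons_succ (c : Bool) (l : List Bool) (u : ℕ) : cell (c :: l) (u + 1) = cell l u := by
  unfold cell
  rw [List.getElem?_cons_succ]

theorem cell_tail (l : List Bool) (u : ℕ) : cell l.tail u = cell l (u + 1) := by
  unfold cell
  rw [List.getElem?_tail]

theorem cell_nil (u : ℕ) : cell [] u = 0 := rfl

section
variable {prog : List Ins} {n k L T W : ℕ} {y : List Bool} {E : Name → Bool}
  (hE : ∀ g ∈ toG 1 (blks prog n k L y T), GSat E g)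

include hE in
theorem gsat {b i : ℕ} (hb : 0 < b) (hbT : b ≤ 4 + 2 * T) (hi : i < bsz n L b) :
    GSat E ((b, i), gk prog n k L y b i) := by
  obtain ⟨c, rfl⟩ : ∃ c, b = c + 1 := ⟨b - 1, by omega⟩
  have := sat_blocks hE (blks_getElem? (by omega : c < 4 + 2 * T)) i hi
  rwa [Nat.add_comm 1 c] at this

include hE in
theorem e_cst (c : Bool) : E (cst c) = c := by
  have h1 := sat_not (gsat hE (b := 1) (i := 0) (by omega) (by omega) (by simp [bsz]))
  have h2 := sat_and (gsat hE (b := 2) (i := 0) (by omega) (by omega) (by simp [bsz]))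
  have h3 := sat_or (gsat hE (b := 3) (i := 0) (by omega) (by omega) (by simp [bsz]))
  simp only [List.mem_cons, List.not_mem_nil, or_false, forall_eq_or_imp, forall_eq,
    exists_eq_or_imp, exists_eq_left, h1] at h2 h3
  cases c
  · change E (2, 0) = false
    rw [← Bool.not_eq_true, h2]
    cases E (0, 0) <;> simp
  · change E (3, 0) = true
    rw [h3]
    cases E (0, 0) <;> simp

theorem sat_copy {w r : Name} (h : GSat E (w, some true, [r])) : E w = E r := by
  have := sat_and h
  rw [Bool.eq_iff_iff, this]
  simp

include hE in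
/-- the initial layer -/
theorem rep_init {x : List Bool} (hx : x.length = k) (hL : L = n + 12 * W)
    (h0 : ∀ i < k, E (0, i) = x.getD i false) :
    Rep E n 4 W (0, mk (y ++ x) [] [] []) := by
  have hb : bsz n L 4 = L := rfl
  constructor
  · intro i hi
    have h := gsat hE (b := 4) (i := i) (by omega) (by omega) (by rw [hb]; omega)
    have e : gk prog n k L y 4 i = (some true, [cst (decide (i = 0))]) := by
      change initG n k y i = _
      unfold initG
      rw [if_pos hi]
    rw [e] at h
    rw [sat_copy h, e_cst hE, decide_eq_true_eq]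
    exact eq_comm
  · intro r hr v hv u hu
    set i := n + 12 * u + 3 * r + v with hi
    have h := gsat hE (b := 4) (i := i) (by omega) (by omega) (by rw [hb]; omega)
    have e1 : (i - n) % 12 / 3 = r := by omega
    have e2 : (i - n) / 12 = u := by omega
    have e3 : (i - n) % 3 = v := by omega
    have e : gk prog n k L y 4 i = initG n k y i := rfl
    rw [e] at h
    unfold initG at h
    rw [if_neg (by omega), e1, e2, e3] at h
    rcases Nat.eq_zero_or_pos r with rfl | hr0
    · change _ ↔ cell (y ++ x) u = v
      rw [if_pos rfl] at h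
      by_cases h1 : u < y.length
      · rw [if_pos h1] at h
        rw [sat_copy h, e_cst hE, decide_eq_true_eq]
        have hc : cell (y ++ x) u = if y.getD u false = true then 2 else 1 := by
          unfold cell
          rw [List.getElem?_append_left h1, List.getElem?_eq_getElem h1,
            List.getD_eq_getElem _ _ h1]
          cases y[u] <;> rfl
        rw [hc]
        exact eq_comm
      · rw [if_neg h1] at h
        by_cases h2 : u < y.length + k
        · rw [if_pos h2] at h
          have h3 : u - y.length < x.length := by omega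
          have hc : cell (y ++ x) u = if x.getD (u - y.length) false = true then 2 else 1 := by
            unfold cell
            rw [List.getElem?_append_right (by omega), List.getElem?_eq_getElem h3,
              List.getD_eq_getElem _ _ h3]
            cases x[u - y.length] <;> rfl
          rw [hc]
          by_cases h4 : v = 0
          · rw [if_pos h4] at h
            have h5 : E (2, 0) = false := e_cst hE false
            rw [sat_copy h, h5, h4]
            split_ifs <;> simp
          · rw [if_neg h4] at h
            by_cases h5 : v = 1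
            · rw [if_pos h5] at h
              rw [sat_not h, h0 _ (by omega), h5]
              cases x.getD (u - y.length) false <;> simp
            · rw [if_neg h5] at h
              have h6 : v = 2 := by omega
              rw [sat_copy h, h0 _ (by omega), h6]
              cases x.getD (u - y.length) false <;> simp
        · rw [if_neg h2] at h
          have hc : cell (y ++ x) u = 0 := by
            unfold cell
            rw [List.getElem?_eq_none (by rw [List.length_append]; omega)]
          rw [sat_copy h, e_cst hE, decide_eq_true_eq, hc]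
          exact eq_comm
    · rw [if_neg (by omega)] at h
      have hc : (mk (y ++ x) [] [] [] : St) (regOf r) = [] := by
        unfold regOf
        rw [if_neg (by omega)]
        split_ifs <;> rfl
      change _ ↔ cell ((mk (y ++ x) [] [] [] : St) (regOf r)) u = v
      rw [sat_copy h, e_cst hE, decide_eq_true_eq, hc, cell_nil]
      exact eq_comm

include hE in
/-- a wire of the next layer -/
theorem e_next {b w : ℕ} (hn : 0 < n) (hb : 4 ≤ b) (hb2 : b % 2 = 0) (hbT : b + 2 ≤ 4 + 2 * T)
    (hw : w < L) : E (b + 2, w) = true ↔ ∃ z < 3 * n, ∀ r ∈ term prog n L b w z, E r = true := by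
  have s1 : bsz n L (b + 1) = L * (3 * n) := by
    unfold bsz
    rw [if_neg (by omega), if_neg (by omega), if_pos (by omega)]
  have s2 : bsz n L (b + 2) = L := by
    unfold bsz
    rw [if_neg (by omega), if_neg (by omega), if_neg (by omega)]
  have h2 := gsat hE (b := b + 2) (i := w) (by omega) hbT (by rw [s2]; exact hw)
  have e2 : gk prog n k L y (b + 2) w =
      (some false, (List.range (3 * n)).map fun z => (b + 1, w * (3 * n) + z)) := by
    unfold gk
    rw [if_neg (by omega), if_neg (by omega), if_neg (by omega), if_neg (by omega),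
      if_neg (by omega)]
    rfl
  rw [e2] at h2
  have h3 := sat_or h2
  rw [h3]
  constructor
  · rintro ⟨r, hr, h4⟩
    obtain ⟨z, hz, rfl⟩ := List.mem_map.1 hr
    rw [List.mem_range] at hz
    have h6 : (w + 1) * (3 * n) ≤ L * (3 * n) := Nat.mul_le_mul_right _ hw
    rw [Nat.add_mul, Nat.one_mul] at h6
    have h1 := gsat hE (b := b + 1) (i := w * (3 * n) + z) (by omega) (by omega)
      (by rw [s1]; omega)
    have e1 : gk prog n k L y (b + 1) (w * (3 * n) + z) =
        (some true, term prog n L b w z) := by
      unfold gk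
      rw [if_neg (by omega), if_neg (by omega), if_neg (by omega), if_neg (by omega),
        if_pos (by omega), Nat.add_sub_cancel, Nat.mul_comm w, Nat.mul_add_div (by omega),
        Nat.div_eq_of_lt hz, Nat.add_zero, Nat.mul_add_mod, Nat.mod_eq_of_lt hz]
    rw [e1] at h1
    exact ⟨z, hz, (sat_and h1).1 h4⟩
  · rintro ⟨z, hz, h4⟩
    have h6 : (w + 1) * (3 * n) ≤ L * (3 * n) := Nat.mul_le_mul_right _ hw
    rw [Nat.add_mul, Nat.one_mul] at h6
    have h1 := gsat hE (b := b + 1) (i := w * (3 * n) + z) (by omega) (by omega)
      (by rw [s1]; omega)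
    have e1 : gk prog n k L y (b + 1) (w * (3 * n) + z) =
        (some true, term prog n L b w z) := by
      unfold gk
      rw [if_neg (by omega), if_neg (by omega), if_neg (by omega), if_neg (by omega),
        if_pos (by omega), Nat.add_sub_cancel, Nat.mul_comm w, Nat.mul_add_div (by omega),
        Nat.div_eq_of_lt hz, Nat.add_zero, Nat.mul_add_mod, Nat.mod_eq_of_lt hz]
    rw [e1] at h1
    exact ⟨_, List.mem_map.2 ⟨z, List.mem_range.2 hz, rfl⟩, (sat_and h1).2 h4⟩

include hE in
/-- one step -/
theorem rep_step (hn : 0 < n) (hL : L = n + 12 * W)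
    (hprog : ∀ q < n, (ins prog q).1 < 4 ∧ (ins prog q).2.1 < 4)
    {b D : ℕ} {c : ℕ × St} (hb : 4 ≤ b) (hb2 : b % 2 = 0) (hbT : b + 2 ≤ 4 + 2 * T)
    (hD : D + 1 ≤ W) (hc : c.1 < n) (h : Rep E n b (D + 1) c) :
    Rep E n (b + 2) D (step prog c) := by
  obtain ⟨q, σ⟩ := c
  obtain ⟨h1, h2⟩ := h
  simp only at h1 h2 hc
  obtain ⟨hr4, ho4⟩ := hprog q hc
  constructor
  · intro i hi
    rw [e_next hE hn hb hb2 hbT (by omega)]
    have hterm : ∀ z, term prog n L b i z = if nxt (ins prog (z / 3)) (z % 3) = i then
        [(b, z / 3), (b, n + 3 * (ins prog (z / 3)).1 + z % 3)] else [(2, 0)] := by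
      intro z
      unfold term
      rw [if_pos hi]
    change _ ↔ nxt (ins prog q) (cell (σ (regOf (ins prog q).1)) 0) = i
    constructor
    · rintro ⟨z, hz, h3⟩
      rw [hterm] at h3
      split_ifs at h3 with h4
      · simp only [List.mem_cons, List.not_mem_nil, or_false, forall_eq_or_imp, forall_eq] at h3
        rw [h1 _ (by omega)] at h3
        obtain ⟨h5, h6⟩ := h3
        rw [← h5] at h6 h4
        have h7 := (h2 _ hr4 (z % 3) (by omega) 0 (by omega)).1 (by rw [← h6]; rfl)
        rw [h7]
        exact h4
      · simp only [List.mem_cons, List.not_mem_nil, or_false, forall_eq] at h3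
        have h5 : E (2, 0) = false := e_cst hE false
        rw [h5] at h3
        exact absurd h3 Bool.false_ne_true
    · intro h3
      have hv := cell_lt (σ (regOf (ins prog q).1)) 0
      refine ⟨3 * q + cell (σ (regOf (ins prog q).1)) 0, by omega, ?_⟩
      have e1 : (3 * q + cell (σ (regOf (ins prog q).1)) 0) / 3 = q := by omega
      have e2 : (3 * q + cell (σ (regOf (ins prog q).1)) 0) % 3 =
        cell (σ (regOf (ins prog q).1)) 0 := by omega
      rw [hterm, e1, e2, if_pos h3]
      simp only [List.mem_cons, List.not_mem_nil, or_false, forall_eq_or_imp, forall_eq]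
      exact ⟨(h1 q hc).2 rfl, (h2 _ hr4 _ hv 0 (by omega)).2 rfl⟩
  · intro r hr v hv u hu
    set w := n + 12 * u + 3 * r + v with hw
    rw [e_next hE hn hb hb2 hbT (by omega)]
    have hterm : ∀ z, term prog n L b w z = [(b, z / 3), src prog n L b w (z / 3)] := by
      intro z
      unfold term
      rw [if_neg (by omega)]
    have key : (∃ z < 3 * n, ∀ r ∈ term prog n L b w z, E r = true) ↔
        E (src prog n L b w q) = true := by
      constructor
      · rintro ⟨z, hz, h3⟩
        rw [hterm] at h3
        simp only [List.mem_cons, List.not_mem_nil, or_false, forall_eq_or_imp, forall_eq] at h3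
        rw [h1 _ (by omega)] at h3
        rw [h3.1]
        exact h3.2
      · intro h3
        refine ⟨3 * q, by omega, ?_⟩
        have e1 : 3 * q / 3 = q := by omega
        rw [hterm, e1]
        simp only [List.mem_cons, List.not_mem_nil, or_false, forall_eq_or_imp, forall_eq]
        exact ⟨(h1 q hc).2 rfl, h3⟩
    rw [key]
    have e1 : (w - n) % 12 / 3 = r := by omega
    have e2 : (w - n) / 12 = u := by omega
    have e3 : (w - n) % 3 = v := by omega
    unfold src
    rw [e1, e2, e3]
    change _ ↔ cell (Function.update σ (regOf (ins prog q).1)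
      (app (ins prog q).2.1 (σ (regOf (ins prog q).1))) (regOf r)) u = v
    by_cases h3 : r = (ins prog q).1
    · subst h3
      rw [Function.update_self]
      by_cases h4 : (ins prog q).2.1 = 0
      · rw [if_neg (fun h => h.2 h4), h4]
        exact h2 _ hr v hv u (by omega)
      · rw [if_pos ⟨rfl, h4⟩]
        by_cases h5 : (ins prog q).2.1 = 1
        · rw [if_pos h5, if_pos (by omega), h5]
          change _ ↔ cell (List.tail _) u = v
          rw [cell_tail, ← h2 _ hr v hv (u + 1) (by omega)]
          have : w + 12 = n + 12 * (u + 1) + 3 * (ins prog q).1 + v := by omega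
          rw [this]
        · rw [if_neg h5]
          have happ : app (ins prog q).2.1 (σ (regOf (ins prog q).1)) =
              decide ((ins prog q).2.1 = 3) :: σ (regOf (ins prog q).1) := by
            unfold app
            rw [if_neg h4, if_neg h5]
          rw [happ]
          rcases Nat.eq_zero_or_pos u with rfl | hu0
          · rw [if_pos rfl, e_cst hE, cell_cons_zero, decide_eq_true_eq]
            by_cases h6 : (ins prog q).2.1 = 3
            · rw [if_pos (decide_eq_true h6), h6]
              constructor <;> intro h7 <;> omega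
            · have h7 : (ins prog q).2.1 = 2 := by omega
              rw [if_neg (by simpa using h6), h7]
              constructor <;> intro h8 <;> omega
          · rw [if_neg (by omega)]
            obtain ⟨u', rfl⟩ : ∃ u', u = u' + 1 := ⟨u - 1, by omega⟩
            rw [cell_cons_succ, ← h2 _ hr v hv u' (by omega)]
            have : w - 12 = n + 12 * u' + 3 * (ins prog q).1 + v := by omega
            rw [this]
    · rw [if_neg (fun h => h3 h.1)]
      have h4 : regOf r ≠ regOf (ins prog q).1 := by
        intro h5
        have h6 := congrArg rn h5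
        rw [rn_regOf hr, rn_regOf hr4] at h6
        exact h3 h6
      rw [Function.update_of_ne h4]
      exact h2 _ hr v hv u (by omega)

include hE in
/-- all layers -/
theorem rep_all (hn : 0 < n) (hL : L = n + 12 * W) (hTW : T ≤ W)
    (hprog : ∀ q < n, (ins prog q).1 < 4 ∧ (ins prog q).2.1 < 4 ∧ ∀ v, nxt (ins prog q) v < n)
    {x : List Bool} (hx : x.length = k) (h0 : ∀ i < k, E (0, i) = x.getD i false) :
    ∀ t ≤ T, ((step prog)^[t] (0, mk (y ++ x) [] [] [])).1 < n ∧
      Rep E n (4 + 2 * t) (W - t) ((step prog)^[t] (0, mk (y ++ x) [] [] [])) := by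
  intro t
  induction t with
  | zero =>
    intro _
    exact ⟨hn, rep_init hE hx hL h0⟩
  | succ t ih =>
    intro ht
    obtain ⟨h1, h2⟩ := ih (by omega)
    rw [Function.iterate_succ_apply']
    refine ⟨(hprog _ h1).2.2 _, ?_⟩
    have h3 : W - t = (W - (t + 1)) + 1 := by omega
    rw [h3] at h2
    have h4 := rep_step hE hn hL (fun q hq => ⟨(hprog q hq).1, (hprog q hq).2.1⟩)
      (b := 4 + 2 * t) (by omega) (by omega) (by omega) (by omega) h1 h2
    exact h4

end

end Pool.Agent.MPa0a715.WM
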