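import Pool.Agent.Lib.PolyTime.Lists

/-!
# Programs working on words with raw bits

A polynomial-time function of `(a, x)` whose value is a list of bits is computed by a structured
stack program that starts with a known word, depending on `a`, followed by the bits of `x`, and
ends with the bits of the value.
-/

namespace Pool.Agent.MPa0a715.WM

open Pool.Agent.PolyTime SP

theorem rloop_c_nil {P : SP} {m a b : List Bool} :
    Runs (loop Reg.c P) (mk m a b []) (mk m a b []) 1 :=
  ⟨1, le_refl _, Run.loop_nil rfl⟩

theorem rloop_a_nil {P : SP} {m b c : List Bool} :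
    Runs (loop Reg.a P) (mk m [] b c) (mk m [] b c) 1 :=
  ⟨1, le_refl _, Run.loop_nil rfl⟩

theorem rpop_m_nil {P Q R : SP} {a b c : List Bool} {s : St} {n : ℕ}
    (h : Runs R (mk [] a b c) s n) : Runs (pop Reg.m P Q R) (mk [] a b c) s (n + 1) := by
  obtain ⟨t, ht, h⟩ := h
  exact ⟨t + 1, by omega, Run.pop_nil rfl h⟩

/-- push a marked bit on `a` and continue the loop on `c` -/
def putBit (b : Bool) : SP := (push Reg.a b).seq ((push Reg.a true).seq (push Reg.c true))

theorem putBit_runs (x : Bool) (m a b c : List Bool) :
    Runs (putBit x) (mk m a b c) (mk m (true :: x :: a) b (true :: c)) 3 :=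
  Runs.seq Runs.push_a (Runs.seq Runs.push_a Runs.push_c)

/-- the word as marked stack -/
def marked : List Bool → List Bool → List Bool
  | [], A => A
  | x :: l, A => marked l (true :: x :: A)

theorem marked_append (l l' A : List Bool) : marked (l ++ l') A = marked l' (marked l A) := by
  induction l generalizing A with
  | nil => rfl
  | cons x l ih => simp [marked, ih]

/-- the known part of the input word: its bits are marked -/
def kp : List Bool → List Bool
  | [] => [false]
  | x :: l => true :: x :: kp l

theorem length_kp (l : List Bool) : (kp l).length = 2 * l.length + 1 := by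
  induction l with
  | nil => rfl
  | cons x l ih => simp only [kp, List.length_cons, ih]; omega

/-- read a bit of the known part -/
def knownBody : SP := pop Reg.m (pop Reg.m (putBit true) (putBit false) skip) skip skip

theorem known_runs (l : List Bool) : ∀ m a b : List Bool,
    Runs (loop Reg.c knownBody) (mk (kp l ++ m) a b [true]) (mk m (marked l a) b [])
      (6 * l.length + 4) := by
  induction l with
  | nil =>
    intro m a b
    exact Runs.mono (Runs.loop_c_true (n := 2) (n' := 1) (s := mk m a b [])
      (Runs.pop_m_false (Runs.skip _)) rloop_c_nil) (by simp)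
  | cons x l ih =>
    intro m a b
    have h := ih m (true :: x :: a) b
    refine Runs.mono (Runs.loop_c_true (s := mk (kp l ++ m) (true :: x :: a) b [true])
      (n := 5) ?_ h) (by simp; omega)
    cases x
    · exact Runs.pop_m_true (Runs.pop_m_false (putBit_runs _ _ _ _ _))
    · exact Runs.pop_m_true (Runs.pop_m_true (putBit_runs _ _ _ _ _))

/-- read a raw bit -/
def readBody : SP := pop Reg.m (putBit true) (putBit false) skip

theorem read_runs (l : List Bool) : ∀ a b : List Bool,
    Runs (loop Reg.c readBody) (mk l a b [true]) (mk [] (marked l a) b []) (5 * l.length + 4) := by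
  induction l with
  | nil =>
    intro a b
    exact Runs.mono (Runs.loop_c_true (rpop_m_nil (Runs.skip _)) rloop_c_nil) (by simp)
  | cons x l ih =>
    intro a b
    have h := ih (true :: x :: a) b
    refine Runs.mono (Runs.loop_c_true (s := mk l (true :: x :: a) b [true]) (n := 4) ?_ h)
      (by simp; omega)
    cases x
    · exact Runs.pop_m_false (putBit_runs _ _ _ _ _)
    · exact Runs.pop_m_true (putBit_runs _ _ _ _ _)

/-- body of the loop writing the code of a list of bits -/
def writeBody : SP := pop Reg.a
  ((push Reg.m false).seq ((push Reg.m false).seq ((push Reg.m true).seq (push Reg.m true))))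
  ((push Reg.m false).seq (push Reg.m true)) skip

theorem bits_cons_true (l : List Bool) :
    bits (enc (true :: l)) = true :: true :: false :: false :: bits (enc l) := rfl

theorem bits_cons_false (l : List Bool) :
    bits (enc (false :: l)) = true :: false :: bits (enc l) := rfl

theorem write_runs (l : List Bool) : ∀ l' A b c : List Bool,
    Runs (loop Reg.a writeBody) (mk (bits (enc l')) (marked l (false :: A)) b c)
      (mk (bits (enc (l ++ l'))) A b c) (6 * l.length + 1) := by
  induction l using List.reverseRecOn with
  | nil => intro l' A b c; exact Runs.mono Runs.loop_a_false (by simp)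
  | append_singleton l x ih =>
    intro l' A b c
    have h := ih (x :: l') A b c
    rw [marked_append, List.append_assoc, List.singleton_append]
    refine Runs.mono (Runs.loop_a_true
      (s := mk (bits (enc (x :: l'))) (marked l (false :: A)) b c) (n := 5) ?_ h)
      (by simp; omega)
    cases x
    · rw [bits_cons_false]
      exact Runs.mono (Runs.pop_a_false (Runs.seq Runs.push_m Runs.push_m)) (by omega)
    · rw [bits_cons_true]
      exact Runs.pop_a_true (Runs.seq Runs.push_m (Runs.seq Runs.push_m
        (Runs.seq Runs.push_m Runs.push_m)))

/-- move the marked word back -/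
def back : SP := loop Reg.a (pop Reg.a (push Reg.m true) (push Reg.m false) skip)

theorem back_runs (l : List Bool) : ∀ m b c : List Bool,
    Runs back (mk m (marked l []) b c) (mk (l ++ m) [] b c) (3 * l.length + 1) := by
  induction l using List.reverseRecOn with
  | nil => intro m b c; exact Runs.mono rloop_a_nil (by simp)
  | append_singleton l x ih =>
    intro m b c
    have h := ih (x :: m) b c
    rw [marked_append, List.append_assoc, List.singleton_append]
    refine Runs.mono (Runs.loop_a_true (s := mk (x :: m) (marked l []) b c)
      (n := 2) ?_ h) (by simp; omega)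
    cases x
    · exact Runs.pop_a_false Runs.push_m
    · exact Runs.pop_a_true Runs.push_m

/-- replace the raw bits by their code -/
def pre : SP := (push Reg.c true).seq ((loop Reg.c knownBody).seq ((push Reg.a false).seq
  ((push Reg.c true).seq ((loop Reg.c readBody).seq ((push Reg.m false).seq
    ((loop Reg.a writeBody).seq back))))))

theorem pre_runs (y x : List Bool) : Runs pre (mk (kp y ++ x) [] [] [])
    (mk (y ++ bits (enc x)) [] [] []) (9 * y.length + 11 * x.length + 14) := by
  have h := write_runs x [] (marked y []) [] []
  rw [List.append_nil] at h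
  exact Runs.mono (Runs.seq Runs.push_c (Runs.seq (known_runs y x [] []) (Runs.seq Runs.push_a
    (Runs.seq Runs.push_c (Runs.seq (read_runs x _ []) (Runs.seq Runs.push_m
      (Runs.seq h (back_runs y _ [] [])))))))) (by omega)

/-- read an element of a coded list of bits -/
def parseBody : SP := pop Reg.m
  (pop Reg.m ((pop Reg.m skip skip skip).seq ((pop Reg.m skip skip skip).seq (putBit true)))
    (putBit false) skip) skip skip

theorem parse_runs (l : List Bool) : ∀ a b : List Bool,
    Runs (loop Reg.c parseBody) (mk (bits (enc l)) a b [true]) (mk [] (marked l a) b [])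
      (10 * l.length + 4) := by
  induction l with
  | nil =>
    intro a b
    exact Runs.mono (Runs.loop_c_true (n := 2) (n' := 1) (s := mk [] a b [])
      (Runs.pop_m_false (Runs.skip _)) rloop_c_nil) (by simp)
  | cons x l ih =>
    intro a b
    have h := ih (true :: x :: a) b
    refine Runs.mono (Runs.loop_c_true (s := mk (bits (enc l)) (true :: x :: a) b [true])
      (n := 9) ?_ h) (by simp; omega)
    cases x
    · rw [bits_cons_false]
      exact Runs.mono (Runs.pop_m_true (Runs.pop_m_false (putBit_runs _ _ _ _ _))) (by omega)
    · rw [bits_cons_true]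
      exact Runs.mono (Runs.pop_m_true (Runs.pop_m_true (Runs.seq
        (Runs.pop_m_false (Runs.skip _)) (Runs.seq (Runs.pop_m_false (Runs.skip _))
          (putBit_runs _ _ _ _ _))))) (by omega)

/-- from codes to plain words -/
def ofCode : SP := (push Reg.c true).seq ((loop Reg.c parseBody).seq back)

theorem ofCode_runs (l : List Bool) :
    Runs ofCode (mk (bits (enc l)) [] [] []) (mk l [] [] []) (13 * l.length + 6) := by
  have h := back_runs l [] [] []
  rw [List.append_nil] at h
  exact Runs.mono (Runs.seq Runs.push_c (Runs.seq (parse_runs l [] []) h)) (by omega)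

theorem size_bools (l : List Bool) : size (enc l) ≤ 4 * l.length + 1 := by
  induction l with
  | nil => simp [enc_nil]
  | cons x l ih =>
    rw [size_lcons]
    have : size (enc x) ≤ 3 := by cases x <;> simp [enc_true, enc_false]
    simp only [List.length_cons]
    omega

/-- the program for a function of `(a, x)` -/
theorem exists_prog {α : Type} [Enc α] {H : α × List Bool → List Bool} (hH : PTime H) :
    ∃ (P : SP) (p : Polynomial ℕ), ∀ (a : α) (x : List Bool),
      Runs P (mk (kp (true :: bits (enc a)) ++ x) [] [] []) (mk (H (a, x)) [] [] [])
        (p.eval (size (enc a) + x.length)) := by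
  obtain ⟨P, S, hS, hSm, hP, hPs⟩ := hH.elim
  have hB : PBd fun n => (20 * n + 30) + (S (4 * n + 2) + (13 * S (4 * n + 2) + 6)) := by
    have h1 : PBd fun n => S (4 * n + 2) :=
      hS.comp (((PBd.const 4).mul PBd.id).add (PBd.const 2))
    exact (((PBd.const 20).mul PBd.id).add (PBd.const 30)).add
      (h1.add (((PBd.const 13).mul h1).add (PBd.const 6)))
  obtain ⟨p, hp⟩ := hB
  refine ⟨pre.seq (P.seq ofCode), p, fun a x => ?_⟩
  have h1 := pre_runs (true :: bits (enc a)) x
  have h2 := hP (a, x) [] [] [] []
  rw [List.append_nil, List.append_nil] at h2
  have h3 := ofCode_runs (H (a, x))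
  have hsz : size (enc (a, x)) ≤ 4 * (size (enc a) + x.length) + 2 := by
    have := size_bools x
    rw [size_pair]
    omega
  have hS' := hSm hsz
  have hlen : (H (a, x)).length ≤ S (4 * (size (enc a) + x.length) + 2) := by
    have := length_le_size (H (a, x))
    have := hPs (a, x)
    omega
  have hl : (true :: bits (enc a)).length = size (enc a) + 1 := rfl
  have hfin := hp (size (enc a) + x.length)
  dsimp only at hfin
  refine Runs.mono (Runs.seq h1 (Runs.seq h2 h3)) ?_
  rw [hl]
  omega

end Pool.Agent.MPa0a715.WM
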