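import Pool.Agent.Lib.MP_a0a715_lc_WM.Stmts
import Pool.Agent.Lib.MP_a0a715_lc_WM.Word
import Pool.Agent.Lib.MP_a0a715_lc_WM.Layers

/-!
# Polynomial-time functions have circuits computable in polynomial time
-/

namespace Pool.Agent.MPa0a715.WM

open Pool.Agent.MPa0a715 Pool.Agent.PolyTime

section
variable {α : Type} [Enc α]

theorem ptime_ins (prog : List Ins) {q : α → ℕ} (hq : PTime q) :
    PTime (fun a => ins prog (q a)) :=
  PTime.listGetD (PTime.const prog) hq ((PTime.const 0).pair ((PTime.const 0).pair
    (hq.pair (hq.pair hq))))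

theorem ptime_nxt {I : α → Ins} {v : α → ℕ} (hI : PTime I) (hv : PTime v) :
    PTime (fun a => nxt (I a) (v a)) :=
  ptime_ite_eq hv (b := 0) hI.snd'.snd'.snd'.snd' (ptime_ite_eq hv (b := 1)
    hI.snd'.snd'.snd'.fst' hI.snd'.snd'.fst')

theorem ptime_cst {c : α → Bool} (hc : PTime c) : PTime (fun a => cst (c a)) :=
  PTime.ite hc (PTime.const (3, 0)) (PTime.const (2, 0))

theorem ptime_src (prog : List Ins) (n : ℕ) {L b w q : α → ℕ} (hL : PTime L) (hb : PTime b)
    (hw : PTime w) (hq : PTime q) :
    PTime (fun a => src prog n (L a) (b a) (w a) (q a)) := by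
  have hI := ptime_ins prog hq
  have h0 : PTime (fun a => (w a - n) % 12 / 3) :=
    ((hw.sub (PTime.const n)).mod (PTime.const 12)).div (PTime.const 3)
  have h1 : PTime (fun a => decide ((w a - n) % 12 / 3 = (ins prog (q a)).1 ∧
      (ins prog (q a)).2.1 ≠ 0)) :=
    PTime.andP (PTime.eq h0 hI.fst') (PTime.notP (PTime.eq hI.snd'.fst' (PTime.const 0)))
  have h2 : PTime (fun a => w a + 12) := hw.add (PTime.const 12)
  have h3 : PTime (fun a => decide ((w a - n) % 3 + 1 = (ins prog (q a)).2.1)) :=
    PTime.eq (((hw.sub (PTime.const n)).mod (PTime.const 3)).add (PTime.const 1)) hI.snd'.fst'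
  have h4 : PTime (fun a => (w a - n) / 12) := (hw.sub (PTime.const n)).div (PTime.const 12)
  exact PTime.iteP h1 (ptime_ite_eq hI.snd'.fst' (b := 1)
    (PTime.iteP (PTime.lt h2 hL) (hb.pair h2) (PTime.const (2, 0)))
    (ptime_ite_eq h4 (b := 0) (ptime_cst h3) (hb.pair (hw.sub (PTime.const 12)))))
    (hb.pair hw)

theorem ptime_term (prog : List Ins) (n : ℕ) {L b w z : α → ℕ} (hL : PTime L) (hb : PTime b)
    (hw : PTime w) (hz : PTime z) :
    PTime (fun a => term prog n (L a) (b a) (w a) (z a)) := by
  have h3 : PTime (fun a => z a / 3) := hz.div (PTime.const 3)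
  have hm : PTime (fun a => z a % 3) := hz.mod (PTime.const 3)
  have hI := ptime_ins prog h3
  have hnil : PTime (fun _ : α => ([] : List Name)) := PTime.const _
  have hN : PTime (fun a => n + 3 * (ins prog (z a / 3)).1 + z a % 3) :=
    ((PTime.const n).add ((PTime.const 3).mul hI.fst')).add hm
  exact PTime.iteP (PTime.lt hw (PTime.const n))
    (PTime.iteP (PTime.eq (ptime_nxt hI hm) hw) ((hb.pair h3).cons ((hb.pair hN).cons hnil))
      (PTime.const [(2, 0)]))
    ((hb.pair h3).cons ((ptime_src prog n hL hb hw h3).cons hnil))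

theorem ptime_initG (n : ℕ) {k i : α → ℕ} {y : α → List Bool} (hk : PTime k) (hy : PTime y)
    (hi : PTime i) : PTime (fun a => initG n (k a) (y a) (i a)) := by
  have hin : PTime (fun a => i a - n) := hi.sub (PTime.const n)
  have hu : PTime (fun a => (i a - n) / 12) := hin.div (PTime.const 12)
  have hr : PTime (fun a => (i a - n) % 12 / 3) := (hin.mod (PTime.const 12)).div (PTime.const 3)
  have hv : PTime (fun a => (i a - n) % 3) := hin.mod (PTime.const 3)
  have hl := PTime.length hy
  have hnil : PTime (fun _ : α => ([] : List Name)) := PTime.const _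
  have ht : PTime (fun _ : α => (some true : Option Bool)) := PTime.const _
  have hc : ∀ {c : α → Bool}, PTime c →
      PTime (fun a => ((some true, [cst (c a)]) : Option Bool × List Name)) :=
    fun h => ht.pair ((ptime_cst h).cons hnil)
  have hx : PTime (fun a => ((0, (i a - n) / 12 - (y a).length) : Name)) :=
    (PTime.const 0).pair (hu.sub hl)
  have hd : PTime (fun a => decide ((i a - n) % 3 =
      if (y a).getD ((i a - n) / 12) false = true then 2 else 1)) :=
    PTime.eq hv (PTime.ite (PTime.listGetD hy hu (PTime.const false)) (PTime.const 2)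
      (PTime.const 1))
  have h0 : PTime (fun a => decide ((i a - n) % 3 = 0)) := PTime.eq hv (PTime.const 0)
  exact PTime.iteP (PTime.lt hi (PTime.const n)) (hc (PTime.eq hi (PTime.const 0)))
    (ptime_ite_eq hr (b := 0)
      (PTime.iteP (PTime.lt hu hl) (hc hd)
        (PTime.iteP (PTime.lt hu (hl.add hk))
          (ptime_ite_eq hv (b := 0) (PTime.const _)
            (ptime_ite_eq hv (b := 1) ((PTime.const none).pair (hx.cons hnil))
              (ht.pair (hx.cons hnil))))
          (hc h0)))
      (hc h0))

theorem ptime_gk (prog : List Ins) (n : ℕ) {k L b i : α → ℕ} {y : α → List Bool}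
    (hk : PTime k) (hL : PTime L) (hy : PTime y) (hb : PTime b) (hi : PTime i) :
    PTime (fun a => gk prog n (k a) (L a) (y a) (b a) (i a)) := by
  have hb1 : PTime (fun a => b a - 1) := hb.sub (PTime.const 1)
  have h3n : PTime (fun _ : α => 3 * n) := PTime.const _
  have hr : PTime (fun a => (List.range (3 * n)).map fun z => ((b a - 1, i a * (3 * n) + z) :
      Name)) :=
    PTime.map (g := fun (a : α) (z : ℕ) => ((b a - 1, i a * (3 * n) + z) : Name))
      (PTime.const _) ((hb1.comp PTime.fst).pair (((hi.mul h3n).comp PTime.fst).add PTime.snd))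
  exact ptime_ite_eq hb (b := 1) (PTime.const _) (ptime_ite_eq hb (b := 2) (PTime.const _)
    (ptime_ite_eq hb (b := 3) (PTime.const _) (ptime_ite_eq hb (b := 4) (ptime_initG n hk hy hi)
      (ptime_ite_eq (hb.mod (PTime.const 2)) (b := 1)
        ((PTime.const (some true)).pair (ptime_term prog n hL hb1 (hi.div h3n) (hi.mod h3n)))
        ((PTime.const (some false)).pair hr)))))

theorem pu_ite {c : α → Prop} [DecidablePred c] {f g : α → ℕ}
    (hc : PTime (fun a => decide (c a))) (hf : PU f) (hg : PU g) :
    PU (fun a => if c a then f a else g a) :=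
  (PTime.iteP hc hf hg).of_eq fun a => by dsimp only; split_ifs <;> rfl

theorem pu_bsz (n : ℕ) {L b : α → ℕ} (hL : PU L) (hb : PTime b) :
    PU (fun a => bsz n (L a) (b a)) :=
  pu_ite (PTime.lt hb (PTime.const 4)) (PU.const 1) (pu_ite (PTime.eq hb (PTime.const 4)) hL
    (pu_ite (PTime.eq (hb.mod (PTime.const 2)) (PTime.const 1)) (hL.mul (PU.const (3 * n))) hL))

theorem toG_range (f : ℕ → Blk) (m : ℕ) : ∀ s : ℕ, toG s ((List.range m).map fun i => f (s + i)) =
    (List.range m).flatMap fun i => (List.range (f (s + i)).1).map fun j =>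
      ((s + i, j), (f (s + i)).2 j) := by
  induction m with
  | zero => intro s; rfl
  | succ m ih =>
    intro s
    rw [List.range_succ_eq_map, List.map_cons, toG, List.flatMap_cons, List.map_map,
      List.flatMap_map]
    congr 1
    have h := ih (s + 1)
    have e : ∀ i, s + 1 + i = s + (i + 1) := fun i => by omega
    simp only [e] at h
    exact h

theorem ptime_blks (prog : List Ins) (n : ℕ) {k L T : α → ℕ} {y : α → List Bool}
    (hk : PTime k) (hL : PU L) (hy : PTime y) (hT : PU T) :
    PTime (fun a => toG 1 (blks prog n (k a) (L a) (y a) (T a))) := by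
  have h1 : PTime (fun a => (List.range (4 + 2 * T a)).flatMap fun i =>
      (List.range (bsz n (L a) (1 + i))).map fun j => (((1 + i, j),
        gk prog n (k a) (L a) (y a) (1 + i) j) : NG)) := by
    have hi : PTime (fun p : α × ℕ => 1 + p.2) := (PTime.const 1).add PTime.snd
    refine PTime.flatMap (g := fun (a : α) (i : ℕ) =>
      (List.range (bsz n (L a) (1 + i))).map fun j => (((1 + i, j),
        gk prog n (k a) (L a) (y a) (1 + i) j) : NG))
      (PU.range ((PU.const 4).add ((PU.const 2).mul hT))) ?_
    refine PTime.map (g := fun (p : α × ℕ) (j : ℕ) => (((1 + p.2, j),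
        gk prog n (k p.1) (L p.1) (y p.1) (1 + p.2) j) : NG))
      (PU.range (pu_bsz n (hL.comp PTime.fst) hi)) ?_
    have hi' : PTime (fun p : (α × ℕ) × ℕ => 1 + p.1.2) := hi.comp PTime.fst
    have hj : PTime (fun p : (α × ℕ) × ℕ => p.2) := PTime.snd
    have ha : PTime (fun p : (α × ℕ) × ℕ => p.1.1) := PTime.fst' PTime.fst
    exact (hi'.pair hj).pair (ptime_gk prog n (hk.comp ha) (hL.toNat.comp ha) (hy.comp ha) hi' hj)
  refine h1.of_eq fun a => ?_
  have h2 := toG_range (fun b => (bsz n (L a) b, gk prog n (k a) (L a) (y a) b)) (4 + 2 * T a) 1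
  rw [← h2]
  unfold blks
  congr 1
  refine List.map_congr_left fun i _ => ?_
  rw [Nat.add_comm 1 i]

theorem ptime_kp {y : α → List Bool} (hy : PTime y) : PTime (fun a => kp (y a)) := by
  have h : PTime (fun a => (y a).flatMap (fun b => [true, b]) ++ [false]) :=
    (PTime.flatMap (g := fun (_ : α) (b : Bool) => [true, b]) hy
      ((PTime.const true).cons (PTime.snd.cons (PTime.const [])))).append (PTime.const _)
  refine h.of_eq fun a => ?_
  induction y a with
  | nil => rfl
  | cons b l ih => rw [kp, ← ih]; rfl

end

section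
variable {k M T : ℕ} {y : List Bool}

/-- the circuit for a list of instructions -/
def circ (prog : List Ins) (n k M T : ℕ) (y : List Bool) : Circuit :=
  compile (inNames k) (toG 1 (blks prog n k (n + 12 * (T + M + 1)) y T))
    ((List.range M).map fun j => (4 + 2 * T, n + 12 * j + 2))

theorem circ_spec {P : SP} {x z : List Bool} {t : ℕ} (hk : 0 < k) (hx : x.length = k)
    (hz : z.length = M) (ht : t ≤ T) (hrun : Run P (mk (y ++ x) [] [] []) (mk z [] [] []) t) :
    (circ (whole P) (len P + 1) k M T y).Valid ∧ (circ (whole P) (len P + 1) k M T y).n = k ∧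
    (circ (whole P) (len P + 1) k M T y).outs.length = M ∧
    ∀ j < M, (circ (whole P) (len P + 1) k M T y).outBit x j = z.getD j false := by
  set n := len P + 1 with hn
  set L := n + 12 * (T + M + 1) with hL
  have hprog : ∀ q < n, (ins (whole P) q).1 < 4 ∧ (ins (whole P) q).2.1 < 4 ∧
      ∀ v, nxt (ins (whole P) q) v < n := by
    intro q hq
    obtain ⟨h1, h2, h3⟩ := ins_ok P (q := q) (by omega)
    exact ⟨h1, h2, fun v => Nat.lt_succ_of_le (h3 v)⟩
  have hwf : WF (inNames k) (toG 1 (blks (whole P) n k L y T)) :=
    wf_blocks (blks_ok (by omega) hk (fun q hq => (hprog q hq).1) (by omega))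
  have hbL : bsz n L (4 + 2 * T) = L := by
    unfold bsz
    rw [if_neg (by omega)]
    split_ifs
    · rfl
    · omega
    · rfl
  have hout : ∀ o ∈ (List.range M).map (fun j => ((4 + 2 * T, n + 12 * j + 2) : Name)),
      o ∈ (toG 1 (blks (whole P) n k L y T)).map Prod.fst := by
    intro o ho
    obtain ⟨j, hj, rfl⟩ := List.mem_map.1 ho
    rw [List.mem_range] at hj
    refine toG_names.2 ⟨3 + 2 * T, _, blks_getElem? (by omega), by simp only; omega, ?_⟩
    have e : 3 + 2 * T + 1 = 4 + 2 * T := by omega
    simp only [e, hbL]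
    omega
  refine ⟨compile_valid hwf hout, length_inNames k, ?_, fun j hj => ?_⟩
  · unfold circ compile
    simp
  · have hxl : x.length = (inNames k).length := by rw [length_inNames, hx]
    have hE := compile_sat hwf hout hxl
    have hbit : (circ (whole P) n k M T y).outBit x j = cenv (inNames k)
        (toG 1 (blks (whole P) n k L y T))
        ((List.range M).map (fun j => ((4 + 2 * T, n + 12 * j + 2) : Name))) x
        (4 + 2 * T, n + 12 * j + 2) := by
      have h2 : (circ (whole P) n k M T y).outs.getD j 0 = wireOf (inNames k).length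
          (fanin (toG 1 (blks (whole P) n k L y T)))
          (inNames k ++ (toG 1 (blks (whole P) n k L y T)).map Prod.fst)
          (4 + 2 * T, n + 12 * j + 2) := by
        change (((List.range M).map (fun j => ((4 + 2 * T, n + 12 * j + 2) : Name))).map _).getD
          j 0 = _
        rw [List.getD_eq_getElem _ _ (by simpa using hj), List.getElem_map]
        congr 1
        simp
      unfold Circuit.outBit cenv
      rw [h2]
      rfl
    have h0 : ∀ i < k, cenv (inNames k) (toG 1 (blks (whole P) n k L y T))
        ((List.range M).map (fun j => ((4 + 2 * T, n + 12 * j + 2) : Name))) x (0, i) =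
        x.getD i false := by
      intro i hi
      have h1 := cenv_input (outs := (List.range M).map (fun j =>
        ((4 + 2 * T, n + 12 * j + 2) : Name))) hwf hxl (i := i) (by rw [length_inNames]; exact hi)
      have h2 : (inNames k)[i]'(by rw [length_inNames]; exact hi) = (0, i) := by
        unfold inNames
        rw [List.getElem_map, List.getElem_range]
      rw [h2] at h1
      exact h1
    rw [hbit]
    generalize cenv (inNames k) (toG 1 (blks (whole P) n k L y T))
      ((List.range M).map (fun j => ((4 + 2 * T, n + 12 * j + 2) : Name))) x = E at hE h0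
    obtain ⟨_, h3⟩ := rep_all (W := T + M + 1) hE (by omega) rfl (by omega) hprog hx h0 T le_rfl
    rw [sim_whole hrun ht] at h3
    have h4 := h3.2 0 (by omega) 2 (by omega) j (by omega)
    rw [Nat.mul_zero, Nat.add_zero] at h4
    have h5 : cell z j = 2 ↔ z.getD j false = true := by
      unfold cell
      rw [List.getElem?_eq_getElem (by omega), List.getD_eq_getElem _ _ (by omega)]
      cases z[j] <;> simp
    have h6 : cell ((len P, (mk z [] [] [] : St)).2 (regOf 0)) j = 2 ↔ z.getD j false = true := h5
    rw [Bool.eq_iff_iff, h4, h6]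

end

/-- Polynomial-time functions have circuits computable in polynomial time. -/
theorem circStmt : CircStmt := by
  intro α _ F k M hF hk hM
  have hH : PTime (fun p : α × List Bool => (List.range (M p.1)).map fun j => F p.1 j p.2) :=
    PTime.map (g := fun (p : α × List Bool) (j : ℕ) => F p.1 j p.2) (hM.comp PTime.fst).range
      (hF.comp ((PTime.fst' PTime.fst).pair (PTime.snd.pair (PTime.snd' PTime.fst))))
  obtain ⟨P, p, hP⟩ := exists_prog hH
  have hbits : PTime (fun a : α => bits (enc a)) := PTime.bits' PTime.id
  have hy : PTime (fun a : α => kp (true :: bits (enc a))) :=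
    ptime_kp ((PTime.const true).cons hbits)
  have hT : PU (fun a : α => p.eval (size (enc a) + k a)) := by
    have h1 : PTime (fun a : α => (bits (enc a)).map (fun _ => ()) ++
        List.replicate (k a) ()) :=
      (PTime.map (g := fun (_ : α) (_ : Bool) => ()) hbits (PTime.const ())).append hk
    refine PTime.of_eq (PTime.unaryPoly h1 p) fun a => ?_
    rw [List.length_append, List.length_map, List.length_replicate]
    rfl
  have hW : PU (fun a : α => len P + 1 + 12 * (p.eval (size (enc a) + k a) + M a + 1)) :=
    (PU.const (len P + 1)).add ((PU.const 12).mul ((hT.add hM).add (PU.const 1)))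
  refine ⟨fun a => circ (whole P) (len P + 1) (k a) (M a) (p.eval (size (enc a) + k a))
    (kp (true :: bits (enc a))), ?_, fun a ha => ?_⟩
  · have hin : PTime (fun a => inNames (k a)) :=
      PTime.map (g := fun (_ : α) (i : ℕ) => ((0, i) : Name)) hk.range
        ((PTime.const 0).pair PTime.snd)
    refine ptime_compile hin (ptime_blks (whole P) (len P + 1) hk.toNat hW hy hT) ?_
    refine PTime.map (g := fun (a : α) (j : ℕ) =>
      ((4 + 2 * p.eval (size (enc a) + k a), len P + 1 + 12 * j + 2) : Name)) hM.range ?_
    exact (((PTime.const 4).add ((PTime.const 2).mul hT.toNat)).comp PTime.fst).pair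
      (((PTime.const (len P + 1)).add ((PTime.const 12).mul PTime.snd)).add (PTime.const 2))
  · have key : ∀ x : List Bool, x.length = k a →
        (circ (whole P) (len P + 1) (k a) (M a) (p.eval (size (enc a) + k a))
          (kp (true :: bits (enc a)))).Valid ∧
        (circ (whole P) (len P + 1) (k a) (M a) (p.eval (size (enc a) + k a))
          (kp (true :: bits (enc a)))).n = k a ∧
        (circ (whole P) (len P + 1) (k a) (M a) (p.eval (size (enc a) + k a))
          (kp (true :: bits (enc a)))).outs.length = M a ∧
        ∀ j < M a, (circ (whole P) (len P + 1) (k a) (M a) (p.eval (size (enc a) + k a))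
          (kp (true :: bits (enc a)))).outBit x j = F a j x := by
      intro x hx
      obtain ⟨t, ht, hr⟩ := hP a x
      rw [hx] at ht
      obtain ⟨h1, h2, h3, h4⟩ := circ_spec (k := k a) (M := M a) ha hx (by simp) ht hr
      refine ⟨h1, h2, h3, fun j hj => ?_⟩
      rw [h4 j hj, List.getD_eq_getElem _ _ (by simpa using hj)]
      simp
    obtain ⟨h1, h2, h3, _⟩ := key (List.replicate (k a) false) (by simp)
    exact ⟨h1, h2, h3, fun x hx => (key x hx).2.2.2⟩

end Pool.Agent.MPa0a715.WM
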