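import Pool.Agent.Lib.MP_a0a715_lc_WM.Dec

/-!
# The decoder is computed in polynomial time
-/

namespace Pool.Agent.MPa0a715.WM.A

open Pool.Agent.MPa0a715 Pool.Agent.PolyTime

variable {α : Type} [Enc α]

theorem ptime_agr {N : α → ℕ} {u v : α → ℕ → Bool} (hN : PU N) (hu : PTime₂ u)
    (hv : PTime₂ v) : PTime (fun a => agr (N a) (u a) (v a)) := by
  refine (PTime.length (PTime.filter (g := fun (a : α) (p : ℕ) => decide (u a p = v a p))
    hN.range (PTime.eq hu hv))).of_eq fun a => ?_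
  unfold agr
  rw [card_filter_range]

theorem ptime_dist {N : α → ℕ} {u v : α → ℕ → Bool} (hN : PU N) (hu : PTime₂ u)
    (hv : PTime₂ v) : PTime (fun a => dist (N a) (u a) (v a)) := by
  refine (PTime.length (PTime.filter (g := fun (a : α) (p : ℕ) => decide (u a p ≠ v a p))
    hN.range (PTime.notP (PTime.eq hu hv)))).of_eq fun a => ?_
  unfold dist
  rw [card_filter_range]

theorem pu_bound {f : α → ℕ} (hf : PU f) : ∃ T : ℕ → ℕ, PBd T ∧ ∀ a, f a ≤ T (size (enc a)) := by
  obtain ⟨T, h1, _, h2⟩ := PTime.size_le hf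
  refine ⟨T, h1, fun a => ?_⟩
  have h3 := length_le_size (List.replicate (f a) ())
  rw [List.length_replicate] at h3
  have := h2 a
  omega

/-- a number computed in binary which is at most a number computed in unary -/
theorem pu_of_le {f g : α → ℕ} (hf : PTime f) (hg : PU g) (h : ∀ a, f a ≤ g a) : PU f := by
  have h1 : PTime (fun a => List.range (f a)) := PTime.rangeLe hf hg fun a => by
    rw [List.length_replicate]
    exact h a
  exact (PU.ofLength h1).of_eq fun a => List.length_range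

theorem pu_min {f g : α → ℕ} (hf : PTime f) (hg : PU g) : PU (fun a => min (f a) (g a)) := by
  refine pu_of_le ((PTime.iteP (PTime.le hf hg.toNat) hf hg.toNat).of_eq fun a => ?_) hg
    fun a => min_le_right _ _
  rw [Nat.min_def]

theorem ptime_pow2 {l : α → ℕ} (hl : PU l) : PTime (fun a => 2 ^ l a) := by
  have h1 : PTime (fun a => (List.replicate (l a) ()).map fun _ => false) :=
    PTime.map (g := fun (_ : α) (_ : Unit) => false) hl (PTime.const _)
  refine (PTime.natOfBits (PTime.append h1 (PTime.const [true]))).of_eq fun a => ?_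
  rw [ofBits_append]
  have h2 : ofBits ((List.replicate (l a) ()).map fun _ => false) = 0 := by
    induction l a with
    | zero => rfl
    | succ k ih =>
      rw [List.replicate_succ, List.map_cons]
      change Nat.bit false (ofBits _) = 0
      rw [ih]
      rfl
  rw [h2, List.length_map, List.length_replicate]
  simp [ofBits]

theorem pu_size {f : α → ℕ} (hf : PTime f) : PU (fun a => Nat.size (f a)) :=
  (PU.ofLength (PTime.natBits hf)).of_eq fun a => Nat.size_eq_bits_len (f a)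

theorem ptime_pv {q : α → ℕ} {x : α → List Bool} {c : α → ℕ} (hq : PU q) (h0 : ∀ a, 0 < q a)
    (hx : PTime x) (hc : PTime c) : PTime (fun a => pv (q a) (x a) (c a)) := by
  obtain ⟨T, hT, hb⟩ := pu_bound hq
  have h1 : PTime (fun a => (x a).reverse.foldl
      (fun s b => (b.toNat + c a * s) % q a) 0) := by
    refine PTime.foldl (h := fun (a : α) (s : ℕ) (b : Bool) => (b.toNat + c a * s) % q a)
      (B := fun n => 4 * T n + 1) (PTime.reverse hx) (PTime.const 0) ?_ ?_ ?_
    · exact ((PTime.boolToNat PTime.snd.snd').add ((hc.comp PTime.fst).mul PTime.snd.fst')).mod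
        (hq.toNat.comp PTime.fst)
    · exact ((PBd.const 4).mul hT).add (PBd.const 1)
    · intro a l₁ l₂ _
      refine (size_nat_le _).trans ?_
      have h2 : (l₁.foldl (fun s b => (b.toNat + c a * s) % q a) 0) ≤ q a := by
        rcases List.eq_nil_or_concat l₁ with rfl | ⟨l, b, rfl⟩
        · exact Nat.zero_le _
        · rw [List.concat_eq_append, List.foldl_append]
          exact (Nat.mod_lt _ (h0 a)).le
      have := hb a
      omega
  refine h1.of_eq fun a => ?_
  rw [List.foldl_reverse]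
  rfl

theorem ptime_pw {q k c : α → ℕ} (hq : PU q) (h0 : ∀ a, 0 < q a) (hk : PU k) (hc : PTime c) :
    PTime (fun a => pw (q a) (c a) (k a)) := by
  obtain ⟨T, hT, hb⟩ := pu_bound hq
  refine PTime.foldl (h := fun (a : α) (s : ℕ) (_ : Unit) => s * c a % q a)
    (B := fun n => 4 * T n + 1) hk ((PTime.const 1).mod hq.toNat) ?_ ?_ ?_
  · exact (PTime.snd.fst'.mul (hc.comp PTime.fst)).mod (hq.toNat.comp PTime.fst)
  · exact ((PBd.const 4).mul hT).add (PBd.const 1)
  · intro a l₁ l₂ _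
    refine (size_nat_le _).trans ?_
    have h2 : (l₁.foldl (fun s _ => s * c a % q a) (1 % q a)) ≤ q a := by
      rcases List.eq_nil_or_concat l₁ with rfl | ⟨l, b, rfl⟩
      · exact (Nat.mod_lt _ (h0 a)).le
      · rw [List.concat_eq_append, List.foldl_append]
        exact (Nat.mod_lt _ (h0 a)).le
    have := hb a
    omega

variable (T : Tools)

include T in
theorem ptime_Ew {q l : α → ℕ} {x : α → List Bool} {p : α → ℕ} (hq : PU q)
    (h0 : ∀ a, 0 < q a) (hl : PU l) (hx : PTime x) (hp : PTime p) :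
    PTime (fun a => Ew (q a) (l a) (x a) (p a)) :=
  T.had.1 _ _ _ hl (ptime_pv hq h0 hx (hp.div (ptime_pow2 hl))) (hp.mod (ptime_pow2 hl))

include T in
theorem ptime_pts {r q l : α → ℕ} {w : α → ℕ → Bool} (hr : PTime r) (hq : PU q) (hl : PU l)
    (h2 : PU fun a => 2 ^ l a) (hw : PTime₂ w) : PTime (fun a => pts (r a) (q a) (l a) (w a)) := by
  unfold pts
  refine PTime.flatMap (g := fun (a : α) (c : ℕ) => ((List.range (q a)).filter fun b =>
    decide ((r a + 1) * 2 ^ l a ≤ 2 * r a *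
      agr (2 ^ l a) (fun s => w a (c * 2 ^ l a + s)) (had (l a) b))).map fun b => (c, b))
    hq.range ?_
  refine PTime.map (g := fun (p : α × ℕ) (b : ℕ) => ((p.2, b) : ℕ × ℕ)) ?_
    (PTime.fst.snd'.pair PTime.snd)
  refine PTime.filter (g := fun (p : α × ℕ) (b : ℕ) => decide ((r p.1 + 1) * 2 ^ l p.1 ≤
    2 * r p.1 * agr (2 ^ l p.1) (fun s => w p.1 (p.2 * 2 ^ l p.1 + s)) (had (l p.1) b)))
    (hq.range.comp PTime.fst) ?_
  have e1 : PTime (fun p : (α × ℕ) × ℕ => p.1.1) := PTime.fst.fst'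
  have e2 : PTime (fun p : (α × ℕ) × ℕ => r p.1.1) := hr.comp e1
  have e3 : PU (fun p : (α × ℕ) × ℕ => 2 ^ l p.1.1) := h2.comp e1
  refine PTime.le ((e2.add (PTime.const 1)).mul e3.toNat)
    (((PTime.const 2).mul e2).mul (ptime_agr e3 ?_ ?_))
  · have f1 : PTime (fun p : ((α × ℕ) × ℕ) × ℕ => p.1.1.1) := PTime.fst.fst'.fst'
    exact hw.comp₂ f1 ((PTime.fst.fst'.snd'.mul (h2.toNat.comp f1)).add PTime.snd)
  · have f1 : PTime (fun p : ((α × ℕ) × ℕ) × ℕ => p.1.1.1) := PTime.fst.fst'.fst'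
    exact T.had.1 _ _ _ (hl.comp f1) PTime.fst.snd' PTime.snd

theorem ptime_eqn {q U B : α → ℕ} {p : α → ℕ × ℕ} (hq : PU q) (h0 : ∀ a, 0 < q a) (hU : PU U)
    (hB : PTime B) (hp : PTime p) : PTime (fun a => eqn (q a) (U a) (B a) (p a)) := by
  unfold eqn
  refine PTime.map (g := fun (a : α) (t : ℕ) =>
    pw (q a) (p a).1 (min (t / B a) (U a)) * pw (q a) (p a).2 (min (t % B a) (U a)) % q a)
    hU.range ?_
  have e1 : PTime (fun p : α × ℕ => p.2 / B p.1) := PTime.snd.div (hB.comp PTime.fst)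
  have e2 : PTime (fun p : α × ℕ => p.2 % B p.1) := PTime.snd.mod (hB.comp PTime.fst)
  have e3 : PU (fun p : α × ℕ => U p.1) := hU.comp PTime.fst
  have e4 : PU (fun r : α × ℕ => q r.1) := hq.comp PTime.fst
  have e5 : PTime (fun r : α × ℕ => p r.1) := hp.comp PTime.fst
  exact ((ptime_pw e4 (fun r => h0 r.1) (pu_min e1 e3) e5.fst').mul
    (ptime_pw e4 (fun r => h0 r.1) (pu_min e2 e3) e5.snd')).mod e4.toNat

theorem ptime_decl {v q l n r : α → ℕ} {w : α → ℕ → Bool} (hv : PU v) (hq : PU q)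
    (h0 : ∀ a, 0 < q a) (hl : PU l) (h2 : PU fun a => 2 ^ l a) (hn : PU n) (hw : PTime₂ w)
    (hr : PU r) : PTime (fun a => decl T (v a) (q a) (l a) (n a) (w a) (r a)) := by
  have hA : PU (fun a => r a * q a / (2 * v a)) :=
    pu_of_le ((hr.toNat.mul hq.toNat).div ((PTime.const 2).mul hv.toNat)) (hr.mul hq)
      fun a => Nat.div_le_self _ _
  have hB : PU (fun a => 4 * r a * v a + 1) := (((PU.const 4).mul hr).mul hv).add (PU.const 1)
  have hAB : PU (fun a => r a * q a / (2 * v a) * (4 * r a * v a + 1)) := hA.mul hB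
  exact T.ptRoots q _ _ n _ hq hA hB (T.ptKer q _ _ hq.toNat hAB
    (PTime.map (g := fun (a : α) (p : ℕ × ℕ) =>
        eqn (q a) (r a * q a / (2 * v a) * (4 * r a * v a + 1)) (4 * r a * v a + 1) p)
      (ptime_pts T hr.toNat hq hl h2 hw) (ptime_eqn (hq.comp PTime.fst) (fun p => h0 p.1)
        (hAB.comp PTime.fst) (hB.toNat.comp PTime.fst) PTime.snd))) hn

theorem ptime_dec {v q l H n : α → ℕ} {w : α → ℕ → Bool} (hv : PU v) (hq : PU q)
    (h0 : ∀ a, 0 < q a) (hl : PU l) (h2 : PU fun a => 2 ^ l a) (hH : PU H)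
    (h2H : PU fun a => 2 ^ H a) (hn : PU n) (hw : PTime₂ w) :
    PTime (fun a => dec T (v a) (q a) (l a) (H a) (n a) (w a)) := by
  refine PTime.flatMap (g := fun (a : α) (h : ℕ) =>
    decl T (v a) (q a) (l a) (n a) (w a) (2 ^ min h (H a))) (hH.add (PU.const 1)).range ?_
  have f1 : PTime (fun p : α × ℕ => p.1) := PTime.fst
  have f2 : PU (fun p : α × ℕ => min p.2 (H p.1)) := pu_min PTime.snd (hH.comp f1)
  have f3 : PU (fun p : α × ℕ => 2 ^ min p.2 (H p.1)) :=
    pu_of_le (ptime_pow2 f2) (h2H.comp f1) fun p =>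
      Nat.pow_le_pow_right (by omega) (min_le_right _ _)
  refine ptime_decl T (w := fun (p : α × ℕ) => w p.1) (hv.comp f1) (hq.comp f1)
    (fun p => h0 p.1) (hl.comp f1) (h2.comp f1) (hn.comp f1) ?_ f3
  exact hw.comp₂ PTime.fst.fst' PTime.snd

end Pool.Agent.MPa0a715.WM.A
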