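import Pool.Agent.Lib.MP_a0a715_lc_WM.Red
import Pool.Agent.Lib.MP_a0a715_lc_WM.DecPT

/-!
# The cost function of the reduction is computed in polynomial time
-/

namespace Pool.Agent.MPa0a715.WM.A

open Pool.Agent.MPa0a715 Pool.Agent.PolyTime
open Pool.Agent.MPa0a715.IN (step ptime_step)

variable {α : Type} [Enc α] (T : Tools) (c : ℕ)

theorem pu_pow {f : α → ℕ} (hf : PU f) (k : ℕ) : PU (fun a => f a ^ k) := by
  induction k with
  | zero => exact (PU.const 1).of_eq fun a => (pow_zero _).symm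
  | succ k ih => exact (ih.mul hf).of_eq fun a => (pow_succ _ _).symm

section
variable {n : α → ℕ} (hn : PU n)
include hn

theorem pu_RR : PU (fun a => RR c (n a)) :=
  pu_pow ((hn.add (PU.const c)).add (PU.const 2)) (c + 1)

theorem pu_HH : PU (fun a => HH c (n a)) :=
  pu_size ((PTime.const 4).mul (pu_RR c hn).toNat)

theorem pu_pow_HH : PU (fun a => 2 ^ HH c (n a)) :=
  pu_of_le (ptime_pow2 (pu_HH c hn)) ((PU.const 8).mul (pu_RR c hn)) fun a => pow_HH_le c (n a)

theorem pu_vv : PU (fun a => vv c (n a)) :=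
  ((PU.const 8).mul (pu_RR c hn)).mul ((pu_HH c hn).add (PU.const 1))

theorem pu_qq : PU (fun a => qq T c (n a)) :=
  T.ptPr _ (((PU.const 8).mul (hn.add (PU.const 1))).mul (pu_pow (pu_vv c hn) 2))

theorem pu_ll : PU (fun a => ll T c (n a)) := pu_size (pu_qq T c hn).toNat

theorem pu_pow_ll : PU (fun a => 2 ^ ll T c (n a)) :=
  pu_of_le (ptime_pow2 (pu_ll T c hn)) ((PU.const 2).mul (pu_qq T c hn))
    fun a => pow_ll_le T c (n a)

theorem pu_NN : PU (fun a => NN T c (n a)) := (pu_qq T c hn).mul (pu_pow_ll T c hn)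

theorem ptime_nbrs {y : α → List Bool} (hy : PTime y) : PTime (fun a => nbrs (n a) (y a)) :=
  hy.cons (PTime.map (g := fun (a : α) (i : ℕ) => flip (y a) i) hn.range
    (ptime_flip (hy.comp PTime.fst) PTime.snd))

theorem ptime_cands {z : α → ℕ → Bool} (hz : PTime₂ z) :
    PTime (fun a => cands T c (n a) (z a)) := by
  unfold cands
  refine PTime.filter (g := fun (a : α) (x : List Bool) => decide (x.length = n a)) ?_
    (PTime.eq PTime.snd.length (hn.toNat.comp PTime.fst))
  exact PTime.flatMap (g := fun (a : α) (y : List Bool) => nbrs (n a) y)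
    (ptime_dec T (pu_vv c hn) (pu_qq T c hn) (fun a => qq_pos T c _) (pu_ll T c hn)
      (pu_pow_ll T c hn) (pu_HH c hn) (pu_pow_HH c hn) hn hz)
    (ptime_nbrs (hn.comp PTime.fst) PTime.snd)

end

section
variable {C : α → Circuit} (hC : PTime C)
include hC

theorem ptime_mw {x : α → List Bool} {i p : α → ℕ} (hx : PTime x) (hi : PTime i)
    (hp : PTime p) : PTime (fun a => mw T c (C a) (x a) (i a) (p a)) := by
  have hn := pu_n hC
  have hb := (pu_pow_ll T c hn).toNat
  have h0 : ∀ a, 0 < qq T c (C a).n := fun a => qq_pos T c _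
  exact PTime.iteP (PTime.lt (hp.div hb) hi)
    (ptime_Ew T (pu_qq T c hn) h0 (pu_ll T c hn) (ptime_step hC hx) hp)
    (ptime_Ew T (pu_qq T c hn) h0 (pu_ll T c hn) hx hp)

theorem ptime_ky {x : α → List Bool} {i : α → ℕ} (hx : PTime x) (hi : PTime i) :
    PTime (fun a => ky T c (C a) (x a) (i a)) := by
  have hR := (pu_qq T c (pu_n hC)).toNat
  have hv : PTime (fun a => val ((C a).out (x a))) :=
    (PTime.natOfBits (ptime_out hC hx)).of_eq fun p => (val_eq_ofBits _).symm
  exact (hR.mul hv).add (hR.sub hi)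

theorem ptime_vals {z : α → ℕ → Bool} (hz : PTime₂ z) :
    PTime (fun a => vals T c (C a) (z a)) := by
  have hn := pu_n hC
  have hR := pu_RR c hn
  have hN := pu_NN T c hn
  unfold vals
  refine PTime.flatMap (g := fun (a : α) (x : List Bool) =>
    ((List.range (qq T c (C a).n)).filter fun i =>
      decide ((RR c (C a).n + 1) * NN T c (C a).n ≤ 2 * RR c (C a).n *
        agr (NN T c (C a).n) (z a) (mw T c (C a) x i))).map fun i =>
      ky T c (C a) x i * (NN T c (C a).n + 1) +
        dist (NN T c (C a).n) (z a) (mw T c (C a) x (i + 1)))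
    (ptime_cands T c hn hz) ?_
  refine PTime.map (g := fun (p : α × List Bool) (i : ℕ) => ky T c (C p.1) p.2 i *
    (NN T c (C p.1).n + 1) + dist (NN T c (C p.1).n) (z p.1) (mw T c (C p.1) p.2 (i + 1))) ?_ ?_
  · refine PTime.filter (g := fun (p : α × List Bool) (i : ℕ) =>
      decide ((RR c (C p.1).n + 1) * NN T c (C p.1).n ≤ 2 * RR c (C p.1).n *
        agr (NN T c (C p.1).n) (z p.1) (mw T c (C p.1) p.2 i)))
          ((pu_qq T c hn).range.comp PTime.fst) ?_
    have e1 : PTime (fun p : (α × List Bool) × ℕ => p.1.1) := PTime.fst.fst'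
    have f1 : PTime (fun p : ((α × List Bool) × ℕ) × ℕ => p.1.1.1) := PTime.fst.fst'.fst'
    refine PTime.le (((hR.toNat.comp e1).add (PTime.const 1)).mul (hN.toNat.comp e1))
      (((PTime.const 2).mul (hR.toNat.comp e1)).mul (ptime_agr (hN.comp e1) ?_ ?_))
    · exact hz.comp₂ f1 PTime.snd
    · exact ptime_mw T c (hC.comp f1) PTime.fst.fst'.snd' PTime.fst.snd' PTime.snd
  · have e1 : PTime (fun p : (α × List Bool) × ℕ => p.1.1) := PTime.fst.fst'
    have f1 : PTime (fun p : ((α × List Bool) × ℕ) × ℕ => p.1.1.1) := PTime.fst.fst'.fst'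
    refine ((ptime_ky T c (hC.comp e1) PTime.fst.snd' PTime.snd).mul
      ((hN.toNat.comp e1).add (PTime.const 1))).add (ptime_dist (hN.comp e1) ?_ ?_)
    · exact hz.comp₂ f1 PTime.snd
    · exact ptime_mw T c (hC.comp f1) PTime.fst.fst'.snd' (PTime.fst.snd'.add (PTime.const 1))
        PTime.snd

omit hC in
theorem ptime_foldmin {l : α → List ℕ} {b : α → ℕ} (hl : PTime l) (hb : PTime b) :
    PTime (fun a => (l a).foldl min (b a)) := by
  obtain ⟨F, hF, _, hF'⟩ := hl.size_le
  obtain ⟨G, hG, _, hG'⟩ := hb.size_le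
  refine PTime.foldl (h := fun (_ : α) (s c : ℕ) => min s c) hl hb
    (B := fun n => F n + G n) ?_ (hF.add hG) ?_
  · refine (PTime.iteP (PTime.le PTime.snd.fst' PTime.snd.snd') PTime.snd.fst'
      PTime.snd.snd').of_eq fun p => ?_
    rw [Nat.min_def]
  · intro a l₁ l₂ h
    have h1 := hF' a
    have h2 := hG' a
    rcases foldl_min_cases l₁ (b a) with h3 | h3
    · change size (enc (l₁.foldl min (b a))) ≤ _
      rw [h3]
      omega
    · have h4 : l₁.foldl min (b a) ∈ l a := by
        rw [h]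
        exact List.mem_append_left _ h3
      have h5 := size_le_of_mem h4
      change size (enc (l₁.foldl min (b a))) ≤ _
      omega

theorem ptime_big : PTime (fun a => big T c (C a)) := by
  have hn := pu_n hC
  exact (((pu_qq T c hn).toNat.mul (ptime_pow2 (PU.ofLength (ptime_outs hC)))).add
    (PTime.const 1)).mul ((pu_NN T c hn).toNat.add (PTime.const 1))

theorem ptime_cst {z : α → ℕ → Bool} (hz : PTime₂ z) :
    PTime (fun a => cst T c (C a) (z a)) :=
  ptime_foldmin (ptime_vals T c hC hz) ((ptime_big T c hC).add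
    (ptime_dist (pu_NN T c (pu_n hC)) hz (PTime.const false)))

end

end Pool.Agent.MPa0a715.WM.A
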