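import Pool.Agent.Lib.MP_a0a715_lc_NB.Defs

/-!
# Weak local minima and randomized solvers
-/

namespace Pool.Agent.MPa0a715

open Pool.Agent.PolyTime

/-- `x` is an input of the circuit and at most `θ` single bit flips give a smaller cost (no flip,
if `θ` is negative). -/
def Circuit.FewBetter (C : Circuit) (θ : ℝ) (x : List Bool) : Prop :=
  x.length = C.n ∧ ((C.better x).card : ℝ) ≤ max 0 θ

/-- There is a randomized polynomial-time algorithm for the search problem in which the solutions
for the circuit `C` are the words `x` with `P C x`: the output `f (C, ρ)` is a solution for at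
least half of the words `ρ` of length `(t C).length`, where `C` is any valid circuit. -/
def HasRandomSolver (P : Circuit → List Bool → Prop) : Prop :=
  ∃ (t : Circuit → List Unit) (f : Circuit × List Bool → List Bool),
    IsPolyTime enc enc t ∧ IsPolyTime enc enc f ∧ ∀ C : Circuit, C.Valid →
      2 ^ (t C).length ≤
        2 * {ρ : Fin (t C).length → Bool | P C (f (C, List.ofFn ρ))}.ncard

end Pool.Agent.MPa0a715
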