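import Pool.Agent.Lib.MP_a0a715_lc_WM.RedPT
import Pool.Agent.Lib.MP_a0a715_lc_WM.Weak

/-!
# Weak local minima: the reduction
-/

namespace Pool.Agent.MPa0a715.WM.A

open Pool.Agent.MPa0a715 Pool.Agent.PolyTime
open Pool.Agent.MPa0a715.IN (fl step step_cases fn fn_flip ptime_step)

/-- the lowest bits determine the remainder -/
theorem val_eq_mod (l : List Bool) (c : ℕ) (h : ∀ j < l.length, l.getD j false = c.testBit j) :
    val l = c % 2 ^ l.length := by
  induction l generalizing c with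
  | nil => simp [val, Nat.mod_one]
  | cons b l ih =>
    have h1 := ih (c / 2) fun j hj => by
      have h2 := h (j + 1) (by rw [List.length_cons]; omega)
      rw [List.getD_cons_succ] at h2
      rw [h2, Nat.testBit_succ]
    have h2 := h 0 (by simp)
    rw [List.getD_cons_zero] at h2
    rw [val, h1, h2, List.length_cons, Nat.testBit_zero, pow_succ', Nat.mod_mul]
    congr 1
    rcases Nat.mod_two_eq_zero_or_one c with h | h <;> simp [h]

/-- the cost of a circuit whose outputs are the digits of a number -/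
theorem cost_of_bits {G : Circuit} {x : List Bool} {c : ℕ}
    (h : ∀ j < G.outs.length, G.outBit x j = c.testBit j) (hc : c < 2 ^ G.outs.length) :
    G.cost x = 2 * c := by
  rw [Circuit.cost_eq, val_eq_mod (G.out x) c, show (G.out x).length = G.outs.length by
    unfold Circuit.out; rw [List.length_map], Nat.mod_eq_of_lt hc]
  intro j hj
  have hj' : j < G.outs.length := by
    unfold Circuit.out at hj
    rwa [List.length_map] at hj
  rw [← h j hj']
  unfold Circuit.out Circuit.outBit Circuit.env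
  rw [List.getD_eq_getElem _ _ (by rw [List.length_map]; exact hj'), List.getElem_map,
    List.getD_eq_getElem G.outs _ hj']

variable (T : Tools) (c : ℕ)

/-- the digits of the cost -/
def bitF (C : Circuit) (j : ℕ) (x : List Bool) : Bool := (cst T c C (fn x)).testBit j

/-- the number of digits -/
def digs (C : Circuit) : ℕ := qq T c C.n + C.outs.length + 1 + NN T c C.n

/-- the first local minimum of the list -/
def pick (C : Circuit) (L : List (List Bool)) : List Bool :=
  match L.find? fun y => decide (step C y = y) with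
  | none => []
  | some y => y

/-- the decoder -/
def decode (C : Circuit) (x : List Bool) : List Bool := pick C (cands T c C.n (fn x))

theorem cst_lt_pow (C : Circuit) (z : ℕ → Bool) : cst T c C z < 2 ^ digs T c C := by
  refine (cst_lt z).trans_le ?_
  unfold digs
  rw [pow_add]
  refine Nat.mul_le_mul ?_ ?_
  · have h1 : qq T c C.n < 2 ^ qq T c C.n := Nat.lt_two_pow_self
    have h2 : 1 ≤ 2 ^ C.outs.length := Nat.one_le_two_pow
    have h3 : qq T c C.n * 2 ^ C.outs.length ≤ 2 ^ qq T c C.n * 2 ^ C.outs.length :=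
      Nat.mul_le_mul_right _ h1.le
    have h4 : 2 * 1 ≤ 2 ^ qq T c C.n * 2 ^ C.outs.length := by
      refine Nat.mul_le_mul ?_ h2
      have h5 := qq_pos T c C.n
      omega
    rw [pow_succ, pow_add]
    omega
  · have h1 : NN T c C.n < 2 ^ NN T c C.n := Nat.lt_two_pow_self
    omega

theorem pick_min {C : Circuit} {L : List (List Bool)} (hL : ∀ y ∈ L, y.length = C.n)
    (h : ∃ y ∈ L, step C y = y) : C.IsLocalMin (pick C L) := by
  unfold pick
  cases hf : L.find? fun y => decide (step C y = y) with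
  | none =>
    exfalso
    obtain ⟨y, h1, h2⟩ := h
    rw [List.find?_eq_none] at hf
    have h3 := hf y h1
    rw [decide_eq_true_eq] at h3
    exact h3 h2
  | some y =>
    have h1 := List.find?_some hf
    have h2 := List.mem_of_find?_eq_some hf
    rw [decide_eq_true_eq] at h1
    refine ⟨hL y h2, ?_⟩
    rcases step_cases C y with ⟨_, h3⟩ | ⟨i, hi, h3, h4⟩
    · exact h3
    · rw [← h3, h1] at h4
      exact absurd h4 (lt_irrefl _)

/-! ### polynomial time -/

theorem testBit_eq (n i : ℕ) : n.testBit i = n.bits.getD i false := by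
  rw [Nat.testBit_eq_inth]
  rfl

theorem ptime_bitF :
    PTime (fun p : Circuit × (ℕ × List Bool) => bitF T c p.1 p.2.1 p.2.2) := by
  have h1 : PTime (fun p : Circuit × (ℕ × List Bool) => cst T c p.1 (fn p.2.2)) := by
    refine ptime_cst T c PTime.fst (z := fun p : Circuit × (ℕ × List Bool) => fn p.2.2) ?_
    exact PTime.listGetD PTime.fst.snd'.snd' PTime.snd (PTime.const false)
  refine (PTime.listGetD (PTime.natBits h1) PTime.snd.fst' (PTime.const false)).of_eq
    fun p => ?_
  unfold bitF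
  rw [testBit_eq]

theorem pu_digs : PU (digs T c) :=
  (((pu_qq T c (pu_n PTime.id)).add (PU.ofLength (ptime_outs PTime.id))).add (PU.const 1)).add
    (pu_NN T c (pu_n PTime.id))

theorem ptime_pick {α : Type} [Enc α] {C : α → Circuit} {L : α → List (List Bool)}
    (hC : PTime C) (hL : PTime L) : PTime (fun a => pick (C a) (L a)) := by
  have h2 : PTime₂ (fun (a : α) (y : List Bool) => decide (step (C a) y = y)) :=
    PTime.eq (ptime_step (hC.comp PTime.fst) PTime.snd) PTime.snd
  refine (PTime.option_cases (PTime.find? hL h2) (PTime.const ([] : List Bool))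
    PTime.snd).of_eq fun a => ?_
  unfold pick
  cases (L a).find? fun y => decide (step (C a) y = y) <;> rfl

theorem ptime_decode : PTime (fun p : Circuit × List Bool => decode T c p.1 p.2) :=
  ptime_pick PTime.fst (ptime_cands T c (pu_n PTime.fst)
    (z := fun p : Circuit × List Bool => fn p.2)
    (PTime.listGetD PTime.fst.snd' PTime.snd (PTime.const false)))

/-! ### the inequality -/

theorem arith {m Y h k : ℕ} (hm : 2 ≤ m) (h1 : h ≤ 2 * m ^ 2) (h2 : k ≤ m) :
    2 ^ 21 * k ^ 2 * h ^ 4 * Y ≤ m ^ 35 * Y := by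
  refine Nat.mul_le_mul_right _ ?_
  have h3 : h ^ 4 ≤ (2 * m ^ 2) ^ 4 := Nat.pow_le_pow_left h1 4
  have h4 : k ^ 2 ≤ m ^ 2 := Nat.pow_le_pow_left h2 2
  have h5 : 2 ^ 25 ≤ m ^ 25 := Nat.pow_le_pow_left hm 25
  have h6 : (2 * m ^ 2) ^ 4 = 2 ^ 4 * m ^ 8 := by ring
  have h7 : m ^ 35 = m ^ 25 * (m ^ 2 * m ^ 8) := by ring
  rw [h6] at h3
  have h8 : 2 ^ 21 * k ^ 2 * h ^ 4 ≤ 2 ^ 21 * m ^ 2 * (2 ^ 4 * m ^ 8) :=
    Nat.mul_le_mul (Nat.mul_le_mul_left _ h4) h3
  have h9 : 2 ^ 21 * m ^ 2 * (2 ^ 4 * m ^ 8) = 2 ^ 25 * (m ^ 2 * m ^ 8) := by ring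
  rw [h7]
  rw [h9] at h8
  exact h8.trans (Nat.mul_le_mul_right _ h5)

theorem HH_le (n : ℕ) : HH c n + 1 ≤ 2 * (n + c + 2) ^ 2 := by
  set m := n + c + 2 with hm
  have h2 : 4 * RR c n < 2 ^ (3 + m * (c + 1)) := by
    have h3 : m ^ (c + 1) ≤ 2 ^ (m * (c + 1)) := by
      rw [pow_mul]
      exact Nat.pow_le_pow_left Nat.lt_two_pow_self.le _
    have h4 : 0 < 2 ^ (m * (c + 1)) := Nat.pos_of_ne_zero (by positivity)
    have h5 : 2 ^ (3 + m * (c + 1)) = 8 * 2 ^ (m * (c + 1)) := by
      rw [pow_add]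
      norm_num
    have h6 : RR c n = m ^ (c + 1) := rfl
    rw [h5, h6]
    omega
  have h3 : HH c n ≤ 3 + m * (c + 1) := Nat.size_le.2 h2
  have h4 : m * (c + 1) + m ≤ m * m := by
    calc m * (c + 1) + m = m * (c + 2) := by ring
      _ ≤ m * m := Nat.mul_le_mul_left _ (by omega)
  have h5 : m * 2 ≤ m * m := Nat.mul_le_mul_left _ (by omega)
  have h6 : m ^ 2 = m * m := by ring
  rw [h6]
  omega

theorem NN_le_pow (n : ℕ) : NN T c n ≤ (n + c + 2) ^ (35 + 4 * (c + 1)) := by
  have h1 := NN_le T c n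
  have h2 := arith (Y := RR c n ^ 4) (k := n + 1) (show 2 ≤ n + c + 2 by omega) (HH_le c n)
    (by omega)
  have h3 : (n + c + 2) ^ (35 + 4 * (c + 1)) = (n + c + 2) ^ 35 * RR c n ^ 4 := by
    unfold RR
    rw [pow_add, ← pow_mul, Nat.mul_comm 4 (c + 1)]
  rw [h3]
  exact h1.trans h2

theorem rpow_bound {β : ℝ} (hβ : 3 / 4 < β) (hc : 9 / (4 * β - 3) ≤ c) (n : ℕ) :
    (NN T c n : ℝ) ^ (1 - β) ≤ RR c n := by
  have hN : (1 : ℝ) ≤ NN T c n := by exact_mod_cast NN_pos T c n
  have hR : (1 : ℝ) ≤ RR c n := by exact_mod_cast RR_pos c n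
  rcases le_or_gt 1 β with h | h
  · exact (Real.rpow_le_one_of_one_le_of_nonpos hN (by linarith)).trans hR
  · set m := n + c + 2 with hm
    have hm1 : (1 : ℝ) ≤ m := by exact_mod_cast (show 1 ≤ m by omega)
    have h1 : (NN T c n : ℝ) ≤ (m : ℝ) ^ ((35 : ℝ) + 4 * (c + 1)) := by
      have h2 : (NN T c n : ℝ) ≤ (m : ℝ) ^ (35 + 4 * (c + 1)) := by
        exact_mod_cast NN_le_pow T c n
      rw [← Real.rpow_natCast] at h2
      push_cast at h2
      exact h2
    have h2 : (NN T c n : ℝ) ^ (1 - β) ≤ ((m : ℝ) ^ ((35 : ℝ) + 4 * (c + 1))) ^ (1 - β) :=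
      Real.rpow_le_rpow (by linarith) h1 (by linarith)
    refine h2.trans ?_
    rw [← Real.rpow_mul (by linarith)]
    have h3 : (RR c n : ℝ) = (m : ℝ) ^ ((c : ℝ) + 1) := by
      unfold RR
      rw [← hm]
      have : ((c : ℝ) + 1) = ((c + 1 : ℕ) : ℝ) := by push_cast; rfl
      rw [this, Real.rpow_natCast]
      push_cast
      rfl
    rw [h3]
    refine Real.rpow_le_rpow_of_exponent_le hm1 ?_
    have h4 : 0 < 4 * β - 3 := by linarith
    have h5 : 9 ≤ c * (4 * β - 3) := by
      rwa [div_le_iff₀ h4] at hc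
    nlinarith

theorem real_bound {β : ℝ} (hβ : 3 / 4 < β) (hc : 9 / (4 * β - 3) ≤ c) (n j : ℕ)
    (h : (j : ℝ) ≤ max 0 ((NN T c n : ℝ) / 2 - (NN T c n : ℝ) ^ β)) :
    2 * RR c n * (j + 2 ^ ll T c n) + NN T c n ≤ RR c n * NN T c n := by
  have hb := rpow_bound T c hβ hc n
  have hq := qq_ge T c n
  have hN0 := NN_pos T c n
  have hRn := RR_ge c n
  have hstep : 2 * RR c n * 2 ^ ll T c n ≤ NN T c n := Nat.mul_le_mul_right _ hq
  set N := NN T c n with hN
  set R := RR c n with hR
  set d := 2 ^ ll T c n with hd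
  have hNpos : (0 : ℝ) < N := by exact_mod_cast hN0
  have hR2 : (2 : ℝ) ≤ R := by exact_mod_cast (show 2 ≤ R by omega)
  have hstep' : 2 * (R : ℝ) * d ≤ N := by exact_mod_cast hstep
  have key : (2 * R * (j + d) + N : ℝ) ≤ R * N := by
    rcases le_max_iff.1 h with h | h
    · have h1 : (j : ℝ) = 0 := le_antisymm h (Nat.cast_nonneg j)
      rw [h1]
      nlinarith
    · have h1 : (N : ℝ) ≤ R * (N : ℝ) ^ β := by
        have h2 : (N : ℝ) = (N : ℝ) ^ (1 - β) * (N : ℝ) ^ β := by
          rw [← Real.rpow_add hNpos]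
          norm_num
        calc (N : ℝ) = (N : ℝ) ^ (1 - β) * (N : ℝ) ^ β := h2
          _ ≤ _ := mul_le_mul_of_nonneg_right hb (by positivity)
      have h2 : 2 * (R : ℝ) * j ≤ 2 * R * ((N : ℝ) / 2 - (N : ℝ) ^ β) :=
        mul_le_mul_of_nonneg_left h (by positivity)
      nlinarith
  exact_mod_cast key

include T in
/-- Circuit-FLIP reduces to finding weak local minima. -/
theorem hard (hcirc : CircStmt) {β : ℝ} (hβ : 3 / 4 < β) :
    ∃ (g : Circuit → Circuit) (h : Circuit × List Bool → List Bool),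
      IsPolyTime enc enc g ∧ IsPolyTime enc enc h ∧
      ∀ C : Circuit, C.Valid → (g C).Valid ∧
        ∀ z, (g C).FewBetter ((g C).n / 2 - ((g C).n : ℝ) ^ β) z → C.IsLocalMin (h (C, z)) := by
  obtain ⟨c, hc⟩ := exists_nat_ge (9 / (4 * β - 3))
  obtain ⟨G, hG, hG'⟩ := hcirc (bitF T c) (fun C => NN T c C.n) (digs T c) (ptime_bitF T c)
    (pu_NN T c (pu_n PTime.id)) (pu_digs T c)
  refine ⟨G, fun p => decode T c p.1 p.2, hG.isPolyTime, (ptime_decode T c).isPolyTime,
    fun C _ => ?_⟩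
  obtain ⟨h1, h2, h3, h4⟩ := hG' C (NN_pos T c C.n)
  refine ⟨h1, fun x hx => ?_⟩
  obtain ⟨hx, hw⟩ := hx
  rw [h2] at hx hw
  have hcost : ∀ y : List Bool, y.length = NN T c C.n → (G C).cost y = 2 * cst T c C (fn y) := by
    intro y hy
    refine cost_of_bits (fun j hj => ?_) ?_
    · rw [h3] at hj
      exact h4 y hy j hj
    · rw [h3]
      exact cst_lt_pow T c C _
  have hbetter : (G C).better x = (Finset.range (NN T c C.n)).filter fun p =>
      cst T c C (fl (fn x) p) < cst T c C (fn x) := by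
    unfold Circuit.better
    rw [h2]
    refine Finset.filter_congr fun p hp => ?_
    rw [Finset.mem_range] at hp
    rw [hcost _ ((length_flip x p).trans hx), hcost _ hx, fn_flip (by rw [hx]; exact hp)]
    omega
  rw [hbetter] at hw
  exact pick_min (fun y => length_cands) (weak_local (real_bound T c hβ hc C.n _ hw))

end Pool.Agent.MPa0a715.WM.A
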