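import Pool.Agent.Lib.MP_a0a715_lc_WM.Defs

/-!
# Statements of the modules (to be proved in the files Circ, Lin, Roots, Had, Prime)
-/

namespace Pool.Agent.MPa0a715.WM

open Pool.Agent.MPa0a715 Pool.Agent.PolyTime

/-- Module CIRC: polynomial-time functions have circuits computable in polynomial time. -/
def CircStmt : Prop :=
  ∀ {α : Type} [Enc α] (F : α → ℕ → List Bool → Bool) (k M : α → ℕ),
    PTime (fun p : α × (ℕ × List Bool) => F p.1 p.2.1 p.2.2) → PU k → PU M →
    ∃ G : α → Circuit, PTime G ∧ ∀ a, 0 < k a →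
      (G a).Valid ∧ (G a).n = k a ∧ (G a).outs.length = M a ∧
      ∀ x : List Bool, x.length = k a → ∀ j < M a, (G a).outBit x j = F a j x

/-- Module LIN: nonzero solutions of homogeneous linear systems with few equations. -/
def LinStmt : Prop :=
  ∃ ker : ℕ → ℕ → List (List ℕ) → List ℕ,
    (∀ {α : Type} [Enc α] (q U : α → ℕ) (E : α → List (List ℕ)), PTime q → PU U → PTime E →
      PTime (fun a => ker (q a) (U a) (E a))) ∧
    ∀ (q U : ℕ) (E : List (List ℕ)), q.Prime → E.length < U →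
      (∃ i < U, (ker q U E).getD i 0 % q ≠ 0) ∧
      ∀ e ∈ E, (∑ i ∈ Finset.range U, e.getD i 0 * (ker q U E).getD i 0) % q = 0

/-- Module ROOTS: all polynomials with bits as coefficients which are roots of a bivariate
polynomial. -/
def RootsStmt : Prop :=
  ∃ roots : ℕ → ℕ → ℕ → List ℕ → ℕ → List (List Bool),
    (∀ {α : Type} [Enc α] (q U B n : α → ℕ) (c : α → List ℕ), PU q → PU U → PU B → PTime c →
      PU n → PTime (fun a => roots (q a) (U a) (B a) (c a) (n a))) ∧
    ∀ (q U B n : ℕ) (c : List ℕ), q.Prime → (∃ i < U * B, c.getD i 0 % q ≠ 0) →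
      ∀ x : List Bool, x.length = n → evalY q U B c (pol q x) = 0 → x ∈ roots q U B c n

/-- Module HAD: few symbols have a word close to the given one. -/
def HadStmt : Prop :=
  (∀ {α : Type} [Enc α] (l b s : α → ℕ), PU l → PTime b → PTime s →
    PTime (fun a => had (l a) (b a) (s a))) ∧
  ∀ (l r : ℕ) (w : ℕ → Bool), 0 < r →
    ((Finset.range (2 ^ l)).filter fun b =>
      (r + 1) * 2 ^ l ≤ 2 * r * agr (2 ^ l) w (had l b)).card ≤ r ^ 2

/-- Module PRIME: a prime number between `m` and `2 m`. -/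
def PrimeStmt : Prop :=
  ∃ pr : ℕ → ℕ, (∀ {α : Type} [Enc α] (m : α → ℕ), PU m → PU (fun a => pr (m a))) ∧
    ∀ m, 0 < m → (pr m).Prime ∧ m < pr m ∧ pr m ≤ 2 * m

end Pool.Agent.MPa0a715.WM
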