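import Pool.Agent.Lib.MP_a0a715_lc_WM.Pot
import Pool.Agent.Lib.MP_a0a715_lc_WM.Stmts

/-!
# The decoder for one group
-/

namespace Pool.Agent.MPa0a715.WM.A

open Pool.Agent.MPa0a715 Pool.Agent.PolyTime

/-- linear systems, roots and prime numbers -/
structure Tools where
  ker : ℕ → ℕ → List (List ℕ) → List ℕ
  roots : ℕ → ℕ → ℕ → List ℕ → ℕ → List (List Bool)
  pr : ℕ → ℕ
  had : HadStmt
  ptKer : ∀ {α : Type} [Enc α] (q U : α → ℕ) (E : α → List (List ℕ)), PTime q → PU U → PTime E →
    PTime (fun a => ker (q a) (U a) (E a))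
  ker_spec : ∀ (q U : ℕ) (E : List (List ℕ)), q.Prime → E.length < U →
    (∃ i < U, (ker q U E).getD i 0 % q ≠ 0) ∧
    ∀ e ∈ E, (∑ i ∈ Finset.range U, e.getD i 0 * (ker q U E).getD i 0) % q = 0
  ptRoots : ∀ {α : Type} [Enc α] (q U B n : α → ℕ) (c : α → List ℕ), PU q → PU U → PU B →
    PTime c → PU n → PTime (fun a => roots (q a) (U a) (B a) (c a) (n a))
  roots_spec : ∀ (q U B n : ℕ) (c : List ℕ), q.Prime → (∃ i < U * B, c.getD i 0 % q ≠ 0) →
    ∀ x : List Bool, x.length = n → evalY q U B c (pol q x) = 0 → x ∈ roots q U B c n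
  ptPr : ∀ {α : Type} [Enc α] (m : α → ℕ), PU m → PU (fun a => pr (m a))
  pr_spec : ∀ m, 0 < m → (pr m).Prime ∧ m < pr m ∧ pr m ≤ 2 * m

theorem Tools.exists (h1 : LinStmt) (h2 : RootsStmt) (h3 : HadStmt) (h4 : PrimeStmt) :
    Nonempty Tools := by
  obtain ⟨ker, a1, a2⟩ := h1
  obtain ⟨roots, b1, b2⟩ := h2
  obtain ⟨pr, c1, c2⟩ := h4
  exact ⟨⟨ker, roots, pr, h3, a1, a2, b1, b2, c1, c2⟩⟩

/-! ### blocks -/

theorem sum_blocks (K N : ℕ) (f : ℕ → ℕ) :
    ∑ p ∈ Finset.range (K * N), f p =
      ∑ g ∈ Finset.range K, ∑ p ∈ Finset.range N, f (g * N + p) := by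
  induction K with
  | zero => simp
  | succ K ih => rw [Nat.add_mul, Nat.one_mul, Finset.sum_range_add, ih, Finset.sum_range_succ]

theorem agr_blocks (K N : ℕ) (u v : ℕ → Bool) :
    agr (K * N) u v =
      ∑ g ∈ Finset.range K, agr N (fun p => u (g * N + p)) (fun p => v (g * N + p)) := by
  unfold agr
  rw [Finset.card_filter, sum_blocks]
  refine Finset.sum_congr rfl fun g _ => ?_
  rw [Finset.card_filter]

/-! ### the code -/

/-- value at `a` of the polynomial with the given bits as coefficients -/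
def pv (q : ℕ) (x : List Bool) (a : ℕ) : ℕ := x.foldr (fun b s => (b.toNat + a * s) % q) 0

theorem pv_cons (q : ℕ) (b : Bool) (x : List Bool) (a : ℕ) :
    pv q (b :: x) a = (b.toNat + a * pv q x a) % q := rfl

theorem pv_lt {q : ℕ} (hq : 0 < q) (x : List Bool) (a : ℕ) : pv q x a < q := by
  cases x with
  | nil => exact hq
  | cons b x => exact Nat.mod_lt _ hq

theorem pv_zeros (q k a : ℕ) : pv q (List.replicate k false) a = 0 := by
  induction k with
  | zero => rfl
  | succ k ih =>
    rw [List.replicate_succ, pv_cons, ih]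
    simp

theorem pol_cons (q : ℕ) (b : Bool) (x : List Bool) :
    pol q (b :: x) = Polynomial.C (if b then 1 else 0) + Polynomial.X * pol q x := by
  unfold pol
  rw [List.length_cons, Finset.sum_range_succ', Finset.mul_sum, add_comm]
  congr 1
  · simp
  · refine Finset.sum_congr rfl fun i _ => ?_
    rw [List.getD_cons_succ, pow_succ]
    ring

theorem pv_cast (q : ℕ) (x : List Bool) (a : ℕ) :
    ((pv q x a : ℕ) : ZMod q) = (pol q x).eval (a : ZMod q) := by
  induction x with
  | nil => simp [pv, pol]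
  | cons b x ih =>
    rw [pv_cons, ZMod.natCast_mod, pol_cons, Nat.cast_add, Nat.cast_mul, ih, Polynomial.eval_add,
      Polynomial.eval_C, Polynomial.eval_mul, Polynomial.eval_X]
    cases b <;> simp

theorem natDegree_pol (q : ℕ) (x : List Bool) : (pol q x).natDegree ≤ x.length := by
  unfold pol
  refine Polynomial.natDegree_sum_le_of_forall_le _ _ fun i hi => ?_
  rw [Finset.mem_range] at hi
  exact (Polynomial.natDegree_C_mul_X_pow_le _ _).trans hi.le

/-- the word of `x`: for all `a` the Hadamard word of the value at `a` -/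
def Ew (q l : ℕ) (x : List Bool) (p : ℕ) : Bool := had l (pv q x (p / 2 ^ l)) (p % 2 ^ l)

theorem Ew_block {q l : ℕ} (x : List Bool) (a : ℕ) {s : ℕ} (hs : s < 2 ^ l) :
    Ew q l x (a * 2 ^ l + s) = had l (pv q x a) s := by
  unfold Ew
  have h0 : 0 < 2 ^ l := Nat.pos_of_ne_zero (by positivity)
  have h1 : (a * 2 ^ l + s) / 2 ^ l = a := by
    rw [Nat.mul_comm, Nat.mul_add_div h0, Nat.div_eq_of_lt hs, Nat.add_zero]
  have h2 : (a * 2 ^ l + s) % 2 ^ l = s := by
    rw [Nat.mul_comm, Nat.mul_add_mod, Nat.mod_eq_of_lt hs]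
  rw [h1, h2]

theorem had_zero (l s : ℕ) : had l 0 s = false := by
  unfold had
  induction List.range l with
  | nil => rfl
  | cons j L ih =>
    rw [List.foldl_cons]
    have : (xor false ((0 : ℕ).testBit j && s.testBit j)) = false := by simp
    rw [this]
    exact ih

theorem Ew_zeros (q l k p : ℕ) : Ew q l (List.replicate k false) p = false := by
  unfold Ew
  rw [pv_zeros, had_zero]

/-! ### the decoder -/

/-- a power modulo `q` -/
def pw (q a k : ℕ) : ℕ := (List.replicate k ()).foldl (fun s _ => s * a % q) (1 % q)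

theorem pw_eq (q a k : ℕ) : pw q a k = a ^ k % q := by
  unfold pw
  have : ∀ (k : ℕ) (s : ℕ), (List.replicate k ()).foldl (fun s _ => s * a % q) (s % q) =
      s * a ^ k % q := by
    intro k
    induction k with
    | zero => intro s; simp
    | succ k ih =>
      intro s
      rw [List.replicate_succ, List.foldl_cons]
      have h1 : s % q * a % q = (s * a) % q := by rw [Nat.mul_mod, Nat.mod_mod, ← Nat.mul_mod]
      rw [h1, ih, pow_succ]
      congr 1
      ring
  rw [this k 1, Nat.one_mul]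

/-- the pairs of a position and a symbol whose word is correlated with the given one -/
def pts (r q l : ℕ) (w : ℕ → Bool) : List (ℕ × ℕ) :=
  (List.range q).flatMap fun a => ((List.range q).filter fun b =>
    decide ((r + 1) * 2 ^ l ≤
      2 * r * agr (2 ^ l) (fun s => w (a * 2 ^ l + s)) (had l b))).map fun b => (a, b)

/-- the equation for the coefficients of a polynomial which vanishes at the given point -/
def eqn (q U B : ℕ) (p : ℕ × ℕ) : List ℕ :=
  (List.range U).map fun t => pw q p.1 (min (t / B) U) * pw q p.2 (min (t % B) U) % q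

/-- the decoder for correlation `1 / r` -/
def decl (T : Tools) (v q l n : ℕ) (w : ℕ → Bool) (r : ℕ) : List (List Bool) :=
  T.roots q (r * q / (2 * v)) (4 * r * v + 1)
    (T.ker q (r * q / (2 * v) * (4 * r * v + 1)) ((pts r q l w).map
      (eqn q (r * q / (2 * v) * (4 * r * v + 1)) (4 * r * v + 1)))) n

/-- the decoder: all levels -/
def dec (T : Tools) (v q l H n : ℕ) (w : ℕ → Bool) : List (List Bool) :=
  (List.range (H + 1)).flatMap fun h => decl T v q l n w (2 ^ min h H)

theorem card_filter_range (N : ℕ) (P : ℕ → Prop) [DecidablePred P] :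
    ((Finset.range N).filter P).card = ((List.range N).filter fun p => decide (P p)).length := by
  induction N with
  | zero => rfl
  | succ N ih =>
    rw [Finset.range_add_one, Finset.filter_insert, List.range_succ, List.filter_append,
      List.length_append, ← ih]
    by_cases h : P N
    · rw [if_pos h, Finset.card_insert_of_notMem (by simp)]
      simp [h]
    · rw [if_neg h]
      simp [h]

theorem length_pts (T : Tools) {r q l : ℕ} (hr : 0 < r) (hl : q ≤ 2 ^ l) (w : ℕ → Bool) :
    (pts r q l w).length ≤ q * r ^ 2 := by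
  unfold pts
  rw [List.length_flatMap]
  have h1 : ∀ a, (((List.range q).filter fun b =>
      decide ((r + 1) * 2 ^ l ≤
        2 * r * agr (2 ^ l) (fun s => w (a * 2 ^ l + s)) (had l b))).map
          fun b => (a, b)).length ≤ r ^ 2 := by
    intro a
    rw [List.length_map, ← card_filter_range]
    refine (Finset.card_le_card ?_).trans (T.had.2 l r (fun s => w (a * 2 ^ l + s)) hr)
    exact Finset.filter_subset_filter _ (Finset.range_mono hl)
  refine (List.sum_le_card_nsmul _ (r ^ 2) ?_).trans ?_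
  · intro m hm
    rw [List.mem_map] at hm
    obtain ⟨a, _, rfl⟩ := hm
    exact h1 a
  · simp

theorem mem_pts {r q l : ℕ} {w : ℕ → Bool} {a b : ℕ} : (a, b) ∈ pts r q l w ↔
    a < q ∧ b < q ∧ (r + 1) * 2 ^ l ≤
      2 * r * agr (2 ^ l) (fun s => w (a * 2 ^ l + s)) (had l b) := by
  unfold pts
  simp only [List.mem_flatMap, List.mem_range, List.mem_map, List.mem_filter, decide_eq_true_eq,
    Prod.mk.injEq]
  constructor
  · rintro ⟨a', h1, b', ⟨h2, h3⟩, rfl, rfl⟩
    exact ⟨h1, h2, h3⟩
  · rintro ⟨h1, h2, h3⟩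
    exact ⟨a, h1, b, ⟨h2, h3⟩, rfl, rfl⟩

/-! ### the interpolation polynomial -/

theorem natDegree_evalY {q A B n : ℕ} {c : List ℕ} {p : Polynomial (ZMod q)}
    (hp : p.natDegree ≤ n) : (evalY q A B c p).natDegree ≤ A + (B - 1) * n := by
  unfold evalY
  refine Polynomial.natDegree_sum_le_of_forall_le _ _ fun u hu => ?_
  refine Polynomial.natDegree_sum_le_of_forall_le _ _ fun v hv => ?_
  rw [Finset.mem_range] at hu hv
  refine Polynomial.natDegree_mul_le.trans ?_
  have h1 := Polynomial.natDegree_C_mul_X_pow_le (((c.getD (u * B + v) 0 : ℕ) : ZMod q)) u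
  have h2 : (p ^ v).natDegree ≤ (B - 1) * n :=
    Polynomial.natDegree_pow_le.trans (Nat.mul_le_mul (by omega) hp)
  omega

theorem eval_evalY {q A B : ℕ} {c : List ℕ} {x : List Bool} {a b : ℕ} (h : pv q x a = b) :
    (evalY q A B c (pol q x)).eval (a : ZMod q) =
      ((∑ i ∈ Finset.range (A * B), (eqn q (A * B) B (a, b)).getD i 0 * c.getD i 0 : ℕ) :
        ZMod q) := by
  rw [sum_blocks]
  unfold evalY
  rw [Polynomial.eval_finsetSum, Nat.cast_sum]
  refine Finset.sum_congr rfl fun u hu => ?_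
  rw [Polynomial.eval_finsetSum, Nat.cast_sum]
  refine Finset.sum_congr rfl fun v hv => ?_
  rw [Finset.mem_range] at hu hv
  have hB : 0 < B := by omega
  have h1 : (u * B + v) / B = u := by
    rw [Nat.mul_comm, Nat.mul_add_div hB, Nat.div_eq_of_lt hv, Nat.add_zero]
  have h2 : (u * B + v) % B = v := by
    rw [Nat.mul_comm, Nat.mul_add_mod, Nat.mod_eq_of_lt hv]
  have h3 : u * B + v < A * B := by
    have := Nat.mul_le_mul_right B (show u + 1 ≤ A by omega)
    rw [Nat.add_mul, Nat.one_mul] at this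
    omega
  have h4 : (eqn q (A * B) B (a, b)).getD (u * B + v) 0 = pw q a u * pw q b v % q := by
    unfold eqn
    rw [List.getD_eq_getElem _ _ (by rw [List.length_map, List.length_range]; exact h3),
      List.getElem_map, List.getElem_range,
      min_eq_left ((Nat.div_le_self _ _).trans h3.le),
      min_eq_left ((Nat.mod_le _ _).trans h3.le), h1, h2]
  rw [h4, Nat.cast_mul, ZMod.natCast_mod, Nat.cast_mul, pw_eq, pw_eq, ZMod.natCast_mod,
    ZMod.natCast_mod, Nat.cast_pow, Nat.cast_pow, Polynomial.eval_mul, Polynomial.eval_mul,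
    Polynomial.eval_C, Polynomial.eval_pow, Polynomial.eval_pow, Polynomial.eval_X, ← pv_cast, h]
  ring

/-- excess of the agreement over one half -/
def ex (l q : ℕ) (w : ℕ → Bool) (x : List Bool) (a : ℕ) : ℕ :=
  2 * agr (2 ^ l) (fun s => w (a * 2 ^ l + s)) (had l (pv q x a)) - 2 ^ l

theorem agr_le (N : ℕ) (u v : ℕ → Bool) : agr N u v ≤ N := by
  have := agr_add_dist N u v
  omega

/-! ### levels -/

/-- the excess is bounded by the levels it reaches -/
theorem level_bound {L e H : ℕ} (he : e ≤ L) :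
    2 ^ H * e ≤ L + 2 * L * ∑ h ∈ Finset.range (H + 1),
      if L ≤ 2 ^ h * e then 2 ^ (H - h) else 0 := by
  classical
  by_cases hex : ∃ h, h ≤ H ∧ L ≤ 2 ^ h * e
  · set h0 := Nat.find hex with hh0
    obtain ⟨h1, h2⟩ := Nat.find_spec hex
    rw [← hh0] at h1 h2
    have h3 : 2 ^ h0 * e ≤ 2 * L := by
      rcases Nat.eq_zero_or_pos h0 with h | h
      · rw [h, pow_zero]
        omega
      · have h4 := Nat.find_min hex (show h0 - 1 < Nat.find hex by omega)
        push Not at h4
        have h5 := h4 (by omega)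
        have h6 : 2 ^ h0 = 2 * 2 ^ (h0 - 1) := by
          rw [← pow_succ']
          congr 1
          omega
        rw [h6, Nat.mul_assoc]
        omega
    have h4 : 2 ^ (H - h0) ≤ ∑ h ∈ Finset.range (H + 1),
        if L ≤ 2 ^ h * e then 2 ^ (H - h) else 0 := by
      have := Finset.single_le_sum (f := fun h => if L ≤ 2 ^ h * e then 2 ^ (H - h) else 0)
        (fun h _ => Nat.zero_le _) (Finset.mem_range.2 (show h0 < H + 1 by omega))
      rwa [if_pos h2] at this
    calc 2 ^ H * e = 2 ^ (H - h0) * (2 ^ h0 * e) := by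
          rw [← Nat.mul_assoc, ← pow_add]
          congr 2
          omega
      _ ≤ 2 ^ (H - h0) * (2 * L) := Nat.mul_le_mul_left _ h3
      _ = 2 * L * 2 ^ (H - h0) := Nat.mul_comm _ _
      _ ≤ 2 * L * _ := Nat.mul_le_mul_left _ h4
      _ ≤ _ := Nat.le_add_left _ _
  · push Not at hex
    exact (hex H le_rfl).le.trans (Nat.le_add_right _ _)

/-- some level is reached often -/
theorem exists_level {q L R H : ℕ} (hH : 4 * R ≤ 2 ^ H) (hL : 0 < L)
    {e : ℕ → ℕ} (he : ∀ a < q, e a ≤ L) (hsum : q * L ≤ 2 * R * ∑ a ∈ Finset.range q, e a) :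
    ∃ h ≤ H, 2 ^ h * q ≤
      8 * R * (H + 1) * ((Finset.range q).filter fun a => L ≤ 2 ^ h * e a).card := by
  by_contra hcon
  push Not at hcon
  set g : ℕ → ℕ := fun h => ((Finset.range q).filter fun a => L ≤ 2 ^ h * e a).card with hg
  have h1 : 2 ^ H * ∑ a ∈ Finset.range q, e a ≤
      q * L + 2 * L * ∑ h ∈ Finset.range (H + 1), 2 ^ (H - h) * g h := by
    calc 2 ^ H * ∑ a ∈ Finset.range q, e a
        = ∑ a ∈ Finset.range q, 2 ^ H * e a := by rw [Finset.mul_sum]
      _ ≤ ∑ a ∈ Finset.range q, (L + 2 * L * ∑ h ∈ Finset.range (H + 1),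
          if L ≤ 2 ^ h * e a then 2 ^ (H - h) else 0) :=
            Finset.sum_le_sum fun a ha => level_bound (he a (Finset.mem_range.1 ha))
      _ = q * L + 2 * L * ∑ h ∈ Finset.range (H + 1), 2 ^ (H - h) * g h := by
          rw [Finset.sum_add_distrib, Finset.sum_const, Finset.card_range, smul_eq_mul,
            ← Finset.mul_sum, Finset.sum_comm]
          congr 2
          refine Finset.sum_congr rfl fun h _ => ?_
          rw [hg, ← Finset.sum_filter, Finset.sum_const, smul_eq_mul, Nat.mul_comm]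
  have h2 : 8 * R * (H + 1) * ∑ h ∈ Finset.range (H + 1), 2 ^ (H - h) * g h <
      (H + 1) * (2 ^ H * q) := by
    rw [Finset.mul_sum]
    have h3 : ∑ h ∈ Finset.range (H + 1), 8 * R * (H + 1) * (2 ^ (H - h) * g h) <
        ∑ h ∈ Finset.range (H + 1), 2 ^ H * q := by
      refine Finset.sum_lt_sum_of_nonempty (Finset.nonempty_range_iff.2 (by omega))
        fun h hh => ?_
      have h4 := hcon h (by rw [Finset.mem_range] at hh; omega)
      have h5 : 2 ^ H = 2 ^ (H - h) * 2 ^ h := by
        rw [← pow_add]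
        congr 1
        rw [Finset.mem_range] at hh
        omega
      have h6 : 0 < 2 ^ (H - h) := Nat.pos_of_ne_zero (by positivity)
      calc 8 * R * (H + 1) * (2 ^ (H - h) * g h)
          = 2 ^ (H - h) * (8 * R * (H + 1) * g h) := by ring
        _ < 2 ^ (H - h) * (2 ^ h * q) := Nat.mul_lt_mul_of_pos_left h4 h6
        _ = 2 ^ H * q := by rw [h5]; ring
    refine h3.trans_eq ?_
    rw [Finset.sum_const, Finset.card_range, smul_eq_mul]
  have h3 : 8 * R * ∑ h ∈ Finset.range (H + 1), 2 ^ (H - h) * g h < 2 ^ H * q := by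
    have h4 : (H + 1) * (8 * R * ∑ h ∈ Finset.range (H + 1), 2 ^ (H - h) * g h) <
        (H + 1) * (2 ^ H * q) := by
      refine lt_of_eq_of_lt ?_ h2
      ring
    exact Nat.lt_of_mul_lt_mul_left h4
  set S := ∑ h ∈ Finset.range (H + 1), 2 ^ (H - h) * g h with hS
  set E := ∑ a ∈ Finset.range q, e a with hE
  have h4 : 2 ^ H * (q * L) ≤ 2 * R * (q * L) + 4 * R * L * S := by
    calc 2 ^ H * (q * L) ≤ 2 ^ H * (2 * R * E) := Nat.mul_le_mul_left _ hsum
      _ = 2 * R * (2 ^ H * E) := by ring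
      _ ≤ 2 * R * (q * L + 2 * L * S) := Nat.mul_le_mul_left _ h1
      _ = _ := by ring
  have h5 : 4 * R * (q * L) ≤ 2 ^ H * (q * L) := Nat.mul_le_mul_right _ hH
  have h6 : 8 * R * L * S < 2 ^ H * (q * L) := by
    calc 8 * R * L * S = L * (8 * R * S) := by ring
      _ < L * (2 ^ H * q) := Nat.mul_lt_mul_of_pos_left h3 hL
      _ = _ := by ring
  have h7 : 8 * R * L * S = 4 * R * L * S + 4 * R * L * S := by ring
  have h8 : 4 * R * (q * L) = 2 * R * (q * L) + 2 * R * (q * L) := by ring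
  omega

/-! ### correctness of the decoder -/

/-- the positions at which the word is correlated with the word of the value -/
def goodPos (r q l : ℕ) (w : ℕ → Bool) (x : List Bool) : Finset ℕ :=
  (Finset.range q).filter fun a => (r + 1) * 2 ^ l ≤
    2 * r * agr (2 ^ l) (fun s => w (a * 2 ^ l + s)) (had l (pv q x a))

/-- the parameters -/
structure OK (v q l n : ℕ) : Prop where
  prime : q.Prime
  le : q ≤ 2 ^ l
  pos : 0 < v
  big : 8 * (n + 1) * v ^ 2 < q

theorem OK.coeffs {v q l n r : ℕ} (h : OK v q l n) (hr : 0 < r) :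
    q * r ^ 2 < r * q / (2 * v) * (4 * r * v + 1) := by
  obtain ⟨_, _, hv, hb⟩ := h
  set A := r * q / (2 * v) with hA
  have h1 : r * q < 2 * v * (A + 1) := by
    have := Nat.lt_mul_div_succ (r * q) (show 0 < 2 * v by omega)
    rwa [← hA] at this
  have h2 : 1 ≤ A := by
    rw [hA, Nat.le_div_iff_mul_le (by omega)]
    have h3 : v ≤ v ^ 2 := Nat.le_self_pow (by omega) v
    have h4 : 8 * 1 * v ^ 2 ≤ 8 * (n + 1) * v ^ 2 :=
      Nat.mul_le_mul_right _ (Nat.mul_le_mul_left _ (by omega))
    have h5 : 1 * q ≤ r * q := Nat.mul_le_mul_right _ hr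
    omega
  have h3 : q * r ^ 2 < 2 * v * r * (A + 1) := by
    calc q * r ^ 2 = r * (r * q) := by ring
      _ < r * (2 * v * (A + 1)) := Nat.mul_lt_mul_of_pos_left h1 hr
      _ = _ := by ring
  have h4 : 2 * v * r * (A + 1) = 2 * v * r * A + 2 * v * r * 1 := by ring
  have h5 : 2 * v * r * 1 ≤ 2 * v * r * A := Nat.mul_le_mul_left _ h2
  have h6 : A * (4 * r * v + 1) = 2 * v * r * A + 2 * v * r * A + A := by ring
  omega

theorem mem_decl (T : Tools) {v q l n r : ℕ} (hp : OK v q l n) (hr : 0 < r) {w : ℕ → Bool}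
    {x : List Bool} (hx : x.length = n) (hG : r * q ≤ v * (goodPos r q l w x).card) :
    x ∈ decl T v q l n w r := by
  have hco := hp.coeffs hr
  obtain ⟨hq, hl, hv, hb⟩ := hp
  unfold decl
  set A := r * q / (2 * v) with hA
  set B := 4 * r * v + 1 with hB
  have hlen : ((pts r q l w).map (eqn q (A * B) B)).length < A * B := by
    rw [List.length_map]
    exact lt_of_le_of_lt (length_pts T hr hl w) hco
  obtain ⟨h1, h2⟩ := T.ker_spec q (A * B) _ hq hlen
  set c := T.ker q (A * B) ((pts r q l w).map (eqn q (A * B) B)) with hc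
  refine T.roots_spec q A B n c hq h1 x hx ?_
  set G := goodPos r q l w x with hGdef
  have : Fact q.Prime := ⟨hq⟩
  have hinj : Set.InjOn (fun a : ℕ => (a : ZMod q)) (G : Set ℕ) := by
    intro a ha b hb hab
    rw [Finset.mem_coe, hGdef] at ha hb
    unfold goodPos at ha hb
    rw [Finset.mem_filter, Finset.mem_range] at ha hb
    dsimp only at hab
    rw [ZMod.natCast_eq_natCast_iff, Nat.ModEq, Nat.mod_eq_of_lt ha.1,
      Nat.mod_eq_of_lt hb.1] at hab
    exact hab
  refine Polynomial.eq_zero_of_natDegree_lt_card_of_eval_eq_zero' _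
    (G.image fun a : ℕ => (a : ZMod q)) ?_ ?_
  · intro i hi
    rw [Finset.mem_image] at hi
    obtain ⟨a, ha, rfl⟩ := hi
    rw [eval_evalY rfl, ZMod.natCast_eq_zero_iff]
    refine Nat.dvd_of_mod_eq_zero (h2 _ ?_)
    rw [List.mem_map]
    refine ⟨(a, pv q x a), ?_, rfl⟩
    rw [hGdef] at ha
    unfold goodPos at ha
    rw [Finset.mem_filter, Finset.mem_range] at ha
    exact mem_pts.2 ⟨ha.1, pv_lt hq.pos x a, ha.2⟩
  · rw [Finset.card_image_of_injOn hinj]
    refine lt_of_le_of_lt (natDegree_evalY ((natDegree_pol q x).trans hx.le)) ?_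
    have e1 : B - 1 = 4 * r * v := by omega
    rw [e1]
    by_contra hcon
    push Not at hcon
    have h3 : 2 * v * A ≤ r * q := Nat.mul_div_le (r * q) (2 * v)
    have h4 : 2 * v * G.card ≤ 2 * v * (A + 4 * r * v * n) := Nat.mul_le_mul_left _ hcon
    have h5 : 2 * v * (A + 4 * r * v * n) + 8 * v ^ 2 * r =
        2 * v * A + r * (8 * (n + 1) * v ^ 2) := by
      ring
    have h6 : 2 * v * G.card = 2 * (v * G.card) := by ring
    have h7 : r * (8 * (n + 1) * v ^ 2) ≤ r * q := Nat.mul_le_mul_left _ hb.le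
    have h8 : 0 < 8 * v ^ 2 * r := by positivity
    omega

theorem mem_dec (T : Tools) {R H q l n : ℕ} (hH : 4 * R ≤ 2 ^ H)
    (hp : OK (8 * R * (H + 1)) q l n) {w : ℕ → Bool} {x : List Bool} (hx : x.length = n)
    (h : q * 2 ^ l ≤ 2 * R * ∑ a ∈ Finset.range q, ex l q w x a) :
    x ∈ dec T (8 * R * (H + 1)) q l H n w := by
  have hL0 : 0 < 2 ^ l := Nat.pos_of_ne_zero (by positivity)
  obtain ⟨k, hk, hk'⟩ := exists_level hH hL0 (e := ex l q w x)
    (fun a _ => by
      unfold ex
      have := agr_le (2 ^ l) (fun s => w (a * 2 ^ l + s)) (had l (pv q x a))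
      omega) h
  unfold dec
  rw [List.mem_flatMap]
  refine ⟨k, List.mem_range.2 (by omega), ?_⟩
  rw [min_eq_left hk]
  refine mem_decl T hp (Nat.pos_of_ne_zero (by positivity)) hx (hk'.trans ?_)
  refine Nat.mul_le_mul_left _ (Finset.card_le_card fun a ha => ?_)
  unfold goodPos
  rw [Finset.mem_filter] at ha ⊢
  refine ⟨ha.1, ?_⟩
  have h1 := ha.2
  unfold ex at h1
  set g := agr (2 ^ l) (fun s => w (a * 2 ^ l + s)) (had l (pv q x a)) with hg
  have h2 : 2 ^ l ≤ 2 * g := by
    by_contra hcon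
    rw [show 2 * g - 2 ^ l = 0 by omega, Nat.mul_zero] at h1
    omega
  obtain ⟨t, ht⟩ : ∃ t, 2 * g = 2 ^ l + t := ⟨2 * g - 2 ^ l, by omega⟩
  rw [ht, Nat.add_sub_cancel_left] at h1
  calc (2 ^ k + 1) * 2 ^ l = 2 ^ k * 2 ^ l + 2 ^ l := by ring
    _ ≤ 2 ^ k * 2 ^ l + 2 ^ k * t := Nat.add_le_add_left h1 _
    _ = 2 ^ k * (2 * g) := by rw [ht]; ring
    _ = 2 * 2 ^ k * g := by ring

end Pool.Agent.MPa0a715.WM.A
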