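import Pool.Agent.Lib.MP_a0a715_lc_IN.PT

/-!
# Weak local minima: definitions for the modules
-/

namespace Pool.Agent.MPa0a715.WM

open Pool.Agent.MPa0a715 Pool.Agent.PolyTime

/-- Hadamard code: position `s` of the word of the symbol `b`, both with `l` bits -/
def had (l b s : ℕ) : Bool :=
  (List.range l).foldl (fun acc j => xor acc (b.testBit j && s.testBit j)) false

/-- number of positions below `N` in which two words agree -/
def agr (N : ℕ) (u v : ℕ → Bool) : ℕ := ((Finset.range N).filter fun p => u p = v p).card

/-- the polynomial with the given bits as coefficients -/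
noncomputable def pol (q : ℕ) (x : List Bool) : Polynomial (ZMod q) :=
  ∑ i ∈ Finset.range x.length, Polynomial.C (if x.getD i false then 1 else 0) * Polynomial.X ^ i

/-- the value at `Y = p` of the bivariate polynomial whose coefficient of `X ^ u * Y ^ v` is the
entry in position `u * B + v` of the list `c`, for `u < U` and `v < B` -/
noncomputable def evalY (q U B : ℕ) (c : List ℕ) (p : Polynomial (ZMod q)) :
    Polynomial (ZMod q) :=
  ∑ u ∈ Finset.range U, ∑ v ∈ Finset.range B,
    Polynomial.C ((c.getD (u * B + v) 0 : ℕ) : ZMod q) * Polynomial.X ^ u * p ^ v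

end Pool.Agent.MPa0a715.WM
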