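import Pool.Agent.Lib.MP_a0a715_lc_WM.Stmts
import Mathlib.Algebra.Order.BigOperators.Ring.Finset
import Mathlib.Algebra.Order.Chebyshev
import Mathlib.Tactic.Linarith

/-!
# Module HAD: few symbols have a Hadamard word close to a given word
-/

set_option autoImplicit false

namespace Pool.Agent.MPa0a715.WM

open Pool.Agent.MPa0a715 Pool.Agent.PolyTime

/-- the sign of a bit -/
def hsgn (b : Bool) : ℤ := if b then -1 else 1

theorem hsgn_xor (a b : Bool) : hsgn (xor a b) = hsgn a * hsgn b := by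
  cases a <;> cases b <;> simp [hsgn]

theorem hsgn_sq (a : Bool) : hsgn a * hsgn a = 1 := by
  cases a <;> simp [hsgn]

theorem had_prod (l b s : ℕ) :
    hsgn (had l b s) = ∏ j ∈ Finset.range l, hsgn (b.testBit j && s.testBit j) := by
  unfold had
  induction l with
  | zero => simp [hsgn]
  | succ l ih =>
    rw [List.range_succ, List.foldl_append, Finset.prod_range_succ, List.foldl_cons,
      List.foldl_nil, hsgn_xor, ih]

theorem had_flip {l j : ℕ} (hj : j < l) (b s : ℕ) :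
    hsgn (had l b (s ^^^ 2 ^ j)) = hsgn (b.testBit j) * hsgn (had l b s) := by
  rw [had_prod, had_prod, ← Finset.mul_prod_erase _ _ (Finset.mem_range.2 hj),
    ← Finset.mul_prod_erase (Finset.range l) (fun j => hsgn (b.testBit j && s.testBit j))
      (Finset.mem_range.2 hj), ← mul_assoc]
  congr 1
  · rw [Nat.testBit_xor, Nat.testBit_two_pow_self]
    cases b.testBit j <;> cases s.testBit j <;> simp [hsgn]
  · refine Finset.prod_congr rfl fun i hi => ?_
    rw [Nat.testBit_xor, Nat.testBit_two_pow_of_ne (Finset.ne_of_mem_erase hi).symm, Bool.xor_false]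

theorem had_orth {l b b' : ℕ} (hb : b < 2 ^ l) (hb' : b' < 2 ^ l) (hne : b ≠ b') :
    ∑ s ∈ Finset.range (2 ^ l), hsgn (had l b s) * hsgn (had l b' s) = 0 := by
  obtain ⟨j, hj⟩ : ∃ j, b.testBit j ≠ b'.testBit j := by
    by_contra hc
    push Not at hc
    exact hne (Nat.eq_of_testBit_eq hc)
  have hjl : j < l := by
    by_contra hc
    apply hj
    have h : (2 : ℕ) ^ l ≤ 2 ^ j := Nat.pow_le_pow_right (by norm_num) (not_lt.1 hc)
    rw [Nat.testBit_lt_two_pow (hb.trans_le h), Nat.testBit_lt_two_pow (hb'.trans_le h)]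
  have hs : hsgn (b.testBit j) * hsgn (b'.testBit j) = -1 := by
    cases h1 : b.testBit j <;> cases h2 : b'.testBit j <;> simp [h1, h2, hsgn] at hj ⊢
  have key : ∀ s, hsgn (had l b (s ^^^ 2 ^ j)) * hsgn (had l b' (s ^^^ 2 ^ j)) =
      - (hsgn (had l b s) * hsgn (had l b' s)) := by
    intro s
    rw [had_flip hjl, had_flip hjl]
    calc _ = (hsgn (b.testBit j) * hsgn (b'.testBit j)) * (hsgn (had l b s) * hsgn (had l b' s)) := by
          ring
      _ = _ := by rw [hs]; ring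
  have hinv : ∀ s, (s ^^^ 2 ^ j) ^^^ 2 ^ j = s := fun s => by
    rw [Nat.xor_assoc, Nat.xor_self, Nat.xor_zero]
  refine Finset.sum_involution (fun s _ => s ^^^ 2 ^ j) (fun s _ => ?_) (fun s _ h0 h1 => ?_)
    (fun s hs => ?_) (fun s _ => hinv s)
  · rw [key]
    ring
  · have h2 := key s
    rw [h1] at h2
    apply h0
    omega
  · exact Finset.mem_range.2 (Nat.xor_lt_two_pow (Finset.mem_range.1 hs)
      (Nat.pow_lt_pow_right (by norm_num) hjl))

theorem corr_eq (l b : ℕ) (w : ℕ → Bool) :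
    ∑ s ∈ Finset.range (2 ^ l), hsgn (w s) * hsgn (had l b s) =
      2 * (agr (2 ^ l) w (had l b) : ℤ) - 2 ^ l := by
  have h : ∀ s, hsgn (w s) * hsgn (had l b s) = 2 * (if w s = had l b s then 1 else 0) - 1 := by
    intro s
    cases w s <;> cases had l b s <;> simp [hsgn]
  simp_rw [h]
  rw [Finset.sum_sub_distrib, ← Finset.mul_sum, agr, Finset.sum_boole]
  simp

theorem had_list (l r : ℕ) (w : ℕ → Bool) (hr : 0 < r) :
    ((Finset.range (2 ^ l)).filter fun b =>
      (r + 1) * 2 ^ l ≤ 2 * r * agr (2 ^ l) w (had l b)).card ≤ r ^ 2 := by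
  set Bs := (Finset.range (2 ^ l)).filter fun b =>
      (r + 1) * 2 ^ l ≤ 2 * r * agr (2 ^ l) w (had l b) with hBs
  set k : ℤ := (Bs.card : ℤ) with hk
  have hmem : ∀ b ∈ Bs, b < 2 ^ l := fun b hb => Finset.mem_range.1 (Finset.mem_filter.1 hb).1
  -- the sum of the correlations
  have h1 : k * 2 ^ l ≤ r * ∑ b ∈ Bs, ∑ s ∈ Finset.range (2 ^ l), hsgn (w s) * hsgn (had l b s) := by
    rw [Finset.mul_sum, hk, ← nsmul_eq_mul]
    refine Finset.card_nsmul_le_sum _ _ _ fun b hb => ?_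
    have h2 : ((r + 1) * 2 ^ l : ℕ) ≤ 2 * r * agr (2 ^ l) w (had l b) := (Finset.mem_filter.1 hb).2
    have h3 : (((r + 1) * 2 ^ l : ℕ) : ℤ) ≤ ((2 * r * agr (2 ^ l) w (had l b) : ℕ) : ℤ) := by
      exact_mod_cast h2
    push_cast at h3
    rw [corr_eq]
    linarith
  have h4 : ∑ b ∈ Bs, ∑ s ∈ Finset.range (2 ^ l), hsgn (w s) * hsgn (had l b s) =
      ∑ s ∈ Finset.range (2 ^ l), hsgn (w s) * ∑ b ∈ Bs, hsgn (had l b s) := by
    rw [Finset.sum_comm]
    exact Finset.sum_congr rfl fun s _ => (Finset.mul_sum _ _ _).symm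
  have h5 : ∑ s ∈ Finset.range (2 ^ l), (∑ b ∈ Bs, hsgn (had l b s)) ^ 2 = k * 2 ^ l := by
    have h6 : ∀ s, (∑ b ∈ Bs, hsgn (had l b s)) ^ 2 =
        ∑ b ∈ Bs, ∑ b' ∈ Bs, hsgn (had l b s) * hsgn (had l b' s) := fun s => by
      rw [sq, Finset.sum_mul_sum]
    simp_rw [h6]
    rw [Finset.sum_comm]
    have h7 : ∀ b ∈ Bs, ∑ s ∈ Finset.range (2 ^ l), ∑ b' ∈ Bs,
        hsgn (had l b s) * hsgn (had l b' s) = 2 ^ l := by
      intro b hb
      rw [Finset.sum_comm, Finset.sum_eq_single b]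
      · simp [hsgn_sq]
      · intro b' hb' hne
        exact had_orth (hmem b hb) (hmem b' hb') hne.symm
      · exact fun h => (h hb).elim
    rw [Finset.sum_congr rfl h7]
    simp [hk]
  have h8 : (∑ s ∈ Finset.range (2 ^ l), hsgn (w s) * ∑ b ∈ Bs, hsgn (had l b s)) ^ 2 ≤
      2 ^ l * (k * 2 ^ l) := by
    rw [← h5]
    refine (Finset.sum_mul_sq_le_sq_mul_sq _ _ _).trans (le_of_eq ?_)
    congr 1
    simp [sq, hsgn_sq]
  have hr' : (0 : ℤ) < r := by exact_mod_cast hr
  have hp : (0 : ℤ) < 2 ^ l := by positivity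
  have hk0 : 0 ≤ k := by rw [hk]; positivity
  rw [h4] at h1
  have h9 : (k * 2 ^ l) ^ 2 ≤ r ^ 2 * (2 ^ l * (k * 2 ^ l)) := by
    calc (k * 2 ^ l) ^ 2 ≤ (r * ∑ s ∈ Finset.range (2 ^ l), hsgn (w s) * ∑ b ∈ Bs, hsgn (had l b s)) ^ 2 :=
          pow_le_pow_left₀ (by positivity) h1 2
      _ ≤ _ := by
          rw [mul_pow]
          exact mul_le_mul_of_nonneg_left h8 (by positivity)
  have h10 : k * k ≤ r ^ 2 * k := by
    have h11 : (k * k) * (2 ^ l * 2 ^ l) ≤ (r ^ 2 * k) * (2 ^ l * 2 ^ l) := by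
      calc (k * k) * (2 ^ l * 2 ^ l) = (k * 2 ^ l) ^ 2 := by ring
        _ ≤ _ := h9
        _ = _ := by ring
    exact le_of_mul_le_mul_right h11 (by positivity)
  have h12 : k ≤ (r : ℤ) ^ 2 := by
    rcases hk0.eq_or_lt with h0 | h0
    · rw [← h0]
      positivity
    · exact le_of_mul_le_mul_right h10 h0
  rw [hk] at h12
  exact_mod_cast h12

theorem testBit_getD (n i : ℕ) : n.bits.getD i false = n.testBit i := by
  rw [Nat.testBit_eq_inth]
  exact List.getD_default_eq_getI _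

theorem ptime_testBit {α : Type} [Enc α] {n i : α → ℕ} (hn : PTime n) (hi : PTime i) :
    PTime (fun a => (n a).testBit (i a)) :=
  (PTime.listGetD hn.natBits hi (PTime.const false)).of_eq fun _ => testBit_getD _ _

theorem ptime_had {α : Type} [Enc α] (l b s : α → ℕ) (hl : PU l) (hb : PTime b) (hs : PTime s) :
    PTime (fun a => had (l a) (b a) (s a)) := by
  have hj : PTime (fun p : α × (Bool × ℕ) => p.2.2) := PTime.snd' PTime.snd
  have h := PTime.foldFinite (f := fun a => List.range (l a)) (s := fun _ => false)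
    (h := fun a (acc : Bool) j => xor acc ((b a).testBit j && (s a).testBit j)) hl.range
    (PTime.const false) (PTime.xor (PTime.fst' PTime.snd)
      (PTime.and (ptime_testBit (hb.comp PTime.fst) hj) (ptime_testBit (hs.comp PTime.fst) hj)))
  exact h

theorem hadStmt : HadStmt :=
  ⟨fun l b s hl hb hs => ptime_had l b s hl hb hs, fun l r w hr => had_list l r w hr⟩

end Pool.Agent.MPa0a715.WM
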