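import Pool.Agent.Lib.MP_a0a715_lc_WM.Stmts

/-!
# Nonzero solutions of homogeneous linear systems modulo a prime in polynomial time

`ker q U E` is a nonzero solution modulo the prime `q` of the homogeneous linear system in `U`
unknowns with the list `E` of fewer than `U` equations.
-/

namespace Pool.Agent.MPa0a715.WM.Lin

open Pool.Agent.MPa0a715 Pool.Agent.PolyTime

/-- inner product modulo `q` of the first `U` entries -/
def dot (q U : ℕ) (e v : List ℕ) : ℕ :=
  (List.range U).foldl (fun acc i => (acc + e.getD i 0 * v.getD i 0) % q) 0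

/-- `a w - b v` modulo `q` -/
def comb (q U a b : ℕ) (w v : List ℕ) : List ℕ :=
  (List.range U).map fun i => (a * w.getD i 0 + (q - b) * v.getD i 0) % q

/-- elimination with one equation; the vectors come with their own coordinates -/
def step (q U : ℕ) (V : List (ℕ × List ℕ)) (e : List ℕ) : List (ℕ × List ℕ) :=
  match V.find? (fun p => decide (¬ dot q U e p.2 = 0)) with
  | none => V
  | some p0 => (V.filter fun p => decide (¬ p.1 = p0.1)).map fun p =>
      (p.1, comb q U (dot q U e p0.2) (dot q U e p.2) p.2 p0.2)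

/-- unit vectors -/
def start (q U : ℕ) : List (ℕ × List ℕ) :=
  (List.range U).map fun j => (j, (List.range U).map fun i => (if i = j then 1 else 0) % q)

/-- the elimination -/
def elim (q U : ℕ) (E : List (List ℕ)) : List (ℕ × List ℕ) :=
  E.foldl (step q U) (start q U)

/-- the modulus, made positive -/
def pos1 (q : ℕ) : ℕ := if q = 0 then 1 else q

/-- the solution -/
def ker (q U : ℕ) (E : List (List ℕ)) : List ℕ :=
  ((elim (pos1 q) U E).head?.getD (0, [])).2

/-! ### sizes -/

/-- bounds for the state of the elimination -/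
def Small (q U : ℕ) (V : List (ℕ × List ℕ)) : Prop :=
  V.length ≤ U ∧ ∀ p ∈ V, p.1 < U ∧ p.2.length = U ∧ ∀ x ∈ p.2, x < q

theorem small_start {q : ℕ} (hq : 0 < q) (U : ℕ) : Small q U (start q U) := by
  refine ⟨by simp [start], fun p hp => ?_⟩
  obtain ⟨j, hj, rfl⟩ := List.mem_map.1 hp
  refine ⟨List.mem_range.1 hj, by simp, fun x hx => ?_⟩
  obtain ⟨i, _, rfl⟩ := List.mem_map.1 hx
  exact Nat.mod_lt _ hq

theorem small_step {q : ℕ} (hq : 0 < q) {U : ℕ} {V : List (ℕ × List ℕ)} (h : Small q U V)
    (e : List ℕ) : Small q U (step q U V e) := by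
  unfold step
  split
  · exact h
  · rename_i p0 _
    refine ⟨?_, fun p hp => ?_⟩
    · rw [List.length_map]
      exact (List.length_filter_le _ _).trans h.1
    · obtain ⟨p', hp', rfl⟩ := List.mem_map.1 hp
      refine ⟨(h.2 p' (List.mem_filter.1 hp').1).1, by simp [comb], fun x hx => ?_⟩
      obtain ⟨i, _, rfl⟩ := List.mem_map.1 hx
      exact Nat.mod_lt _ hq

theorem small_elim {q : ℕ} (hq : 0 < q) (U : ℕ) (E : List (List ℕ)) :
    Small q U (elim q U E) := by
  unfold elim
  induction E using List.reverseRecOn with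
  | nil => exact small_start hq U
  | append_singleton l e ih =>
    rw [List.foldl_append]
    exact small_step hq ih e

theorem size_small {q U : ℕ} {V : List (ℕ × List ℕ)} (h : Small q U V) :
    size (enc V) ≤ U * ((4 * U + 1) + (U * ((4 * size (enc q) + 1) + 1) + 1) + 1 + 1) + 1 := by
  refine (size_list_le V ((4 * U + 1) + (U * ((4 * size (enc q) + 1) + 1) + 1) + 1)
    fun p hp => ?_).trans ?_
  · obtain ⟨h1, h2, h3⟩ := h.2 p hp
    have e1 := size_nat_le p.1
    have e2 : size (enc p.2) ≤ U * ((4 * size (enc q) + 1) + 1) + 1 := by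
      refine (size_list_le p.2 (4 * size (enc q) + 1) fun x hx => ?_).trans ?_
      · exact size_nat_le_of_lt ((h3 x hx).trans (lt_two_pow_size q))
      · rw [h2]
    have e3 : size (enc p) = size (enc p.1) + size (enc p.2) + 1 := size_pair p.1 p.2
    omega
  · gcongr
    exact h.1

/-! ### polynomial time -/

section
variable {α : Type} [Enc α]

theorem pu_bound {U : α → ℕ} (hU : PU U) :
    ∃ T : ℕ → ℕ, PBd T ∧ ∀ a, U a ≤ T (size (enc a)) := by
  obtain ⟨T, h1, _, h3⟩ := PTime.size_le hU
  refine ⟨T, h1, fun a => ?_⟩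
  have e1 := length_le_size (List.replicate (U a) ())
  have e2 := h3 a
  rw [List.length_replicate] at e1
  omega

theorem ptime_pos1 {q : α → ℕ} (hq : PTime q) : PTime (fun a => pos1 (q a)) :=
  PTime.iteP (PTime.eq hq (PTime.const 0)) (PTime.const 1) hq

theorem dot_lt {q : ℕ} (hq : 0 < q) (l : List ℕ) (e v : List ℕ) :
    l.foldl (fun acc i => (acc + e.getD i 0 * v.getD i 0) % q) 0 < q := by
  induction l using List.reverseRecOn with
  | nil => exact hq
  | append_singleton l x ih =>
    rw [List.foldl_append]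
    exact Nat.mod_lt _ hq

theorem ptime_dot {q U : α → ℕ} {e v : α → List ℕ} (hq : PTime q) (hq0 : ∀ a, 0 < q a)
    (hU : PU U) (he : PTime e) (hv : PTime v) :
    PTime (fun a => dot (q a) (U a) (e a) (v a)) := by
  obtain ⟨Q, hQ, _, hQs⟩ := hq.size_le
  refine PTime.foldl (h := fun a acc i => (acc + (e a).getD i 0 * (v a).getD i 0) % q a)
    hU.range (PTime.const 0) ?_ (B := fun n => 4 * Q n + 1)
    (((PBd.const 4).mul hQ).add (PBd.const 1)) ?_
  · have e1 : PTime (fun p : α × (ℕ × ℕ) => p.2.1) := PTime.fst' PTime.snd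
    have e2 : PTime (fun p : α × (ℕ × ℕ) => p.2.2) := PTime.snd' PTime.snd
    exact ((e1.add ((PTime.listGetD (he.comp PTime.fst) e2 (PTime.const 0)).mul
      (PTime.listGetD (hv.comp PTime.fst) e2 (PTime.const 0)))).mod (hq.comp PTime.fst))
  · intro a l₁ l₂ _
    refine (size_nat_le_of_lt ((dot_lt (hq0 a) l₁ (e a) (v a)).trans
      (lt_two_pow_size (q a)))).trans ?_
    have := hQs a
    omega

theorem ptime_comb {q U c b : α → ℕ} {w v : α → List ℕ} (hq : PTime q) (hU : PU U)
    (hc : PTime c) (hb : PTime b) (hw : PTime w) (hv : PTime v) :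
    PTime (fun a => comb (q a) (U a) (c a) (b a) (w a) (v a)) := by
  refine PTime.map (g := fun a i => (c a * (w a).getD i 0 + (q a - b a) * (v a).getD i 0) % q a)
    hU.range ?_
  have hq' : PTime (fun p : α × ℕ => q p.1) := hq.comp PTime.fst
  have hi : PTime (fun p : α × ℕ => p.2) := PTime.snd
  exact (((hc.comp PTime.fst).mul (PTime.listGetD (hw.comp PTime.fst) hi (PTime.const 0))).add
    ((hq'.sub (hb.comp PTime.fst)).mul (PTime.listGetD (hv.comp PTime.fst) hi
      (PTime.const 0)))).mod hq'

theorem ptime_step {q U : α → ℕ} {V : α → List (ℕ × List ℕ)} {e : α → List ℕ} (hq : PTime q)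
    (hq0 : ∀ a, 0 < q a) (hU : PU U) (hV : PTime V) (he : PTime e) :
    PTime (fun a => step (q a) (U a) (V a) (e a)) := by
  have hd : PTime₂ (fun (a : α) (p : ℕ × List ℕ) =>
      decide (¬ dot (q a) (U a) (e a) p.2 = 0)) := by
    refine PTime.notP (PTime.eq ?_ (PTime.const 0))
    exact ptime_dot (α := α × (ℕ × List ℕ)) (hq.comp PTime.fst) (fun p => hq0 p.1)
      (hU.comp PTime.fst) (he.comp PTime.fst) (PTime.snd' PTime.snd)
  have hfind := PTime.find? hV hd
  have hmap : PTime (fun x : α × (ℕ × List ℕ) =>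
      ((V x.1).filter fun p => decide (¬ p.1 = x.2.1)).map fun p =>
        (p.1, comb (q x.1) (U x.1) (dot (q x.1) (U x.1) (e x.1) x.2.2)
          (dot (q x.1) (U x.1) (e x.1) p.2) p.2 x.2.2)) := by
    refine PTime.map (f := fun x : α × (ℕ × List ℕ) =>
        (V x.1).filter fun p => decide (¬ p.1 = x.2.1))
      (g := fun (x : α × (ℕ × List ℕ)) (p : ℕ × List ℕ) =>
        (p.1, comb (q x.1) (U x.1) (dot (q x.1) (U x.1) (e x.1) x.2.2)
          (dot (q x.1) (U x.1) (e x.1) p.2) p.2 x.2.2)) ?_ ?_
    · refine PTime.filter (f := fun x : α × (ℕ × List ℕ) => V x.1)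
        (g := fun (x : α × (ℕ × List ℕ)) (p : ℕ × List ℕ) => decide (¬ p.1 = x.2.1))
        (hV.comp PTime.fst) ?_
      exact PTime.notP (PTime.eq (PTime.fst' PTime.snd) (PTime.fst' (PTime.snd' PTime.fst)))
    · have a1 : PTime (fun z : (α × (ℕ × List ℕ)) × (ℕ × List ℕ) => z.1.1) :=
        PTime.fst' PTime.fst
      have a2 : PTime (fun z : (α × (ℕ × List ℕ)) × (ℕ × List ℕ) => z.1.2.2) :=
        PTime.snd' (PTime.snd' PTime.fst)
      have a3 : PTime (fun z : (α × (ℕ × List ℕ)) × (ℕ × List ℕ) => z.2.2) :=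
        PTime.snd' PTime.snd
      have a4 : PTime (fun z : (α × (ℕ × List ℕ)) × (ℕ × List ℕ) => z.2.1) :=
        PTime.fst' PTime.snd
      exact a4.pair (ptime_comb (hq.comp a1) (hU.comp a1)
        (ptime_dot (hq.comp a1) (fun z => hq0 z.1.1) (hU.comp a1) (he.comp a1) a2)
        (ptime_dot (hq.comp a1) (fun z => hq0 z.1.1) (hU.comp a1) (he.comp a1) a3) a3 a2)
  refine (PTime.option_cases hfind hV hmap).of_eq fun a => ?_
  unfold step
  cases (V a).find? (fun p => decide (¬ dot (q a) (U a) (e a) p.2 = 0)) <;> rfl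

theorem ptime_start {q U : α → ℕ} (hq : PTime q) (hU : PU U) :
    PTime (fun a => start (q a) (U a)) := by
  refine PTime.map (f := fun a => List.range (U a)) (g := fun (a : α) (j : ℕ) =>
    (j, (List.range (U a)).map fun i => (if i = j then 1 else 0) % q a)) hU.range ?_
  refine PTime.pair PTime.snd ?_
  refine PTime.map (f := fun x : α × ℕ => List.range (U x.1))
    (g := fun (x : α × ℕ) (i : ℕ) => (if i = x.2 then 1 else 0) % q x.1)
    (hU.comp PTime.fst).range ?_
  exact PTime.mod (PTime.iteP (PTime.eq PTime.snd (PTime.snd' PTime.fst)) (PTime.const 1)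
    (PTime.const 0)) (hq.comp (PTime.fst' PTime.fst))

theorem ptime_elim {q U : α → ℕ} {E : α → List (List ℕ)} (hq : PTime q)
    (hq0 : ∀ a, 0 < q a) (hU : PU U) (hE : PTime E) :
    PTime (fun a => elim (q a) (U a) (E a)) := by
  obtain ⟨Q, hQ, _, hQs⟩ := hq.size_le
  obtain ⟨T, hT, hTs⟩ := pu_bound hU
  refine PTime.foldl (h := fun a V e => step (q a) (U a) V e) hE (ptime_start hq hU) ?_
    (B := fun n => T n * ((4 * T n + 1) + (T n * ((4 * Q n + 1) + 1) + 1) + 1 + 1) + 1) ?_ ?_
  · exact ptime_step (hq.comp PTime.fst) (fun p => hq0 p.1) (hU.comp PTime.fst)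
      (PTime.fst' PTime.snd) (PTime.snd' PTime.snd)
  · have h1 := PBd.const 1
    have h4 := PBd.const 4
    exact (hT.mul ((((((h4.mul hT).add h1).add ((hT.mul (((h4.mul hQ).add h1).add h1)).add
      h1)).add h1)).add h1)).add h1
  · intro a l₁ l₂ _
    refine (size_small (small_elim (hq0 a) (U a) l₁)).trans ?_
    have e1 := hQs a
    have e2 := hTs a
    gcongr

theorem ptime_ker {q U : α → ℕ} {E : α → List (List ℕ)} (hq : PTime q) (hU : PU U)
    (hE : PTime E) : PTime (fun a => ker (q a) (U a) (E a)) := by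
  refine PTime.snd' (PTime.getD (PTime.head? (ptime_elim (ptime_pos1 hq) (fun a => ?_) hU hE))
    (PTime.const (0, [])))
  unfold pos1
  split <;> omega

end

/-! ### correctness -/

/-- entries modulo `q` -/
def ent (q : ℕ) (v : List ℕ) (i : ℕ) : ZMod q := (v.getD i 0 : ℕ)

theorem dot_cast (q U : ℕ) (e v : List ℕ) :
    ((dot q U e v : ℕ) : ZMod q) = ∑ i ∈ Finset.range U, ent q e i * ent q v i := by
  unfold dot
  induction U with
  | zero => simp
  | succ U ih =>
    rw [List.range_succ, List.foldl_append, Finset.sum_range_succ, ← ih]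
    simp [ent]

theorem dot_eq_zero {q : ℕ} (hq : 0 < q) (U : ℕ) (e v : List ℕ) :
    dot q U e v = 0 ↔ ∑ i ∈ Finset.range U, ent q e i * ent q v i = 0 := by
  rw [← dot_cast, ZMod.natCast_eq_zero_iff]
  constructor
  · intro h; rw [h]; exact dvd_zero q
  · exact fun h => Nat.eq_zero_of_dvd_of_lt h (dot_lt hq _ e v)

theorem comb_ent {q U a b : ℕ} (hb : b ≤ q) (w v : List ℕ) {i : ℕ} (hi : i < U) :
    ent q (comb q U a b w v) i = (a : ZMod q) * ent q w i - (b : ZMod q) * ent q v i := by
  have h : (comb q U a b w v).getD i 0 = (a * w.getD i 0 + (q - b) * v.getD i 0) % q := by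
    unfold comb
    rw [List.getD_eq_getElem?_getD, List.getElem?_map, List.getElem?_range hi]
    rfl
  unfold ent
  rw [h, ZMod.natCast_mod, Nat.cast_add, Nat.cast_mul, Nat.cast_mul, Nat.cast_sub hb,
    ZMod.natCast_self]
  ring

/-- invariant of the elimination: `Es` are the equations used so far -/
structure Inv (q U : ℕ) (Es : List (List ℕ)) (V : List (ℕ × List ℕ)) : Prop where
  nodup : (V.map Prod.fst).Nodup
  lt : ∀ p ∈ V, p.1 < U
  off : ∀ p ∈ V, ∀ p' ∈ V, p.1 ≠ p'.1 → ent q p.2 p'.1 = 0
  diag : ∀ p ∈ V, ent q p.2 p.1 ≠ 0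
  sol : ∀ p ∈ V, ∀ e ∈ Es, ∑ i ∈ Finset.range U, ent q e i * ent q p.2 i = 0
  len : U ≤ V.length + Es.length

theorem start_ent (q U : ℕ) (j : ℕ) {i : ℕ} (hi : i < U) :
    ent q ((List.range U).map fun i => (if i = j then 1 else 0) % q) i =
      if i = j then 1 else 0 := by
  unfold ent
  rw [List.getD_eq_getElem?_getD, List.getElem?_map, List.getElem?_range hi]
  simp only [Option.map_some, Option.getD_some, ZMod.natCast_mod]
  split <;> simp

theorem inv_start {q : ℕ} (hq : q.Prime) (U : ℕ) : Inv q U [] (start q U) := by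
  haveI : Fact q.Prime := ⟨hq⟩
  refine ⟨?_, ?_, ?_, ?_, ?_, ?_⟩
  · have : (start q U).map Prod.fst = List.range U := by
      unfold start
      rw [List.map_map]
      exact List.map_id _
    rw [this]
    exact List.nodup_range
  · intro p hp
    obtain ⟨j, hj, rfl⟩ := List.mem_map.1 hp
    exact List.mem_range.1 hj
  · intro p hp p' hp' hne
    obtain ⟨j, hj, rfl⟩ := List.mem_map.1 hp
    obtain ⟨j', hj', rfl⟩ := List.mem_map.1 hp'
    simp only at hne ⊢
    rw [start_ent q U j (List.mem_range.1 hj'), if_neg (fun h => hne h.symm)]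
  · intro p hp
    obtain ⟨j, hj, rfl⟩ := List.mem_map.1 hp
    simp only
    rw [start_ent q U j (List.mem_range.1 hj), if_pos rfl]
    exact one_ne_zero
  · intro p _ e he
    simp at he
  · simp [start]

theorem length_filter_fst {V : List (ℕ × List ℕ)} (h : (V.map Prod.fst).Nodup) (k : ℕ) :
    V.length ≤ (V.filter fun p => decide (¬ p.1 = k)).length + 1 := by
  induction V with
  | nil => simp
  | cons x V ih =>
    rw [List.map_cons, List.nodup_cons] at h
    by_cases hx : x.1 = k
    · have : V.filter (fun p => decide (¬ p.1 = k)) = V := by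
        rw [List.filter_eq_self]
        intro p hp
        have : p.1 ≠ k := by
          intro hk
          exact h.1 (List.mem_map.2 ⟨p, hp, by rw [hk, hx]⟩)
        simp [this]
      rw [List.filter_cons_of_neg (by simp [hx]), this, List.length_cons]
    · rw [List.filter_cons_of_pos (by simp [hx]), List.length_cons, List.length_cons]
      have := ih h.2
      omega

theorem inv_step {q : ℕ} (hq : q.Prime) {U : ℕ} {Es : List (List ℕ)}
    {V : List (ℕ × List ℕ)} (h : Inv q U Es V) (e : List ℕ) :
    Inv q U (Es ++ [e]) (step q U V e) := by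
  haveI : Fact q.Prime := ⟨hq⟩
  unfold step
  split
  · rename_i hn
    refine ⟨h.nodup, h.lt, h.off, h.diag, ?_, ?_⟩
    · intro p hp e' he'
      rcases List.mem_append.1 he' with he' | he'
      · exact h.sol p hp e' he'
      · rw [List.mem_singleton.1 he']
        have := List.find?_eq_none.1 hn p hp
        rw [← dot_eq_zero hq.pos]
        simpa using this
    · have := h.len
      rw [List.length_append]
      omega
  · rename_i p0 hs
    have hp0 : p0 ∈ V := List.mem_of_find?_eq_some hs
    have hd0 : ¬ dot q U e p0.2 = 0 := by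
      have := List.find?_some hs
      simpa using this
    have hd0' : ((dot q U e p0.2 : ℕ) : ZMod q) ≠ 0 := by
      intro h0
      exact hd0 ((dot_eq_zero hq.pos U e p0.2).2 (by rw [← dot_cast]; exact h0))
    have hle : ∀ v, dot q U e v ≤ q := fun v => (dot_lt hq.pos _ e v).le
    refine ⟨?_, ?_, ?_, ?_, ?_, ?_⟩
    · rw [List.map_map]
      exact (List.Sublist.map Prod.fst List.filter_sublist).nodup h.nodup
    · intro p hp
      obtain ⟨p', hp', rfl⟩ := List.mem_map.1 hp
      exact h.lt p' (List.mem_filter.1 hp').1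
    · intro p hp r hr hne
      obtain ⟨p', hp', rfl⟩ := List.mem_map.1 hp
      obtain ⟨r', hr', rfl⟩ := List.mem_map.1 hr
      obtain ⟨hpV, _⟩ := List.mem_filter.1 hp'
      obtain ⟨hrV, hr0⟩ := List.mem_filter.1 hr'
      have hr0' : r'.1 ≠ p0.1 := by simpa using hr0
      simp only at hne ⊢
      rw [comb_ent (hle _) _ _ (h.lt r' hrV), h.off p' hpV r' hrV hne,
        h.off p0 hp0 r' hrV (fun h => hr0' h.symm)]
      ring
    · intro p hp
      obtain ⟨p', hp', rfl⟩ := List.mem_map.1 hp
      obtain ⟨hpV, hr0⟩ := List.mem_filter.1 hp'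
      have hr0' : p'.1 ≠ p0.1 := by simpa using hr0
      simp only
      rw [comb_ent (hle _) _ _ (h.lt p' hpV), h.off p0 hp0 p' hpV (fun h => hr0' h.symm),
        mul_zero, sub_zero]
      exact mul_ne_zero hd0' (h.diag p' hpV)
    · intro p hp e' he'
      obtain ⟨p', hp', rfl⟩ := List.mem_map.1 hp
      obtain ⟨hpV, _⟩ := List.mem_filter.1 hp'
      simp only
      have key : ∑ i ∈ Finset.range U, ent q e' i *
          ent q (comb q U (dot q U e p0.2) (dot q U e p'.2) p'.2 p0.2) i =
          ((dot q U e p0.2 : ℕ) : ZMod q) * (∑ i ∈ Finset.range U, ent q e' i * ent q p'.2 i) -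
          ((dot q U e p'.2 : ℕ) : ZMod q) * (∑ i ∈ Finset.range U, ent q e' i * ent q p0.2 i) := by
        rw [Finset.mul_sum, Finset.mul_sum, ← Finset.sum_sub_distrib]
        refine Finset.sum_congr rfl fun i hi => ?_
        rw [comb_ent (hle _) _ _ (Finset.mem_range.1 hi)]
        ring
      rw [key]
      rcases List.mem_append.1 he' with he' | he'
      · rw [h.sol p' hpV e' he', h.sol p0 hp0 e' he']
        ring
      · rw [List.mem_singleton.1 he', ← dot_cast, ← dot_cast]
        ring
    · have h1 := length_filter_fst h.nodup p0.1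
      have h2 := h.len
      rw [List.length_map, List.length_append, List.length_singleton]
      omega

theorem inv_elim {q : ℕ} (hq : q.Prime) (U : ℕ) (E : List (List ℕ)) :
    Inv q U E (elim q U E) := by
  unfold elim
  induction E using List.reverseRecOn with
  | nil => exact inv_start hq U
  | append_singleton l e ih =>
    rw [List.foldl_append]
    exact inv_step hq ih e

theorem ker_spec (q U : ℕ) (E : List (List ℕ)) (hq : q.Prime) (hE : E.length < U) :
    (∃ i < U, (ker q U E).getD i 0 % q ≠ 0) ∧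
      ∀ e ∈ E, (∑ i ∈ Finset.range U, e.getD i 0 * (ker q U E).getD i 0) % q = 0 := by
  haveI : Fact q.Prime := ⟨hq⟩
  have hp : pos1 q = q := if_neg hq.ne_zero
  have h := inv_elim hq U E
  unfold ker
  rw [hp]
  cases hV : elim q U E with
  | nil =>
    rw [hV] at h
    have := h.len
    simp at this
    omega
  | cons p V =>
    rw [hV] at h
    have hpm : p ∈ p :: V := List.mem_cons_self
    simp only [List.head?_cons, Option.getD_some]
    refine ⟨⟨p.1, h.lt p hpm, ?_⟩, fun e he => ?_⟩
    · intro h0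
      refine h.diag p hpm ?_
      unfold ent
      rw [ZMod.natCast_eq_zero_iff]
      exact Nat.dvd_of_mod_eq_zero h0
    · have := h.sol p hpm e he
      refine Nat.mod_eq_zero_of_dvd ?_
      rw [← ZMod.natCast_eq_zero_iff, Nat.cast_sum]
      rw [← this]
      refine Finset.sum_congr rfl fun i _ => ?_
      rw [Nat.cast_mul]
      rfl

end Pool.Agent.MPa0a715.WM.Lin

namespace Pool.Agent.MPa0a715.WM

theorem linStmt : LinStmt :=
  ⟨Lin.ker, fun _ _ _ hq hU hE => Lin.ptime_ker hq hU hE, Lin.ker_spec⟩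

end Pool.Agent.MPa0a715.WM
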