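import Pool.Agent.Lib.MP_a0a715_lc_NB.Defs
import Pool.Agent.Lib.MP_a0a715_lc.Easy

/-!
# Many inputs have few better neighbours

If fewer than `r` neighbours of `v` are better only for `v` in `A`, then `A` is large: polynomials
`P v` of degree less than `r`, with `P v` and `P (v + i)` equal at `i`, are all zero if those with
`v` in `A` are zero.
-/

namespace Pool.Agent.MPa0a715.WM.B

open Polynomial Pool.Agent.MPa0a715

variable {n r : ℕ}

/-- the product of `X - i` over the set -/
noncomputable def pr (S : Finset (Fin n)) : ℚ[X] := ∏ i ∈ S, (X - C ((i : ℕ) : ℚ))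

/-- the polynomials of the vertices -/
noncomputable def PP (Q : Finset (Fin n) → ℚ[X]) (v : Finset (Fin n)) : ℚ[X] :=
  ∑ S ∈ v.powerset, Q S * pr S

theorem eval_insert (Q : Finset (Fin n) → ℚ[X]) {v : Finset (Fin n)} {i : Fin n} (hi : i ∉ v) :
    (PP Q (insert i v)).eval ((i : ℕ) : ℚ) = (PP Q v).eval ((i : ℕ) : ℚ) := by
  unfold PP
  rw [Finset.sum_powerset_insert hi, eval_add, eval_finsetSum (s := v.powerset)
    (g := fun S => Q (insert i S) * pr (insert i S)), add_eq_left]
  refine Finset.sum_eq_zero fun S hS => ?_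
  rw [Finset.mem_powerset] at hS
  unfold pr
  rw [eval_mul, Finset.prod_insert (fun h => hi (hS h)), eval_mul, eval_sub, eval_X, eval_C,
    sub_self, zero_mul, mul_zero]

theorem eval_symmDiff (Q : Finset (Fin n) → ℚ[X]) (v : Finset (Fin n)) (i : Fin n) :
    (PP Q (symmDiff v {i})).eval ((i : ℕ) : ℚ) = (PP Q v).eval ((i : ℕ) : ℚ) := by
  by_cases hi : i ∈ v
  · have h1 : v = insert i (symmDiff v {i}) := by
      ext j
      rw [Finset.mem_insert, Finset.mem_symmDiff, Finset.mem_singleton]
      by_cases hj : j = i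
      · subst hj
        simp [hi]
      · simp [hj]
    have h2 : i ∉ symmDiff v {i} := by
      rw [Finset.mem_symmDiff, Finset.mem_singleton]
      simp [hi]
    conv_rhs => rw [h1]
    rw [eval_insert Q h2]
  · have h1 : symmDiff v {i} = insert i v := by
      ext j
      rw [Finset.mem_insert, Finset.mem_symmDiff, Finset.mem_singleton]
      by_cases hj : j = i
      · subst hj
        simp [hi]
      · simp [hj]
    rw [h1, eval_insert Q hi]

theorem degree_PP {Q : Finset (Fin n) → ℚ[X]} (hQ : ∀ S, Q S ∈ degreeLT ℚ (r - S.card))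
    (v : Finset (Fin n)) : PP Q v ∈ degreeLT ℚ r := by
  unfold PP
  refine Submodule.sum_mem _ fun S _ => ?_
  have h1 := hQ S
  rw [mem_degreeLT] at h1 ⊢
  by_cases h0 : Q S = 0
  · rw [h0, zero_mul, degree_zero]
    exact WithBot.bot_lt_coe r
  · have h2 : (Q S).natDegree < r - S.card := (natDegree_lt_iff_degree_lt h0).2 h1
    have h3 : (pr S).natDegree ≤ S.card := by
      unfold pr
      refine (natDegree_prod_le _ _).trans ?_
      refine (Finset.sum_le_card_nsmul _ _ 1 fun i _ => ?_).trans (by simp)
      exact (natDegree_X_sub_C _).le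
    have h4 : (Q S * pr S).natDegree < r := by
      have := natDegree_mul_le (p := Q S) (q := pr S)
      omega
    exact degree_le_natDegree.trans_lt (by exact_mod_cast h4)

theorem pr_ne_zero (S : Finset (Fin n)) : pr S ≠ 0 :=
  Finset.prod_ne_zero_iff.2 fun _ _ => X_sub_C_ne_zero _

theorem eq_zero_of_PP {Q : Finset (Fin n) → ℚ[X]} (h : ∀ v, PP Q v = 0) (S : Finset (Fin n)) :
    Q S = 0 := by
  induction S using Finset.strongInduction with
  | H S ih =>
    have h1 := h S
    unfold PP at h1
    rw [← Finset.add_sum_erase _ _ (Finset.mem_powerset_self S)] at h1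
    have h2 : ∑ T ∈ S.powerset.erase S, Q T * pr T = 0 := by
      refine Finset.sum_eq_zero fun T hT => ?_
      rw [Finset.mem_erase, Finset.mem_powerset] at hT
      rw [ih T (lt_of_le_of_ne hT.2 hT.1), zero_mul]
    rw [h2, add_zero] at h1
    exact (mul_eq_zero.1 h1).resolve_right (pr_ne_zero S)

/-- the directions in which the function decreases -/
def out (c : Finset (Fin n) → ℕ) (v : Finset (Fin n)) : Finset (Fin n) :=
  Finset.univ.filter fun i => c (symmDiff v {i}) < c v

theorem PP_zero {c : Finset (Fin n) → ℕ} {Q : Finset (Fin n) → ℚ[X]}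
    (hQ : ∀ S, Q S ∈ degreeLT ℚ (r - S.card)) (h : ∀ v, (out c v).card < r → PP Q v = 0) :
    ∀ v, PP Q v = 0 := by
  have key : ∀ k, ∀ v, c v = k → PP Q v = 0 := by
    intro k
    induction k using Nat.strong_induction_on with
    | _ k ih =>
      intro v hv
      by_cases hr : (out c v).card < r
      · exact h v hr
      · have h1 := mem_degreeLT.1 (degree_PP hQ v)
        refine eq_zero_of_degree_lt_of_eval_finset_eq_zero
          ((out c v).image fun i : Fin n => ((i : ℕ) : ℚ)) ?_ ?_
        · rw [Finset.card_image_of_injective _ fun i j hij => by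
            exact Fin.val_injective (Nat.cast_injective hij)]
          exact h1.trans_le (by exact_mod_cast not_lt.1 hr)
        · intro x hx
          rw [Finset.mem_image] at hx
          obtain ⟨i, hi, rfl⟩ := hx
          unfold out at hi
          rw [Finset.mem_filter] at hi
          rw [← eval_symmDiff, ih _ (hv ▸ hi.2) _ rfl, eval_zero]
  exact fun v => key _ v rfl

/-- the linear map -/
noncomputable def Phi (A : Finset (Finset (Fin n))) (r : ℕ) :
    ((S : Finset (Fin n)) → degreeLT ℚ (r - S.card)) →ₗ[ℚ] (A → degreeLT ℚ r) where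
  toFun Q v := ⟨PP (fun S => (Q S : ℚ[X])) v, degree_PP (fun S => (Q S).2) _⟩
  map_add' Q Q' := by
    ext1 v
    apply Subtype.ext
    unfold PP
    simp [add_mul, Finset.sum_add_distrib]
  map_smul' a Q := by
    ext1 v
    apply Subtype.ext
    unfold PP
    simp [Finset.smul_sum]

theorem finrank_degreeLT (k : ℕ) : Module.finrank ℚ (degreeLT ℚ k) = k := by
  rw [(degreeLTEquiv ℚ k).finrank_eq, Module.finrank_fin_fun]

theorem perc (c : Finset (Fin n) → ℕ) (r : ℕ) :
    ∑ S : Finset (Fin n), (r - S.card) ≤
      r * (Finset.univ.filter fun v => (out c v).card < r).card := by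
  set A := Finset.univ.filter fun v => (out c v).card < r with hA
  have h1 : Function.Injective (Phi A r) := by
    rw [← LinearMap.ker_eq_bot, LinearMap.ker_eq_bot']
    intro Q hQ
    have h2 : ∀ v, PP (fun S => (Q S : ℚ[X])) v = 0 := by
      refine PP_zero (c := c) (r := r) (fun S => (Q S).2) fun v hv => ?_
      have h3 := congrFun hQ ⟨v, by rw [hA, Finset.mem_filter]; exact ⟨Finset.mem_univ _, hv⟩⟩
      exact congrArg Subtype.val h3
    ext1 S
    exact Subtype.ext (eq_zero_of_PP h2 S)
  have : ∀ k, Module.Finite ℚ (degreeLT ℚ k) := fun k =>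
    Module.Finite.equiv (degreeLTEquiv ℚ k).symm
  have h2 := LinearMap.finrank_le_finrank_of_injective h1
  rw [Module.finrank_pi_fintype, Module.finrank_pi_fintype] at h2
  simp only [finrank_degreeLT] at h2
  rw [Finset.sum_const, Finset.card_univ, Fintype.card_coe, smul_eq_mul] at h2
  rw [mul_comm]
  exact h2

/-- the number of pairs of a polynomial coefficient and a set -/
theorem sum_sub_card (n r : ℕ) :
    ∑ S : Finset (Fin n), (r - S.card) = ∑ j ∈ Finset.range r, (r - j) * n.choose j := by
  have h1 := Finset.sum_powerset_apply_card (fun j => r - j) (x := (Finset.univ : Finset (Fin n)))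
  rw [Finset.powerset_univ, Finset.card_univ, Fintype.card_fin] at h1
  rw [h1]
  simp only [smul_eq_mul]
  -- both sums are over `j < max r (n + 1)`
  have h2 : ∑ j ∈ Finset.range (n + 1), n.choose j * (r - j) =
      ∑ j ∈ Finset.range (max r (n + 1)), n.choose j * (r - j) := by
    refine Finset.sum_subset (Finset.range_mono (le_max_right _ _)) fun j _ hj => ?_
    rw [Finset.mem_range] at hj
    rw [Nat.choose_eq_zero_of_lt (by omega), Nat.zero_mul]
  have h3 : ∑ j ∈ Finset.range r, (r - j) * n.choose j =
      ∑ j ∈ Finset.range (max r (n + 1)), (r - j) * n.choose j := by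
    refine Finset.sum_subset (Finset.range_mono (le_max_left _ _)) fun j _ hj => ?_
    rw [Finset.mem_range] at hj
    rw [show r - j = 0 by omega, Nat.zero_mul]
  rw [h2, h3]
  exact Finset.sum_congr rfl fun j _ => Nat.mul_comm _ _

/-! ### circuits -/

/-- the list of a set -/
def wd (S : Finset (Fin n)) : List Bool := List.ofFn fun i => decide (i ∈ S)

theorem getD_ofFn (f : Fin n → Bool) {j : ℕ} (hj : j < n) :
    (List.ofFn f).getD j false = f ⟨j, hj⟩ := by
  rw [List.getD_eq_getElem _ _ (by rw [List.length_ofFn]; exact hj), List.getElem_ofFn]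

theorem wd_flip (S : Finset (Fin n)) (i : Fin n) : flip (wd S) i = wd (symmDiff S {i}) := by
  unfold wd
  refine ext_getD (by rw [length_flip, List.length_ofFn, List.length_ofFn]) fun j hj => ?_
  rw [length_flip, List.length_ofFn] at hj
  rw [getD_flip _ _ _ (by rw [List.length_ofFn]; exact hj), getD_ofFn _ hj, getD_ofFn _ hj]
  by_cases h : (i : ℕ) = j
  · subst h
    rw [if_pos rfl]
    by_cases h1 : i ∈ S <;> simp [Finset.mem_symmDiff, h1]
  · rw [if_neg h]
    have h2 : (⟨j, hj⟩ : Fin n) ≠ i := fun h' => h (congrArg Fin.val h').symm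
    simp [Finset.mem_symmDiff, h2]

/-- the number of inputs with fewer than `r` better neighbours -/
theorem count (C : Circuit) (r : ℕ) :
    ∑ j ∈ Finset.range r, (r - j) * C.n.choose j ≤
      r * ((Finset.univ : Finset (Fin C.n → Bool)).filter fun v =>
        (C.better (List.ofFn v)).card < r).card := by
  rw [← sum_sub_card]
  refine (perc (fun S : Finset (Fin C.n) => C.cost (wd S)) r).trans
    (Nat.mul_le_mul_left _ ?_)
  refine Finset.card_le_card_of_injOn (fun S i => decide (i ∈ S)) ?_ ?_
  · intro S hS
    rw [Finset.mem_coe, Finset.mem_filter] at hS ⊢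
    refine ⟨Finset.mem_univ _, lt_of_le_of_lt ?_ hS.2⟩
    refine (Finset.card_le_card (t := (out (fun S => C.cost (wd S)) S).image Fin.val)
      fun i hi => ?_).trans Finset.card_image_le
    unfold Circuit.better at hi
    rw [Finset.mem_filter, Finset.mem_range] at hi
    rw [Finset.mem_image]
    refine ⟨⟨i, hi.1⟩, ?_, rfl⟩
    unfold out
    rw [Finset.mem_filter]
    refine ⟨Finset.mem_univ _, ?_⟩
    have h1 := wd_flip S ⟨i, hi.1⟩
    dsimp only at h1 ⊢
    rw [← h1]
    exact hi.2
  · intro S _ S' _ h
    ext i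
    have := congrFun h i
    dsimp only at this
    rwa [decide_eq_decide] at this

end Pool.Agent.MPa0a715.WM.B
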