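import Pool.Agent.Lib.MP_a0a715_lc_WM.Defs
import Pool.Agent.Lib.MP_a0a715_lc_NB.Sem

/-!
# The potential
-/

namespace Pool.Agent.MPa0a715.WM.A

open Pool.Agent.MPa0a715 Pool.Agent.PolyTime
open Pool.Agent.MPa0a715.IN (fl)

/-- number of positions below `N` in which two words differ -/
def dist (N : ℕ) (u v : ℕ → Bool) : ℕ := ((Finset.range N).filter fun p => u p ≠ v p).card

/-- `z` is correlated with `w` -/
def Holds (R N : ℕ) (z w : ℕ → Bool) : Prop := (R + 1) * N ≤ 2 * R * agr N z w

theorem agr_add_dist (N : ℕ) (u v : ℕ → Bool) : agr N u v + dist N u v = N := by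
  unfold agr dist
  rw [Finset.card_filter_add_card_filter_not, Finset.card_range]

theorem dist_le (N : ℕ) (u v : ℕ → Bool) : dist N u v ≤ N := by
  have := agr_add_dist N u v
  omega

theorem agr_congr {N : ℕ} {u v v' : ℕ → Bool} (h : ∀ p < N, v p = v' p) :
    agr N u v = agr N u v' := by
  unfold agr
  congr 1
  refine Finset.filter_congr fun p hp => ?_
  rw [h p (Finset.mem_range.1 hp)]

theorem dist_fl {N : ℕ} {z v : ℕ → Bool} {p : ℕ} (hp : p < N) (h : z p ≠ v p) :
    dist N (fl z p) v + 1 = dist N z v := by
  unfold dist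
  have h1 : ((Finset.range N).filter fun i => z i ≠ v i) =
      insert p ((Finset.range N).filter fun i => fl z p i ≠ v i) := by
    ext i
    rw [Finset.mem_insert, Finset.mem_filter, Finset.mem_filter, Finset.mem_range]
    by_cases hip : i = p
    · subst hip
      exact ⟨fun _ => Or.inl rfl, fun _ => ⟨hp, h⟩⟩
    · have : fl z p i = z i := by
        unfold fl
        rw [if_neg hip]
      rw [this]
      exact ⟨fun h => Or.inr h, fun h => h.resolve_left hip⟩
  have h2 : p ∉ ((Finset.range N).filter fun i => fl z p i ≠ v i) := by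
    rw [Finset.mem_filter]
    rintro ⟨_, h3⟩
    apply h3
    unfold fl
    rw [if_pos rfl]
    revert h
    cases z p <;> cases v p <;> simp
  rw [h1, Finset.card_insert_of_notMem h2]

theorem holds_fl {R N : ℕ} {z v : ℕ → Bool} {p : ℕ} (hp : p < N) (h : z p ≠ v p)
    (hz : Holds R N z v) : Holds R N (fl z p) v := by
  have h1 := agr_add_dist N z v
  have h2 := agr_add_dist N (fl z p) v
  have h3 := dist_fl hp h
  unfold Holds at *
  refine hz.trans (Nat.mul_le_mul_left _ ?_)
  omega

theorem far {R N : ℕ} {z v : ℕ → Bool} (h : ¬ Holds R N z v) :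
    R * N < 2 * R * dist N z v + N := by
  unfold Holds at h
  have h1 := agr_add_dist N z v
  have h2 : 2 * R * (agr N z v + dist N z v) = 2 * R * N := by rw [h1]
  have h3 : 2 * R * N = R * N + R * N := by ring
  have h4 : (R + 1) * N = R * N + N := by ring
  rw [Nat.mul_add] at h2
  omega

/-- Many flips decrease the cost. -/
theorem pot {St : Type} {N R d big : ℕ} {w nxt : St → ℕ → Bool} {key : St → ℕ}
    {fin : St → Prop} {s0 : St} (hs0 : ∀ p < N, w s0 p = false)
    (hclose : ∀ s, dist N (w s) (nxt s) ≤ d)
    (hnext : ∀ s, ¬ fin s → ∃ s', (∀ p < N, w s' p = nxt s p) ∧ key s' < key s)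
    {cost : (ℕ → Bool) → ℕ}
    (h1 : ∀ z s, Holds R N z (w s) → cost z ≤ key s * (N + 1) + dist N z (nxt s))
    (h2 : ∀ z, cost z ≤ big + dist N z (fun _ => false)) {z : ℕ → Bool}
    (h3 : ((∀ s, ¬ Holds R N z (w s)) ∧ cost z = big + dist N z (fun _ => false)) ∨
      ∃ s, Holds R N z (w s) ∧ cost z = key s * (N + 1) + dist N z (nxt s) ∧ ¬ fin s) :
    R * N < 2 * R * (((Finset.range N).filter fun p => cost (fl z p) < cost z).card + d) + N := by
  rcases h3 with ⟨h3, h4⟩ | ⟨s, h3, h4, h5⟩
  · have h5 : ¬ Holds R N z (fun _ => false) := by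
      intro hcon
      apply h3 s0
      unfold Holds at hcon ⊢
      rwa [agr_congr (v' := fun _ => false) hs0]
    have h6 := far h5
    have h7 : dist N z (fun _ => false) ≤
        ((Finset.range N).filter fun p => cost (fl z p) < cost z).card := by
      refine Finset.card_le_card fun p hp => ?_
      rw [Finset.mem_filter] at hp ⊢
      refine ⟨hp.1, ?_⟩
      have h8 := dist_fl (v := fun _ => false) (Finset.mem_range.1 hp.1) hp.2
      have h9 := h2 (fl z p)
      omega
    have h8 := Nat.mul_le_mul_left (2 * R) (h7.trans (Nat.le_add_right _ d))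
    omega
  · -- the next word is not held
    have h6 : ¬ Holds R N z (nxt s) := by
      intro hcon
      obtain ⟨s', h7, h8⟩ := hnext s h5
      have h9 : Holds R N z (w s') := by
        unfold Holds at hcon ⊢
        rwa [agr_congr h7]
      have h10 := h1 z s' h9
      have h11 := dist_le N z (nxt s')
      have h12 : (key s' + 1) * (N + 1) ≤ key s * (N + 1) := Nat.mul_le_mul_right _ h8
      rw [Nat.add_mul, Nat.one_mul] at h12
      omega
    have h7 := far h6
    have h8 : dist N z (nxt s) ≤
        ((Finset.range N).filter fun p => cost (fl z p) < cost z).card + dist N (w s) (nxt s) := by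
      unfold dist
      refine (Finset.card_le_card (t := ((Finset.range N).filter fun p =>
        cost (fl z p) < cost z) ∪ ((Finset.range N).filter fun p => w s p ≠ nxt s p))
        fun p hp => ?_).trans (Finset.card_union_le _ _)
      rw [Finset.mem_union, Finset.mem_filter, Finset.mem_filter]
      rw [Finset.mem_filter] at hp
      by_cases h9 : w s p = nxt s p
      · left
        refine ⟨hp.1, ?_⟩
        have hp' := Finset.mem_range.1 hp.1
        have h10 := dist_fl hp' hp.2
        have h11 := h1 (fl z p) s (holds_fl hp' (by rw [h9]; exact hp.2) h3)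
        omega
      · exact Or.inr ⟨hp.1, h9⟩
    have h9 := hclose s
    have h10 := Nat.mul_le_mul_left (2 * R) (h8.trans (Nat.add_le_add_left h9 _))
    omega

end Pool.Agent.MPa0a715.WM.A
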