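import Pool.Agent.Lib.MP_a0a715_lc_WM.Stmts
import Mathlib.NumberTheory.Bertrand

/-!
# Module PRIME: a prime between `m` and `2 m`, computed in unary in polynomial time
-/

namespace Pool.Agent.MPa0a715.WM

open Pool.Agent.MPa0a715 Pool.Agent.PolyTime

/-- trial division by the numbers below `L` -/
def prTest (L k : ℕ) : Bool :=
  decide (2 ≤ k) && (List.range L).all fun d => decide (d < 2) || decide (k ≤ d) ||
    !(decide (k % d = 0))

/-- the first prime number between `m` and `2 m` -/
def pr (m : ℕ) : ℕ :=
  ((List.range (2 * m + 1)).find? fun k => decide (m < k) && prTest (2 * m + 1) k).getD 0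

theorem prTest_iff {L k : ℕ} (h : k ≤ L) : prTest L k = true ↔ k.Prime := by
  unfold prTest
  rw [Nat.prime_def_lt']
  simp only [Bool.and_eq_true, decide_eq_true_eq, List.all_eq_true, List.mem_range,
    Bool.or_eq_true, Bool.not_eq_true', decide_eq_false_iff_not]
  refine and_congr_right fun _ => ⟨fun H d h2 hd hdvd => ?_, fun H d hd => ?_⟩
  · rcases H d (lt_of_lt_of_le hd h) with (h' | h') | h'
    · omega
    · omega
    · exact h' (Nat.mod_eq_zero_of_dvd hdvd)
  · by_cases h1 : d < 2
    · exact Or.inl (Or.inl h1)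
    by_cases h2 : k ≤ d
    · exact Or.inl (Or.inr h2)
    refine Or.inr fun h3 => H d (by omega) (by omega) (Nat.dvd_of_mod_eq_zero h3)

theorem pr_spec {m : ℕ} (hm : 0 < m) : (pr m).Prime ∧ m < pr m ∧ pr m ≤ 2 * m := by
  obtain ⟨p, hp, h1, h2⟩ := Nat.exists_prime_lt_and_le_two_mul m (by omega)
  have hex : ∃ q, ((List.range (2 * m + 1)).find? fun k => decide (m < k) &&
      prTest (2 * m + 1) k) = some q := by
    rw [← Option.isSome_iff_exists, List.find?_isSome]
    exact ⟨p, List.mem_range.2 (by omega), by
      rw [(prTest_iff (by omega)).2 hp]; simpa using h1⟩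
  obtain ⟨q, hq⟩ := hex
  have hmem := List.mem_range.1 (List.mem_of_find?_eq_some hq)
  have htest := List.find?_some hq
  rw [Bool.and_eq_true, decide_eq_true_eq] at htest
  have e : pr m = q := by unfold pr; rw [hq]; rfl
  rw [e]
  exact ⟨(prTest_iff (by omega)).1 htest.2, htest.1, by omega⟩

theorem pr_lt (m : ℕ) : pr m < 2 * m + 1 := by
  unfold pr
  cases h : ((List.range (2 * m + 1)).find? fun k => decide (m < k) && prTest (2 * m + 1) k) with
  | none => simp
  | some q => simpa using List.mem_range.1 (List.mem_of_find?_eq_some h)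

section
variable {α : Type} [Enc α]

theorem ptime_prTest {k : α → ℕ} {L : α → ℕ} (hL : PU L) (hk : PTime k) :
    PTime (fun a => prTest (L a) (k a)) := by
  have hk' : PTime (fun p : α × ℕ => k p.1) := hk.comp PTime.fst
  have hd : PTime (fun p : α × ℕ => p.2) := PTime.snd
  refine PTime.and (PTime.le (PTime.const 2) hk) (PTime.all
    (g := fun (a : α) (d : ℕ) => decide (d < 2) || decide (k a ≤ d) || !(decide (k a % d = 0)))
    hL.range ?_)
  exact PTime.or (PTime.or (PTime.lt hd (PTime.const 2)) (PTime.le hk' hd))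
    (PTime.not (PTime.eq (hk'.mod hd) (PTime.const 0)))

theorem pu_pr {m : α → ℕ} (hm : PU m) : PU (fun a => pr (m a)) := by
  have hL : PU (fun a => 2 * m a + 1) := ((PU.const 2).mul hm).add (PU.const 1)
  have hL' : PU (fun p : α × ℕ => 2 * m p.1 + 1) := hL.comp PTime.fst
  have hm' : PTime (fun p : α × ℕ => m p.1) := hm.toNat.comp PTime.fst
  have hd : PTime (fun p : α × ℕ => p.2) := PTime.snd
  have h1 : PTime (fun a => pr (m a)) := by
    refine PTime.getD (PTime.find? (g := fun (a : α) (k : ℕ) => decide (m a < k) &&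
      prTest (2 * m a + 1) k) hL.range ?_) (PTime.const 0)
    exact PTime.and (PTime.lt hm' hd) (ptime_prTest hL' hd)
  have h2 : PU (fun a => ((List.range (2 * m a + 1)).filter fun k => decide (k < pr (m a))).length) :=
    PU.ofLength (PTime.filter (g := fun (a : α) (k : ℕ) => decide (k < pr (m a))) hL.range
      (PTime.lt hd (h1.comp PTime.fst)))
  refine h2.of_eq fun a => ?_
  have h3 := pr_lt (m a)
  rw [← List.countP_eq_length_filter]
  obtain ⟨t, ht⟩ : ∃ t, 2 * m a + 1 = pr (m a) + t := ⟨2 * m a + 1 - pr (m a), by omega⟩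
  rw [ht, List.range_add, List.countP_append, List.countP_map]
  have e1 : (List.range (pr (m a))).countP (fun k => decide (k < pr (m a))) = pr (m a) := by
    conv_rhs => rw [← List.length_range (n := pr (m a))]
    rw [List.countP_eq_length]
    intro k hk
    simpa using hk
  have e2 : (List.range t).countP ((fun k => decide (k < pr (m a))) ∘ fun x => pr (m a) + x) = 0 := by
    rw [List.countP_eq_zero]
    intro k _
    simp
  rw [e1, e2, add_zero]

end

theorem primeStmt : PrimeStmt :=
  ⟨pr, fun _ hm => pu_pr hm, fun _ hm => pr_spec hm⟩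

end Pool.Agent.MPa0a715.WM
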