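import Pool.Agent.Lib.MP_a0a715_lc_WM.Dec
import Pool.Agent.Lib.MP_a0a715_lc_IN.EasyIN

/-!
# The cost function of the reduction
-/

namespace Pool.Agent.MPa0a715.WM.A

open Pool.Agent.MPa0a715 Pool.Agent.PolyTime
open Pool.Agent.MPa0a715.IN (fl step step_cases length_step)

/-! ### parameters -/

/-- quality -/
def RR (c n : ℕ) : ℕ := (n + c + 2) ^ (c + 1)
/-- number of levels -/
def HH (c n : ℕ) : ℕ := Nat.size (4 * RR c n)
/-- the parameter of the decoder -/
def vv (c n : ℕ) : ℕ := 8 * RR c n * (HH c n + 1)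
/-- the prime number -/
def qq (T : Tools) (c n : ℕ) : ℕ := T.pr (8 * (n + 1) * vv c n ^ 2)
/-- number of bits of a symbol -/
def ll (T : Tools) (c n : ℕ) : ℕ := Nat.size (qq T c n)
/-- number of bits of a solution -/
def NN (T : Tools) (c n : ℕ) : ℕ := qq T c n * 2 ^ ll T c n

theorem RR_ge (c n : ℕ) : n + c + 2 ≤ RR c n := Nat.le_self_pow (by omega) _

theorem RR_pos (c n : ℕ) : 0 < RR c n := by
  have := RR_ge c n
  omega

theorem HH_spec (c n : ℕ) : 4 * RR c n ≤ 2 ^ HH c n := (Nat.lt_size_self _).le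

theorem vv_pos (c n : ℕ) : 0 < vv c n := by
  have := RR_pos c n
  unfold vv
  positivity

theorem pow_HH_le (c n : ℕ) : 2 ^ HH c n ≤ 8 * RR c n := by
  have h0 := RR_pos c n
  have h1 : 0 < HH c n := Nat.size_pos.2 (by omega)
  have h2 : 2 ^ (HH c n - 1) ≤ 4 * RR c n := Nat.lt_size.1 (by
    unfold HH at h1 ⊢
    omega)
  have h3 : 2 ^ HH c n = 2 * 2 ^ (HH c n - 1) := by
    rw [← pow_succ']
    congr 1
    omega
  omega

theorem qq_spec (T : Tools) (c n : ℕ) : (qq T c n).Prime ∧ 8 * (n + 1) * vv c n ^ 2 < qq T c n ∧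
    qq T c n ≤ 2 * (8 * (n + 1) * vv c n ^ 2) := by
  have h := vv_pos c n
  exact T.pr_spec _ (by positivity)

theorem qq_pos (T : Tools) (c n : ℕ) : 0 < qq T c n := (qq_spec T c n).1.pos

theorem params_ok (T : Tools) (c n : ℕ) : OK (vv c n) (qq T c n) (ll T c n) n :=
  ⟨(qq_spec T c n).1, (Nat.lt_size_self _).le, vv_pos c n, (qq_spec T c n).2.1⟩

theorem pow_ll_le (T : Tools) (c n : ℕ) : 2 ^ ll T c n ≤ 2 * qq T c n := by
  have h1 : 0 < ll T c n := Nat.size_pos.2 (qq_pos T c n)
  have h2 : 2 ^ (ll T c n - 1) ≤ qq T c n := Nat.lt_size.1 (by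
    unfold ll at h1 ⊢
    omega)
  have h3 : 2 ^ ll T c n = 2 * 2 ^ (ll T c n - 1) := by
    rw [← pow_succ']
    congr 1
    omega
  omega

theorem pow_ll_pos (T : Tools) (c n : ℕ) : 0 < 2 ^ ll T c n := Nat.pos_of_ne_zero (by positivity)

theorem NN_pos (T : Tools) (c n : ℕ) : 0 < NN T c n :=
  Nat.mul_pos (qq_pos T c n) (pow_ll_pos T c n)

theorem NN_le (T : Tools) (c n : ℕ) :
    NN T c n ≤ 2 ^ 21 * (n + 1) ^ 2 * (HH c n + 1) ^ 4 * RR c n ^ 4 := by
  have h1 := (qq_spec T c n).2.2
  have h2 : NN T c n ≤ 2 * (8 * (n + 1) * vv c n ^ 2) * (2 * (2 * (8 * (n + 1) * vv c n ^ 2))) :=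
    Nat.mul_le_mul h1 ((pow_ll_le T c n).trans (Nat.mul_le_mul_left _ h1))
  refine h2.trans_eq ?_
  unfold vv
  ring

/-- the last steps of the path are short -/
theorem qq_ge (T : Tools) (c n : ℕ) : 2 * RR c n ≤ qq T c n := by
  have h1 := (qq_spec T c n).2.1
  have h2 : vv c n ≤ vv c n ^ 2 := Nat.le_self_pow (by omega) _
  have h3 : 8 * 1 * vv c n ^ 2 ≤ 8 * (n + 1) * vv c n ^ 2 :=
    Nat.mul_le_mul_right _ (Nat.mul_le_mul_left _ (by omega))
  have h4 : 8 * RR c n * 1 ≤ vv c n := Nat.mul_le_mul_left _ (by omega)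
  omega

/-! ### candidates -/

/-- the vector and its neighbours -/
def nbrs (n : ℕ) (y : List Bool) : List (List Bool) := y :: (List.range n).map (flip y)

/-- the candidates found in the word -/
def cands (T : Tools) (c n : ℕ) (z : ℕ → Bool) : List (List Bool) :=
  ((dec T (vv c n) (qq T c n) (ll T c n) (HH c n) n z).flatMap (nbrs n)).filter
    fun x => decide (x.length = n)

theorem length_cands {T : Tools} {c n : ℕ} {z : ℕ → Bool} {x : List Bool}
    (h : x ∈ cands T c n z) : x.length = n := by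
  unfold cands at h
  rw [List.mem_filter, decide_eq_true_eq] at h
  exact h.2

theorem mem_cands {T : Tools} {c n : ℕ} {z : ℕ → Bool} {x y : List Bool}
    (hx : x.length = n) (hy : y.length = n) (hxy : x ∈ nbrs n y)
    (h : qq T c n * 2 ^ ll T c n ≤
      2 * RR c n * ∑ a ∈ Finset.range (qq T c n), ex (ll T c n) (qq T c n) z y a) :
    x ∈ cands T c n z := by
  unfold cands
  rw [List.mem_filter, decide_eq_true_eq, List.mem_flatMap]
  refine ⟨⟨y, ?_, hxy⟩, hx⟩
  unfold vv
  exact mem_dec T (HH_spec c n) (params_ok T c n) hy h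

/-! ### words and cost -/

/-- the word of the state `(x, i)` -/
def mw (T : Tools) (c : ℕ) (C : Circuit) (x : List Bool) (i : ℕ) (p : ℕ) : Bool :=
  if p / 2 ^ ll T c C.n < i then Ew (qq T c C.n) (ll T c C.n) (step C x) p
  else Ew (qq T c C.n) (ll T c C.n) x p

/-- the value of the state `(x, i)` -/
def ky (T : Tools) (c : ℕ) (C : Circuit) (x : List Bool) (i : ℕ) : ℕ :=
  qq T c C.n * val (C.out x) + (qq T c C.n - i)

/-- the values of the states which the word is correlated with -/
def vals (T : Tools) (c : ℕ) (C : Circuit) (z : ℕ → Bool) : List ℕ :=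
  (cands T c C.n z).flatMap fun x => ((List.range (qq T c C.n)).filter fun i =>
    decide ((RR c C.n + 1) * NN T c C.n ≤
      2 * RR c C.n * agr (NN T c C.n) z (mw T c C x i))).map fun i =>
        ky T c C x i * (NN T c C.n + 1) + dist (NN T c C.n) z (mw T c C x (i + 1))

/-- a large number -/
def big (T : Tools) (c : ℕ) (C : Circuit) : ℕ :=
  (qq T c C.n * 2 ^ C.outs.length + 1) * (NN T c C.n + 1)

/-- the cost -/
def cst (T : Tools) (c : ℕ) (C : Circuit) (z : ℕ → Bool) : ℕ :=
  (vals T c C z).foldl min (big T c C + dist (NN T c C.n) z fun _ => false)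

theorem foldl_min_le_init (l : List ℕ) (a : ℕ) : l.foldl min a ≤ a := by
  induction l generalizing a with
  | nil => exact le_rfl
  | cons b l ih => exact (ih _).trans (min_le_left _ _)

theorem foldl_min_le (l : List ℕ) (a : ℕ) {b : ℕ} (h : b ∈ l) : l.foldl min a ≤ b := by
  induction l generalizing a with
  | nil => exact absurd h List.not_mem_nil
  | cons c l ih =>
    rcases List.mem_cons.1 h with rfl | h
    · exact (foldl_min_le_init l _).trans (min_le_right _ _)
    · exact ih _ h

theorem foldl_min_cases (l : List ℕ) (a : ℕ) : l.foldl min a = a ∨ l.foldl min a ∈ l := by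
  induction l generalizing a with
  | nil => exact Or.inl rfl
  | cons c l ih =>
    rw [List.foldl_cons, List.mem_cons]
    rcases ih (min a c) with h | h
    · rw [h]
      rcases min_choice a c with h | h
      · exact Or.inl h
      · exact Or.inr (Or.inl h)
    · exact Or.inr (Or.inr h)

variable {T : Tools} {c : ℕ} {C : Circuit}

theorem mw_block (x : List Bool) (i a : ℕ) {s : ℕ} (hs : s < 2 ^ ll T c C.n) :
    mw T c C x i (a * 2 ^ ll T c C.n + s) =
      had (ll T c C.n) (pv (qq T c C.n) (if a < i then step C x else x) a) s := by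
  unfold mw
  have h1 : (a * 2 ^ ll T c C.n + s) / 2 ^ ll T c C.n = a := by
    rw [Nat.mul_comm, Nat.mul_add_div (pow_ll_pos T c C.n), Nat.div_eq_of_lt hs, Nat.add_zero]
  rw [h1]
  split_ifs <;> exact Ew_block _ a hs

theorem flip_flip (x : List Bool) (i : ℕ) : flip (flip x i) i = x := by
  refine ext_getD ?_ fun j hj => ?_
  · rw [length_flip, length_flip]
  · rw [length_flip, length_flip] at hj
    rw [getD_flip _ _ _ (by rwa [length_flip]), getD_flip _ _ _ hj]
    split_ifs
    · rw [Bool.not_not]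
    · rfl

theorem mem_nbrs_step (x : List Bool) : x ∈ nbrs C.n (step C x) := by
  unfold nbrs
  rw [List.mem_cons, List.mem_map]
  rcases step_cases C x with ⟨h, _⟩ | ⟨i, hi, h, _⟩
  · exact Or.inl h.symm
  · refine Or.inr ⟨i, List.mem_range.2 hi, ?_⟩
    rw [h, flip_flip]

/-- a word correlated with the word of `(x, i)` has the candidate `x` -/
theorem mem_of_holds {z : ℕ → Bool} {x : List Bool} {i : ℕ} (hx : x.length = C.n)
    (h : Holds (RR c C.n) (NN T c C.n) z (mw T c C x i)) : x ∈ cands T c C.n z := by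
  set q := qq T c C.n with hq
  set l := ll T c C.n with hl
  set R := RR c C.n with hR
  unfold Holds NN at h
  rw [← hq, ← hl, agr_blocks] at h
  have h1 : ∀ a, 2 * agr (2 ^ l) (fun p => z (a * 2 ^ l + p))
      (fun p => mw T c C x i (a * 2 ^ l + p)) ≤ 2 ^ l + (ex l q z (step C x) a + ex l q z x a) := by
    intro a
    have h2 := agr_congr (N := 2 ^ l) (u := fun p => z (a * 2 ^ l + p))
      fun s hs => mw_block (T := T) (c := c) (C := C) x i a hs
    rw [h2]
    unfold ex
    have e1 : agr (2 ^ l) (fun p => z (a * 2 ^ l + p)) (fun s => had l (pv q (step C x) a) s) =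
      agr (2 ^ l) (fun p => z (a * 2 ^ l + p)) (had l (pv q (step C x) a)) := rfl
    have e2 : agr (2 ^ l) (fun p => z (a * 2 ^ l + p)) (fun s => had l (pv q x a) s) =
      agr (2 ^ l) (fun p => z (a * 2 ^ l + p)) (had l (pv q x a)) := rfl
    split_ifs
    · rw [← hq, ← hl, e1]
      omega
    · rw [← hq, ← hl, e2]
      omega
  have h2 : 2 * ∑ a ∈ Finset.range q, agr (2 ^ l) (fun p => z (a * 2 ^ l + p))
      (fun p => mw T c C x i (a * 2 ^ l + p)) ≤ q * 2 ^ l +
        (∑ a ∈ Finset.range q, ex l q z (step C x) a + ∑ a ∈ Finset.range q, ex l q z x a) := by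
    rw [Finset.mul_sum, ← Finset.sum_add_distrib]
    refine (Finset.sum_le_sum fun a _ => h1 a).trans_eq ?_
    rw [Finset.sum_add_distrib, Finset.sum_const, Finset.card_range, smul_eq_mul]
  set S := ∑ a ∈ Finset.range q, agr (2 ^ l) (fun p => z (a * 2 ^ l + p))
      (fun p => mw T c C x i (a * 2 ^ l + p)) with hS
  set E1 := ∑ a ∈ Finset.range q, ex l q z (step C x) a with hE1
  set E2 := ∑ a ∈ Finset.range q, ex l q z x a with hE2
  have h3 : (R + 1) * (q * 2 ^ l) ≤ R * (q * 2 ^ l + (E1 + E2)) := by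
    calc (R + 1) * (q * 2 ^ l) ≤ 2 * R * S := h
      _ = R * (2 * S) := by ring
      _ ≤ _ := Nat.mul_le_mul_left _ h2
  have h4 : (R + 1) * (q * 2 ^ l) = R * (q * 2 ^ l) + q * 2 ^ l := by ring
  have h5 : R * (q * 2 ^ l + (E1 + E2)) = R * (q * 2 ^ l) + (R * E1 + R * E2) := by ring
  have h6 : q * 2 ^ l ≤ R * E1 + R * E2 := by omega
  rcases le_total E1 E2 with h7 | h7
  · have h8 := Nat.mul_le_mul_left R h7
    have h9 : 2 * R * E2 = R * E2 + R * E2 := by ring
    have h10 : q * 2 ^ l ≤ 2 * R * E2 := by omega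
    exact mem_cands hx hx List.mem_cons_self h10
  · have h8 := Nat.mul_le_mul_left R h7
    have h9 : 2 * R * E1 = R * E1 + R * E1 := by ring
    have h10 : q * 2 ^ l ≤ 2 * R * E1 := by omega
    exact mem_cands hx ((length_step C x).trans hx) (mem_nbrs_step x) h10

theorem mem_vals {z : ℕ → Bool} {v : ℕ} : v ∈ vals T c C z ↔ ∃ x ∈ cands T c C.n z,
    ∃ i < qq T c C.n, Holds (RR c C.n) (NN T c C.n) z (mw T c C x i) ∧
      ky T c C x i * (NN T c C.n + 1) + dist (NN T c C.n) z (mw T c C x (i + 1)) = v := by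
  unfold vals Holds
  simp only [List.mem_flatMap, List.mem_map, List.mem_filter, List.mem_range, decide_eq_true_eq,
    and_assoc]

theorem ky_le (x : List Bool) (i : ℕ) : ky T c C x i ≤ qq T c C.n * 2 ^ C.outs.length := by
  unfold ky
  have h1 := val_lt (C.out x)
  have h2 : (C.out x).length = C.outs.length := by
    unfold Circuit.out
    rw [List.length_map]
  rw [h2] at h1
  have h3 := Nat.mul_le_mul_left (qq T c C.n)
    (show val (C.out x) + 1 ≤ 2 ^ C.outs.length by omega)
  rw [Nat.mul_add] at h3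
  omega

theorem cst_lt (z : ℕ → Bool) :
    cst T c C z < (qq T c C.n * 2 ^ C.outs.length + 2) * (NN T c C.n + 1) := by
  unfold cst
  refine lt_of_le_of_lt (foldl_min_le_init _ _) ?_
  have h1 := dist_le (NN T c C.n) z fun _ => false
  unfold big
  rw [Nat.add_mul _ 2, Nat.add_mul _ 1]
  omega

theorem dist_mw (x : List Bool) (i : ℕ) :
    dist (NN T c C.n) (mw T c C x i) (mw T c C x (i + 1)) ≤ 2 ^ ll T c C.n := by
  unfold dist
  refine (Finset.card_le_card (t := (Finset.range (2 ^ ll T c C.n)).image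
    fun p => i * 2 ^ ll T c C.n + p)
    fun p hp => ?_).trans (Finset.card_image_le.trans (by rw [Finset.card_range]))
  rw [Finset.mem_filter] at hp
  have h1 : p / 2 ^ ll T c C.n = i := by
    by_contra hcon
    apply hp.2
    unfold mw
    by_cases h : p / 2 ^ ll T c C.n < i
    · rw [if_pos h, if_pos (by omega)]
    · rw [if_neg h, if_neg (by omega)]
  rw [Finset.mem_image]
  refine ⟨p % 2 ^ ll T c C.n, Finset.mem_range.2 (Nat.mod_lt _ (pow_ll_pos T c C.n)), ?_⟩
  have := Nat.div_add_mod p (2 ^ ll T c C.n)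
  rw [h1, Nat.mul_comm] at this
  exact this

theorem out_lt {x : List Bool} (h : step C x ≠ x) : val (C.out (step C x)) < val (C.out x) := by
  rcases step_cases C x with ⟨h1, _⟩ | ⟨i, hi, h1, h2⟩
  · exact absurd h1 h
  · rw [h1]
    rwa [Circuit.cost_eq, Circuit.cost_eq, Nat.mul_lt_mul_left (by omega)] at h2

theorem mw_zeros {p : ℕ} : mw T c C (List.replicate C.n false) 0 p = false := by
  unfold mw
  rw [if_neg (Nat.not_lt_zero _), Ew_zeros]

/-- If few flips decrease the cost, then a candidate is a local minimum. -/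
theorem weak_local {z : ℕ → Bool}
    (hz : 2 * RR c C.n * (((Finset.range (NN T c C.n)).filter fun p =>
      cst T c C (fl z p) < cst T c C z).card + 2 ^ ll T c C.n) + NN T c C.n ≤
        RR c C.n * NN T c C.n) :
    ∃ x ∈ cands T c C.n z, step C x = x := by
  have hpot := pot (St := {s : List Bool × ℕ // s.1.length = C.n ∧ s.2 < qq T c C.n})
    (N := NN T c C.n) (R := RR c C.n) (d := 2 ^ ll T c C.n) (big := big T c C)
    (w := fun s => mw T c C s.1.1 s.1.2) (nxt := fun s => mw T c C s.1.1 (s.1.2 + 1))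
    (key := fun s => ky T c C s.1.1 s.1.2) (fin := fun s => step C s.1.1 = s.1.1)
    (s0 := ⟨(List.replicate C.n false, 0), List.length_replicate, qq_pos T c C.n⟩)
    (fun p _ => mw_zeros) (fun s => dist_mw _ _) ?_ (cost := cst T c C) ?_ ?_ (z := z)
  · by_contra hcon
    push Not at hcon
    -- the conclusion of the potential argument is wrong
    have hno := mt hpot (by omega)
    push Not at hno
    obtain ⟨h1, h2⟩ := hno
    rcases foldl_min_cases (vals T c C z) (big T c C + dist (NN T c C.n) z fun _ => false)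
      with h | h
    · -- nothing is held
      have h3 : ∀ s : {s : List Bool × ℕ // s.1.length = C.n ∧ s.2 < qq T c C.n},
          ¬ Holds (RR c C.n) (NN T c C.n) z (mw T c C s.1.1 s.1.2) := by
        rintro ⟨⟨x, i⟩, hx, hi⟩ hs
        have h4 := foldl_min_le (vals T c C z) (big T c C + dist (NN T c C.n) z fun _ => false)
          (mem_vals.2 ⟨x, mem_of_holds hx hs, i, hi, hs, rfl⟩)
        rw [h] at h4
        have h5 := ky_le (T := T) (c := c) (C := C) x i
        have h6 := dist_le (NN T c C.n) z (mw T c C x (i + 1))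
        have h7 := Nat.mul_le_mul_right (NN T c C.n + 1) h5
        have h8 : big T c C = qq T c C.n * 2 ^ C.outs.length * (NN T c C.n + 1) +
            (NN T c C.n + 1) := by
          unfold big
          rw [Nat.add_mul, Nat.one_mul]
        omega
      exact h1 h3 h
    · obtain ⟨x, hx, i, hi, hs, hv⟩ := mem_vals.1 h
      exact hcon x hx (h2 ⟨(x, i), length_cands hx, hi⟩ hs hv.symm)
  · rintro ⟨⟨x, i⟩, hx, hi⟩ hs
    dsimp only at hs hx hi ⊢
    by_cases h1 : i + 1 < qq T c C.n
    · refine ⟨⟨(x, i + 1), hx, h1⟩, fun p _ => rfl, ?_⟩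
      dsimp only
      unfold ky
      omega
    · refine ⟨⟨(step C x, 0), (length_step C x).trans hx, qq_pos T c C.n⟩, fun p hp => ?_, ?_⟩
      · have h2 : i + 1 = qq T c C.n := by omega
        have h3 : p / 2 ^ ll T c C.n < qq T c C.n := by
          unfold NN at hp
          rw [Nat.mul_comm] at hp
          exact Nat.div_lt_of_lt_mul hp
        dsimp only
        unfold mw
        rw [if_neg (Nat.not_lt_zero _), h2, if_pos h3]
      · dsimp only
        unfold ky
        have h2 := out_lt hs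
        have h3 := Nat.mul_le_mul_left (qq T c C.n)
          (show val (C.out (step C x)) + 1 ≤ val (C.out x) by omega)
        rw [Nat.mul_add] at h3
        omega
  · rintro z ⟨⟨x, i⟩, hx, hi⟩ hs
    exact foldl_min_le _ _ (mem_vals.2 ⟨x, mem_of_holds hx hs, i, hi, hs, rfl⟩)
  · intro z
    exact foldl_min_le_init _ _

end Pool.Agent.MPa0a715.WM.A
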