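import Pool.Agent.Lib.MP_a0a715_lc_WM.RootsList

/-!
# Roth-Ruckenstein root finding: polynomial time
-/

namespace Pool.Agent.MPa0a715.WM

open Pool.Agent.MPa0a715 Pool.Agent.PolyTime

namespace Roots

section
variable {α : Type} [Enc α]

theorem ptime_md {q x : α → ℕ} (hq : PTime q) (hx : PTime x) :
    PTime (fun a => md (q a) (x a)) :=
  PTime.mod hx ((hq.sub (PTime.const 1)).add (PTime.const 1))

theorem ptime_tayStep {q x : α → ℕ} {b : α → Bool} {f : α → List ℕ} (hq : PTime q)
    (hb : PTime b) (hx : PTime x) (hf : PTime f) :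
    PTime (fun a => tayStep (q a) (b a) (x a) (f a)) := by
  have h1 : PTime (fun a => List.range (x a :: f a).length) :=
    PTime.rangeLength (PTime.cons hx hf)
  have h2 : PTime₂ (fun (a : α) (i : ℕ) =>
      md (q a) ((x a :: f a).getD i 0 + if b a then (f a).getD i 0 else 0)) := by
    apply ptime_md (hq.comp PTime.fst)
    apply PTime.add
    · exact PTime.listGetD ((PTime.cons hx hf).comp PTime.fst) PTime.snd (PTime.const 0)
    · exact PTime.ite (hb.comp PTime.fst)
        (PTime.listGetD (hf.comp PTime.fst) PTime.snd (PTime.const 0)) (PTime.const 0)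
  exact PTime.map h1 h2

theorem tayStep_length (q : ℕ) (b : Bool) (a : ℕ) (f : List ℕ) :
    (tayStep q b a f).length = f.length + 1 := by
  simp [tayStep]

theorem md_lt (q x : ℕ) : md q x < q - 1 + 1 := Nat.mod_lt _ (Nat.succ_pos _)

theorem tayStep_lt (q : ℕ) (b : Bool) (a : ℕ) (f : List ℕ) :
    ∀ x ∈ tayStep q b a f, x < q - 1 + 1 := by
  intro x hx
  rw [tayStep, List.mem_map] at hx
  obtain ⟨i, _, rfl⟩ := hx
  exact md_lt _ _

theorem size_lt {q x : ℕ} (hx : x < q - 1 + 1) : size (enc x) ≤ 4 * size (enc q) + 1 := by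
  apply size_nat_le_of_lt
  have h1 := lt_two_pow_size q
  have h2 : 0 < 2 ^ size (enc q) := by positivity
  omega

theorem size_row {q : ℕ} {r : List ℕ} (hr : ∀ x ∈ r, x < q - 1 + 1) :
    size (enc r) ≤ r.length * (4 * size (enc q) + 2) + 1 :=
  size_list_le r _ fun x hx => size_lt (hr x hx)

theorem ptime_tay {q : α → ℕ} {b : α → Bool} {f : α → List ℕ} (hq : PTime q)
    (hb : PTime b) (hf : PTime f) : PTime (fun a => tay (q a) (b a) (f a)) := by
  obtain ⟨Q, hQ, hQm, hQs⟩ := hq.size_le
  obtain ⟨L, hL, hLm, hLs⟩ := hf.size_le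
  apply PTime.foldl (f := fun a => (f a).reverse) (g := fun _ => [])
    (h := fun a acc x => tayStep (q a) (b a) x acc) hf.reverse (PTime.const [])
    (ptime_tayStep (hq.comp PTime.fst) (hb.comp PTime.fst) PTime.snd.snd' PTime.snd.fst')
    (B := fun n => L n * (4 * Q n + 2) + 1)
    (PBd.add (PBd.mul hL (PBd.add (PBd.mul (PBd.const 4) hQ) (PBd.const 2))) (PBd.const 1))
  intro a l₁ l₂ h
  have h1 : ∀ l : List ℕ, (l.foldl (fun acc x => tayStep (q a) (b a) x acc) []).length = l.length ∧
      ∀ x ∈ l.foldl (fun acc x => tayStep (q a) (b a) x acc) [], x < q a - 1 + 1 := by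
    intro l
    induction l using List.reverseRecOn with
    | nil => simp
    | append_singleton l x ih =>
      rw [List.foldl_append]
      simp only [List.foldl_cons, List.foldl_nil]
      exact ⟨by rw [tayStep_length, ih.1]; simp, tayStep_lt _ _ _ _⟩
  have h2 := size_row (h1 l₁).2
  rw [(h1 l₁).1] at h2
  have h3 : l₁.length ≤ (f a).length := by
    have := congrArg List.length h
    rw [List.length_reverse, List.length_append] at this
    omega
  have h4 := length_le_size (f a)
  have h5 := hLs a
  have h6 := hQs a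
  refine h2.trans ?_
  have h7 : l₁.length ≤ L (size (enc a)) := by omega
  have h8 : 4 * size (enc (q a)) + 2 ≤ 4 * Q (size (enc a)) + 2 := by omega
  have := Nat.mul_le_mul h7 h8
  omega

theorem ptime_shL {q B : α → ℕ} {b : α → Bool} {c : α → List (List ℕ)} (hq : PTime q)
    (hB : PU B) (hb : PTime b) (hc : PTime c) :
    PTime (fun a => shL (q a) (b a) (B a) (c a)) := by
  have h0 : PTime (fun a => (c a).map (tay (q a) (b a))) :=
    PTime.map hc (ptime_tay (hq.comp PTime.fst) (hb.comp PTime.fst) PTime.snd)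
  have h1 : PTime (fun a => List.range ((c a).length + B a)) :=
    PU.range ((PU.ofLength hc).add hB)
  refine PTime.map h1 ?_
  have h2 : PTime (fun p : α × ℕ => List.range (B p.1)) := PU.range (hB.comp PTime.fst)
  refine PTime.map h2 ?_
  refine PTime.iteP (PTime.le PTime.snd PTime.fst.snd') ?_ (PTime.const 0)
  exact PTime.listGetD (PTime.listGetD (h0.comp PTime.fst.fst')
    (PTime.fst.snd'.sub PTime.snd) (PTime.const [])) PTime.snd (PTime.const 0)

theorem ptime_fstRow {q : α → ℕ} {c : α → List (List ℕ)} (hq : PTime q) (hc : PTime c) :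
    PTime (fun a => fstRow (q a) (c a)) := by
  refine PTime.getD (PTime.find? hc ?_) (PTime.const [])
  refine PTime.any PTime.snd ?_
  exact PTime.notP (PTime.eq (ptime_md (hq.comp PTime.fst.fst') PTime.snd) (PTime.const 0))

theorem ptime_test {q : α → ℕ} {b : α → Bool} {c : α → List (List ℕ)} (hq : PTime q)
    (hb : PTime b) (hc : PTime c) : PTime (fun a => test (q a) (b a) (c a)) :=
  PTime.eq (ptime_md hq (PTime.listGetD (ptime_tay hq hb (ptime_fstRow hq hc)) (PTime.const 0)
    (PTime.const 0))) (PTime.const 0)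

theorem ptime_children {q B : α → ℕ} {s : α → List (List ℕ) × List Bool} (hq : PTime q)
    (hB : PU B) (hs : PTime s) : PTime (fun a => children (q a) (B a) (s a)) := by
  refine PTime.flatMap (PTime.const [false, true]) ?_
  refine PTime.ite (ptime_test (hq.comp PTime.fst) PTime.snd (hs.fst'.comp PTime.fst)) ?_
    (PTime.const [])
  refine PTime.cons ?_ (PTime.const [])
  refine PTime.pair ?_ ?_
  · exact ptime_shL (hq.comp PTime.fst) (hB.comp PTime.fst) PTime.snd (hs.fst'.comp PTime.fst)
  · exact PTime.append (hs.snd'.comp PTime.fst) (PTime.cons PTime.snd (PTime.const []))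

theorem ptime_next {q B : α → ℕ} {L : α → List (List (List ℕ) × List Bool)} (hq : PTime q)
    (hB : PU B) (hL : PTime L) : PTime (fun a => next (q a) (B a) (L a)) := by
  refine PTime.take (PTime.flatMap hL ?_) hB.toNat
  exact ptime_children (hq.comp PTime.fst) (hB.comp PTime.fst) PTime.snd

theorem ptime_start {q U B : α → ℕ} {c : α → List ℕ} (hq : PTime q) (hU : PU U) (hB : PU B)
    (hc : PTime c) : PTime (fun a => start (q a) (U a) (B a) (c a)) := by
  refine PTime.map hU.range ?_
  have h2 : PTime (fun p : α × ℕ => List.range (B p.1)) := PU.range (hB.comp PTime.fst)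
  refine PTime.map h2 ?_
  refine ptime_md (hq.comp PTime.fst.fst') ?_
  exact PTime.listGetD (hc.comp PTime.fst.fst')
    ((PTime.fst.snd'.mul (hB.toNat.comp PTime.fst.fst')).add PTime.snd) (PTime.const 0)

/-- bounds for the entries of a level -/
def Small (q B R n : ℕ) (s : List (List ℕ) × List Bool) : Prop :=
  s.1.length ≤ R ∧ (∀ r ∈ s.1, r.length ≤ B ∧ ∀ x ∈ r, x < q - 1 + 1) ∧ s.2.length ≤ n

theorem tay_lt (q : ℕ) (b : Bool) (r : List ℕ) : ∀ x ∈ tay q b r, x < q - 1 + 1 := by
  cases r with
  | nil => simp [tay]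
  | cons a r => rw [tay_cons]; exact tayStep_lt _ _ _ _

theorem getD_lt {l : List ℕ} {m : ℕ} (hm : 0 < m) (h : ∀ x ∈ l, x < m) (v : ℕ) :
    l.getD v 0 < m := by
  by_cases h3 : v < l.length
  · rw [List.getD_eq_getElem _ _ h3]
    exact h _ (List.getElem_mem h3)
  · rw [List.getD_eq_default _ _ (by omega)]
    exact hm

theorem shL_lt (q : ℕ) (b : Bool) (B : ℕ) (c : List (List ℕ)) :
    ∀ r ∈ shL q b B c, ∀ x ∈ r, x < q - 1 + 1 := by
  intro r hr x hx
  rw [shL, List.mem_map] at hr
  obtain ⟨u, _, rfl⟩ := hr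
  rw [List.mem_map] at hx
  obtain ⟨v, _, rfl⟩ := hx
  split_ifs with h
  · apply getD_lt (Nat.succ_pos _)
    by_cases h1 : u - v < (c.map (tay q b)).length
    · rw [List.getD_eq_getElem _ _ h1]
      have h2 := List.getElem_mem h1
      rw [List.mem_map] at h2
      obtain ⟨r', _, h3⟩ := h2
      rw [← h3]
      exact tay_lt _ _ _
    · rw [List.getD_eq_default _ _ (by omega)]
      simp
  · exact Nat.succ_pos _

theorem next_small {q B R n : ℕ} {L : List (List (List ℕ) × List Bool)}
    (hL : ∀ s ∈ L, Small q B R n s) :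
    (next q B L).length ≤ B ∧ ∀ s ∈ next q B L, Small q B (R + B) (n + 1) s := by
  constructor
  · rw [next, List.length_take]
    omega
  · intro s hs
    rw [next] at hs
    have hs := List.mem_of_mem_take hs
    rw [List.mem_flatMap] at hs
    obtain ⟨t, ht, hst⟩ := hs
    obtain ⟨h1, h2, h3⟩ := hL t ht
    rw [children, List.mem_flatMap] at hst
    obtain ⟨b, _, hb⟩ := hst
    split_ifs at hb with h
    · rw [List.mem_singleton] at hb
      subst hb
      refine ⟨?_, ?_, ?_⟩
      · show (shL q b B t.1).length ≤ R + B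
        rw [shL_length]; omega
      · intro r hr
        exact ⟨shL_rows q b B t.1 r hr, shL_lt q b B t.1 r hr⟩
      · show (t.2 ++ [b]).length ≤ n + 1
        rw [List.length_append, List.length_singleton]; omega
    · simp at hb

theorem level_small (q U B : ℕ) (c : List ℕ) (n : ℕ) :
    (level q U B c n).length ≤ B + 1 ∧ ∀ s ∈ level q U B c n, Small q B (U + n * B) n s := by
  induction n with
  | zero =>
    rw [level, List.range_zero, List.foldl_nil]
    refine ⟨by simp, ?_⟩
    intro s hs
    rw [List.mem_singleton] at hs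
    subst hs
    refine ⟨by simp [start], ?_, by simp⟩
    intro r hr
    rw [start, List.mem_map] at hr
    obtain ⟨u, _, rfl⟩ := hr
    refine ⟨by simp, ?_⟩
    intro x hx
    rw [List.mem_map] at hx
    obtain ⟨v, _, rfl⟩ := hx
    exact md_lt _ _
  | succ n ih =>
    rw [level_succ]
    have h := next_small ih.2
    refine ⟨by omega, ?_⟩
    intro s hs
    have := h.2 s hs
    rwa [show U + (n + 1) * B = U + n * B + B by ring]

theorem size_bool (b : Bool) : size (enc b) ≤ 3 := by
  cases b <;> decide

theorem size_small {q B R n : ℕ} {s : List (List ℕ) × List Bool} (h : Small q B R n s) :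
    size (enc s) ≤ R * (B * (4 * size (enc q) + 2) + 2) + 1 + (n * 4 + 1) + 1 := by
  obtain ⟨h1, h2, h3⟩ := h
  have e1 : size (enc s.1) ≤ s.1.length * (B * (4 * size (enc q) + 2) + 1 + 1) + 1 := by
    apply size_list_le
    intro r hr
    obtain ⟨h4, h5⟩ := h2 r hr
    have h6 := size_row h5
    have h7 := Nat.mul_le_mul_right (4 * size (enc q) + 2) h4
    omega
  have e2 : size (enc s.2) ≤ s.2.length * (3 + 1) + 1 :=
    size_list_le _ _ fun b _ => size_bool b
  have e3 : size (enc s) = size (enc s.1) + size (enc s.2) + 1 := size_pair s.1 s.2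
  have e4 := Nat.mul_le_mul_right (B * (4 * size (enc q) + 2) + 1 + 1) h1
  have e5 := Nat.mul_le_mul_right (3 + 1) h3
  have e6 : B * (4 * size (enc q) + 2) + 1 + 1 = B * (4 * size (enc q) + 2) + 2 := rfl
  rw [e6] at e1 e4
  rw [e3]
  omega

theorem ptime_level {q U B n : α → ℕ} {c : α → List ℕ} (hq : PTime q) (hU : PU U) (hB : PU B)
    (hc : PTime c) (hn : PU n) :
    PTime (fun a => level (q a) (U a) (B a) (c a) (n a)) := by
  obtain ⟨Q, hQ, hQm, hQs⟩ := hq.size_le
  obtain ⟨U', hU', hUm, hUs⟩ := PTime.size_le hU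
  obtain ⟨B', hB', hBm, hBs⟩ := PTime.size_le hB
  obtain ⟨N, hN, hNm, hNs⟩ := PTime.size_le hn
  have hrep : ∀ k : ℕ, k ≤ size (enc (List.replicate k ())) := fun k => by
    have := length_le_size (List.replicate k ())
    rw [List.length_replicate] at this
    omega
  apply PTime.foldl (f := fun a => List.range (n a))
    (g := fun a => [(start (q a) (U a) (B a) (c a), [])])
    (h := fun a L _ => next (q a) (B a) L) hn.range
    (PTime.cons (PTime.pair (ptime_start hq hU hB hc) (PTime.const [])) (PTime.const []))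
    (ptime_next (hq.comp PTime.fst) (hB.comp PTime.fst) PTime.snd.fst')
    (B := fun k => (B' k + 1) * ((U' k + N k * B' k) * (B' k * (4 * Q k + 2) + 2) + 1 +
      (N k * 4 + 1) + 1 + 1) + 1)
  · have h1 := PBd.const 1
    have h2 := PBd.const 2
    have h4 := PBd.const 4
    exact ((hB'.add h1).mul (((((hU'.add (hN.mul hB')).mul
      ((hB'.mul ((h4.mul hQ).add h2)).add h2)).add h1).add ((hN.mul h4).add h1)).add h1 |>.add h1)).add h1
  · intro a l₁ l₂ h
    have hl : l₁.length ≤ n a := by
      have := congrArg List.length h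
      rw [List.length_range, List.length_append] at this
      omega
    have h1 : l₁.foldl (fun L _ => next (q a) (B a) L) [(start (q a) (U a) (B a) (c a), [])] =
        level (q a) (U a) (B a) (c a) l₁.length := by
      clear h hl
      induction l₁ using List.reverseRecOn with
      | nil => rfl
      | append_singleton l x ih =>
        rw [List.foldl_append, List.length_append, List.length_singleton, level_succ, ih]
        rfl
    rw [h1]
    obtain ⟨h2, h3⟩ := level_small (q a) (U a) (B a) (c a) l₁.length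
    have h4 : ∀ s ∈ level (q a) (U a) (B a) (c a) l₁.length, size (enc s) ≤
        (U a + l₁.length * B a) * (B a * (4 * size (enc (q a)) + 2) + 2) + 1 +
          (l₁.length * 4 + 1) + 1 := fun s hs => size_small (h3 s hs)
    have h5 := size_list_le _ _ h4
    have hU1 := (hrep (U a)).trans (hUs a)
    have hB1 := (hrep (B a)).trans (hBs a)
    have hN1 := hl.trans ((hrep (n a)).trans (hNs a))
    have hQ1 := hQs a
    refine h5.trans ?_
    gcongr
    exact h2.trans (by omega)

theorem ptime_roots {q U B n : α → ℕ} {c : α → List ℕ} (hq : PTime q) (hU : PU U) (hB : PU B)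
    (hc : PTime c) (hn : PU n) :
    PTime (fun a => roots (q a) (U a) (B a) (c a) (n a)) :=
  PTime.map (ptime_level hq hU hB hc hn) PTime.snd.snd'

end

end Roots

/-- Module ROOTS. -/
theorem rootsStmt : RootsStmt := by
  refine ⟨Roots.roots, ?_, ?_⟩
  · intro α _ q U B n c hq hU hB hc hn
    exact Roots.ptime_roots hq.toNat hU hB hc hn
  · intro q U B n c hq h x hx h0
    have : Fact q.Prime := ⟨hq⟩
    exact Roots.roots_spec q U B n c h x hx h0

end Pool.Agent.MPa0a715.WM
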