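import Pool.Agent.Lib.MP_a0a715_lc_WM.RootsMath

/-!
# Roth-Ruckenstein root finding: the algorithm on lists
-/

namespace Pool.Agent.MPa0a715.WM.Roots

open Polynomial

/-- remainder (for the modulus `0` the remainder modulo `1`) -/
def md (q x : ℕ) : ℕ := x % (q - 1 + 1)

/-- the coefficients of `a + (b + Y) f` -/
def tayStep (q : ℕ) (b : Bool) (a : ℕ) (f : List ℕ) : List ℕ :=
  (List.range (f.length + 1)).map fun i => md q ((a :: f).getD i 0 + if b then f.getD i 0 else 0)

/-- the coefficients of `f(b + Y)` -/
def tay (q : ℕ) (b : Bool) (r : List ℕ) : List ℕ :=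
  r.reverse.foldl (fun acc a => tayStep q b a acc) []

/-- the coefficients of `Q(X, b + X Y)` -/
def shL (q : ℕ) (b : Bool) (B : ℕ) (c : List (List ℕ)) : List (List ℕ) :=
  (List.range (c.length + B)).map fun u => (List.range B).map fun v =>
    if v ≤ u then ((c.map (tay q b)).getD (u - v) []).getD v 0 else 0

/-- the first row which is not zero -/
def fstRow (q : ℕ) (c : List (List ℕ)) : List ℕ :=
  (c.find? fun r => r.any fun a => decide (md q a ≠ 0)).getD []

/-- is `b` a root of the first nonzero row -/
def test (q : ℕ) (b : Bool) (c : List (List ℕ)) : Bool :=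
  decide (md q ((tay q b (fstRow q c)).getD 0 0) = 0)

/-- children of a node -/
def children (q B : ℕ) (s : List (List ℕ) × List Bool) : List (List (List ℕ) × List Bool) :=
  [false, true].flatMap fun b =>
    if test q b s.1 then [(shL q b B s.1, s.2 ++ [b])] else []

/-- the next level -/
def next (q B : ℕ) (L : List (List (List ℕ) × List Bool)) : List (List (List ℕ) × List Bool) :=
  (L.flatMap (children q B)).take B

/-- the matrix of coefficients -/
def start (q U B : ℕ) (c : List ℕ) : List (List ℕ) :=
  (List.range U).map fun u => (List.range B).map fun v => md q (c.getD (u * B + v) 0)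

/-- the levels of the search -/
def level (q U B : ℕ) (c : List ℕ) (n : ℕ) : List (List (List ℕ) × List Bool) :=
  (List.range n).foldl (fun L _ => next q B L) [(start q U B c, [])]

/-- the roots -/
def roots (q U B : ℕ) (c : List ℕ) (n : ℕ) : List (List Bool) :=
  (level q U B c n).map Prod.snd

section
variable (q : ℕ) [hq : Fact q.Prime]

theorem md_cast (x : ℕ) : ((md q x : ℕ) : ZMod q) = x := by
  have h : q - 1 + 1 = q := Nat.succ_pred_prime hq.out
  rw [md, h]
  exact ZMod.natCast_mod x q

theorem md_eq_zero (x : ℕ) : md q x = 0 ↔ ((x : ℕ) : ZMod q) = 0 := by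
  have h : q - 1 + 1 = q := Nat.succ_pred_prime hq.out
  rw [md, h, ZMod.natCast_eq_zero_iff, Nat.dvd_iff_mod_eq_zero]

/-- a bit as an element of the field -/
def bv (b : Bool) : ZMod q := if b then 1 else 0

/-- the polynomial with the given coefficients -/
noncomputable def toP (r : List ℕ) : (ZMod q)[X] :=
  ∑ v ∈ Finset.range r.length, C ((r.getD v 0 : ℕ) : ZMod q) * X ^ v

theorem toP_coeff (r : List ℕ) (v : ℕ) : (toP q r).coeff v = ((r.getD v 0 : ℕ) : ZMod q) := by
  rw [toP, finsetSum_coeff]
  simp only [coeff_C_mul_X_pow]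
  rw [Finset.sum_ite_eq]
  split_ifs with h
  · rfl
  · rw [Finset.mem_range, not_lt] at h
    rw [List.getD_eq_default _ _ h, Nat.cast_zero]

/-- the bivariate polynomial with the given rows of coefficients -/
noncomputable def toQ (c : List (List ℕ)) : ((ZMod q)[X])[X] :=
  ∑ u ∈ Finset.range c.length, C (toP q (c.getD u [])) * X ^ u

theorem toP_nil : toP q [] = 0 := by simp [toP]

theorem toQ_coeff (c : List (List ℕ)) (u : ℕ) : (toQ q c).coeff u = toP q (c.getD u []) := by
  rw [toQ, finsetSum_coeff]
  simp only [coeff_C_mul_X_pow]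
  rw [Finset.sum_ite_eq]
  split_ifs with h
  · rfl
  · rw [Finset.mem_range, not_lt] at h
    rw [List.getD_eq_default _ _ h, toP_nil]

theorem toP_cons (a : ℕ) (r : List ℕ) : toP q (a :: r) = C ((a : ℕ) : ZMod q) + X * toP q r := by
  ext v
  rw [toP_coeff, coeff_add]
  cases v with
  | zero => simp
  | succ v => rw [coeff_X_mul, toP_coeff, coeff_C_succ, List.getD_cons_succ, zero_add]

theorem toQ_cons (r : List ℕ) (c : List (List ℕ)) : toQ q (r :: c) = C (toP q r) + X * toQ q c := by
  ext1 v
  rw [toQ_coeff, coeff_add]
  cases v with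
  | zero => simp
  | succ v => rw [coeff_X_mul, toQ_coeff, coeff_C_succ, List.getD_cons_succ, zero_add]

theorem getD_map_range {β : Type} (f : ℕ → β) (n i : ℕ) (d : β) :
    ((List.range n).map f).getD i d = if i < n then f i else d := by
  by_cases h : i < n
  · simp [h]
  · rw [if_neg h, List.getD_eq_default]
    simpa using h

theorem toP_tayStep (b : Bool) (a : ℕ) (f : List ℕ) :
    toP q (tayStep q b a f) = C ((a : ℕ) : ZMod q) + (X + C (bv q b)) * toP q f := by
  have h : toP q (tayStep q b a f) = toP q (a :: f) + C (bv q b) * toP q f := by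
    ext v
    rw [coeff_add, coeff_C_mul, toP_coeff, toP_coeff, toP_coeff, tayStep, getD_map_range]
    by_cases hv : v < f.length + 1
    · rw [if_pos hv, md_cast]
      cases b <;> simp [bv]
    · rw [not_lt] at hv
      rw [if_neg (by omega), List.getD_eq_default (a :: f) 0 (by simpa using hv),
        List.getD_eq_default f 0 (by omega)]
      simp
  rw [h, toP_cons]
  ring

omit hq in
theorem tay_cons (b : Bool) (a : ℕ) (r : List ℕ) :
    tay q b (a :: r) = tayStep q b a (tay q b r) := by
  simp [tay]

omit hq in
theorem tay_length (b : Bool) (r : List ℕ) : (tay q b r).length = r.length + 0 := by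
  induction r with
  | nil => rfl
  | cons a r ih => 
    rw [tay_cons, tayStep, List.length_map, List.length_range, ih, List.length_cons]

theorem toP_tay (b : Bool) (r : List ℕ) : toP q (tay q b r) = taylor (bv q b) (toP q r) := by
  induction r with
  | nil => simp [tay, toP_nil]
  | cons a r ih =>
    rw [tay_cons, toP_tayStep, ih, toP_cons]
    simp [taylor_apply]

theorem toQ_shL (b : Bool) (B : ℕ) (c : List (List ℕ)) (hc : ∀ r ∈ c, r.length ≤ B) :
    toQ q (shL q b B c) = shP (bv q b) (toQ q c) := by
  ext u v
  rw [toQ_coeff, toP_coeff, shP_coeff, toQ_coeff, ← toP_tay, toP_coeff, shL, getD_map_range]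
  have hlen : ∀ w, (c.getD w []).length ≤ B := by
    intro w
    by_cases hw : w < c.length
    · rw [List.getD_eq_getElem _ _ hw]
      exact hc _ (List.getElem_mem hw)
    · rw [List.getD_eq_default _ _ (by omega)]
      simp
  have h0 : ∀ w, (c.map (tay q b)).getD w [] = tay q b (c.getD w []) := by
    intro w
    by_cases hw : w < c.length
    · rw [List.getD_eq_getElem _ _ hw, List.getD_eq_getElem _ _ (by simpa using hw)]
      simp
    · rw [List.getD_eq_default c _ (by omega), List.getD_eq_default _ _ (by simpa using hw)]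
      simp [tay]
  split_ifs with h1 h2 h2
  · rw [getD_map_range]
    split_ifs with h3
    · rw [h0]
    · have h4 := hlen (u - v)
      rw [List.getD_eq_default (tay q b (c.getD (u - v) [])) _ (by rw [tay_length]; omega)]
  · rw [getD_map_range]
    split_ifs with h3
    · simp
    · simp
  · by_cases h3 : v < B
    · rw [List.getD_eq_default c _ (by omega)]
      simp [tay]
    · have h4 := hlen (u - v)
      rw [List.getD_eq_default (tay q b (c.getD (u - v) [])) _ (by rw [tay_length]; omega)]
      simp
  · simp

omit hq in
theorem shL_length (b : Bool) (B : ℕ) (c : List (List ℕ)) :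
    (shL q b B c).length = c.length + B := by
  simp [shL]

omit hq in
theorem shL_rows (b : Bool) (B : ℕ) (c : List (List ℕ)) : ∀ r ∈ shL q b B c, r.length ≤ B := by
  intro r hr
  rw [shL, List.mem_map] at hr
  obtain ⟨u, _, rfl⟩ := hr
  simp

theorem any_iff (r : List ℕ) : (r.any fun a => decide (md q a ≠ 0)) = true ↔ toP q r ≠ 0 := by
  induction r with
  | nil => simp [toP_nil]
  | cons a r ih =>
    rw [List.any_cons, Bool.or_eq_true, ih, decide_eq_true_eq, ne_eq, md_eq_zero, toP_cons]
    constructor
    · rintro (h | h) h0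
      · apply h
        have := congrArg (fun f => coeff f 0) h0
        simpa using this
      · have h1 : ((a : ℕ) : ZMod q) = 0 := by
          have := congrArg (fun f => coeff f 0) h0
          simpa using this
        rw [h1, C_0, zero_add] at h0
        exact h ((mul_eq_zero.1 h0).resolve_left X_ne_zero)
    · intro h
      by_contra h1
      rw [not_or, not_not, not_ne_iff] at h1
      apply h
      rw [h1.1, h1.2]
      simp

theorem toP_fstRow (c : List (List ℕ)) (hc : toQ q c ≠ 0) :
    toP q (fstRow q c) = (toQ q c).trailingCoeff := by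
  induction c with
  | nil => exact absurd (by simp [toQ]) hc
  | cons r c ih =>
    rw [fstRow, List.find?_cons]
    by_cases h : toP q r = 0
    · have h1 : (r.any fun a => decide (md q a ≠ 0)) = false := by
        rw [Bool.eq_false_iff, ne_eq, any_iff, not_not]
        exact h
      rw [h1]
      rw [toQ_cons, h, C_0, zero_add] at hc ⊢
      rw [trailingCoeff_mul]
      have h2 : trailingCoeff (X : ((ZMod q)[X])[X]) = 1 := by
        rw [trailingCoeff, natTrailingDegree_X, coeff_X_one]
      rw [h2, one_mul]
      exact ih fun h3 => hc (by rw [h3, mul_zero])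
    · have h1 : (r.any fun a => decide (md q a ≠ 0)) = true := (any_iff q r).2 h
      rw [h1]
      have h2 : (toQ q (r :: c)).coeff 0 ≠ 0 := by
        rw [toQ_coeff]
        exact h
      have h3 : (toQ q (r :: c)).natTrailingDegree = 0 := by
        have := natTrailingDegree_le_of_ne_zero h2
        omega
      rw [trailingCoeff, h3, toQ_coeff]
      rfl

theorem test_iff (b : Bool) (c : List (List ℕ)) (hc : toQ q c ≠ 0) :
    test q b c = true ↔ (toQ q c).trailingCoeff.eval (bv q b) = 0 := by
  rw [test, decide_eq_true_eq, md_eq_zero, ← toP_coeff, toP_tay, toP_fstRow q c hc, taylor_coeff_zero]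

/-- weight of a node -/
noncomputable def wt (s : List (List ℕ) × List Bool) : ℕ := (toQ q s.1).trailingCoeff.natDegree

/-- good nodes -/
def Ok (B : ℕ) (s : List (List ℕ) × List Bool) : Prop :=
  toQ q s.1 ≠ 0 ∧ ∀ r ∈ s.1, r.length ≤ B

theorem children_ok {B : ℕ} {s : List (List ℕ) × List Bool} (hs : Ok q B s) :
    ∀ t ∈ children q B s, Ok q B t := by
  intro t ht
  rw [children, List.mem_flatMap] at ht
  obtain ⟨b, _, hb⟩ := ht
  split_ifs at hb with h
  · rw [List.mem_singleton] at hb
    subst hb
    exact ⟨by rw [toQ_shL q b B s.1 hs.2]; exact (shP_ne_zero_and hs.1 _).1, shL_rows q b B s.1⟩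
  · simp at hb

theorem children_wt {B : ℕ} {s : List (List ℕ) × List Bool} (hs : Ok q B s) :
    (children q B s).length ≤ wt q s ∧ ((children q B s).map (wt q)).sum ≤ wt q s := by
  have h := mult_le (toQ q s.1).trailingCoeff
  have hR : (toQ q s.1).trailingCoeff ≠ 0 := trailingCoeff_nonzero_iff_nonzero.2 hs.1
  have h1 : ∀ b, wt q (shL q b B s.1, s.2 ++ [b]) ≤
      (toQ q s.1).trailingCoeff.rootMultiplicity (bv q b) := by
    intro b
    rw [wt]
    show (toQ q (shL q b B s.1)).trailingCoeff.natDegree ≤ _
    rw [toQ_shL q b B s.1 hs.2]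
    exact (shP_ne_zero_and hs.1 _).2
  have h2 : ∀ b, test q b s.1 = true →
      0 < (toQ q s.1).trailingCoeff.rootMultiplicity (bv q b) := by
    intro b hb
    rw [rootMultiplicity_pos hR, IsRoot.def]
    exact (test_iff q b s.1 hs.1).1 hb
  have f1 := h1 false
  have t1 := h1 true
  have f2 := h2 false
  have t2 := h2 true
  have ef : bv q false = 0 := rfl
  have et : bv q true = 1 := rfl
  rw [ef] at f1 f2
  rw [et] at t1 t2
  rw [children]
  simp only [List.flatMap_cons, List.flatMap_nil, List.append_nil]
  rw [show wt q s = (toQ q s.1).trailingCoeff.natDegree from rfl]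
  by_cases hf : test q false s.1 = true <;> by_cases ht : test q true s.1 = true
  · have := f2 hf
    have := t2 ht
    simp only [hf, ht, if_true, List.length_append, List.length_cons, List.length_nil,
      List.map_append, List.map_cons, List.map_nil, List.sum_append, List.sum_cons, List.sum_nil]
    omega
  · have := f2 hf
    simp only [hf, ht, if_true, List.length_append, List.length_cons, List.length_nil,
      List.map_append, List.map_cons, List.map_nil, List.sum_append, List.sum_cons, List.sum_nil]
    simp
    omega
  · have := t2 ht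
    simp only [hf, ht, if_true, List.length_append, List.length_cons, List.length_nil,
      List.map_append, List.map_cons, List.map_nil, List.sum_append, List.sum_cons, List.sum_nil]
    simp
    omega
  · simp [hf, ht]

theorem flat_wt {B : ℕ} (L : List (List (List ℕ) × List Bool)) (hL : ∀ s ∈ L, Ok q B s) :
    (L.flatMap (children q B)).length ≤ (L.map (wt q)).sum ∧
      ((L.flatMap (children q B)).map (wt q)).sum ≤ (L.map (wt q)).sum := by
  induction L with
  | nil => simp
  | cons s L ih =>
    have h1 := children_wt q (hL s List.mem_cons_self)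
    have h2 := ih fun t ht => hL t (List.mem_cons_of_mem _ ht)
    rw [List.flatMap_cons, List.length_append, List.map_append, List.sum_append, List.map_cons,
      List.sum_cons]
    omega

theorem pol_cons (b : Bool) (x : List Bool) :
    pol q (b :: x) = C (bv q b) + X * pol q x := by
  rw [pol, List.length_cons, Finset.sum_range_succ', add_comm, pol, Finset.mul_sum]
  congr 1
  · cases b <;> simp [bv]
  · refine Finset.sum_congr rfl fun i _ => ?_
    rw [List.getD_cons_succ, pow_succ]
    ring

omit hq in
theorem level_succ (U B : ℕ) (c : List ℕ) (n : ℕ) :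
    level q U B c (n + 1) = next q B (level q U B c n) := by
  rw [level, List.range_succ, List.foldl_append]
  rfl

theorem level_inv (U B : ℕ) (c : List ℕ) (h0 : Ok q B (start q U B c, []))
    (hw : wt q (start q U B c, []) < B) (x : List Bool)
    (hx : ev (pol q x) (toQ q (start q U B c)) = 0) :
    ∀ n ≤ x.length, (∀ s ∈ level q U B c n, Ok q B s) ∧
      ((level q U B c n).map (wt q)).sum < B ∧
      ∃ d, (d, x.take n) ∈ level q U B c n ∧ ev (pol q (x.drop n)) (toQ q d) = 0 := by
  intro n
  induction n with
  | zero =>
    intro _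
    refine ⟨?_, ?_, start q U B c, ?_, ?_⟩
    · intro s hs
      rw [level, List.range_zero, List.foldl_nil, List.mem_singleton] at hs
      rw [hs]
      exact h0
    · simpa [level] using hw
    · simp [level]
    · simpa using hx
  | succ n ih =>
    intro hn
    obtain ⟨h1, h2, d, hd, hd2⟩ := ih (by omega)
    have h3 := flat_wt q _ h1
    have h4 : level q U B c (n + 1) = (level q U B c n).flatMap (children q B) := by
      rw [level_succ, next, List.take_of_length_le]
      omega
    rw [h4]
    refine ⟨?_, by omega, ?_⟩
    · intro s hs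
      rw [List.mem_flatMap] at hs
      obtain ⟨t, ht, hst⟩ := hs
      exact children_ok q (h1 t ht) s hst
    · have hn' : n < x.length := hn
      have e1 : x.drop n = x[n] :: x.drop (n + 1) := List.drop_eq_getElem_cons hn'
      have hdok := h1 _ hd
      rw [e1, pol_cons] at hd2
      refine ⟨shL q x[n] B d, ?_, ?_⟩
      · rw [List.mem_flatMap]
        refine ⟨_, hd, ?_⟩
        rw [children, List.mem_flatMap]
        refine ⟨x[n], by cases x[n] <;> simp, ?_⟩
        rw [if_pos ((test_iff q _ d hdok.1).2 (root_trailing hd2)), List.mem_singleton,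
          List.take_succ_eq_append_getElem hn']
      · rw [toQ_shL q _ B d hdok.2, ev_shP]
        exact hd2

theorem ev_toQ (c : List (List ℕ)) (p : (ZMod q)[X]) :
    ev p (toQ q c) = ∑ u ∈ Finset.range c.length, (toP q (c.getD u [])).comp p * X ^ u := by
  rw [toQ, map_sum]
  refine Finset.sum_congr rfl fun u _ => ?_
  simp [ev]

theorem ev_start (U B : ℕ) (c : List ℕ) (p : (ZMod q)[X]) :
    ev p (toQ q (start q U B c)) = evalY q U B c p := by
  have hl : (start q U B c).length = U := by simp [start]
  rw [ev_toQ, evalY, hl]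
  refine Finset.sum_congr rfl fun u hu => ?_
  have h1 : (start q U B c).getD u [] =
      (List.range B).map fun v => md q (c.getD (u * B + v) 0) := by
    rw [start, getD_map_range, if_pos (Finset.mem_range.1 hu)]
  have h2 : ((List.range B).map fun v => md q (c.getD (u * B + v) 0)).length = B := by simp
  have h3 : ∀ g : ℕ → (ZMod q)[X], (∑ v ∈ Finset.range B, g v).comp p =
      ∑ v ∈ Finset.range B, (g v).comp p := fun g => map_sum (compRingHom p) g _
  rw [h1, toP, h2, h3, Finset.sum_mul]
  refine Finset.sum_congr rfl fun v hv => ?_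
  rw [getD_map_range, if_pos (Finset.mem_range.1 hv), md_cast]
  simp only [mul_comp, C_comp, pow_comp, X_comp]
  ring

theorem start_ne_zero {U B : ℕ} {c : List ℕ} (h : ∃ i < U * B, c.getD i 0 % q ≠ 0) :
    toQ q (start q U B c) ≠ 0 := by
  obtain ⟨i, hi, h1⟩ := h
  have hB : 0 < B := by
    rcases Nat.eq_zero_or_pos B with h | h
    · rw [h] at hi; simp at hi
    · exact h
  intro h0
  have h2 := congrArg (fun Q => (coeff (coeff Q (i / B)) (i % B))) h0
  simp only [coeff_zero] at h2
  rw [toQ_coeff, toP_coeff, start, getD_map_range, if_pos (Nat.div_lt_of_lt_mul (by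
    rw [mul_comm]; exact hi)), getD_map_range, if_pos (Nat.mod_lt _ hB), md_cast,
    mul_comm (i / B) B, Nat.div_add_mod] at h2
  rw [ZMod.natCast_eq_zero_iff, Nat.dvd_iff_mod_eq_zero] at h2
  exact h1 h2

theorem start_wt {U B : ℕ} {c : List ℕ} (h : toQ q (start q U B c) ≠ 0) :
    wt q (start q U B c, []) < B := by
  have hR := trailingCoeff_nonzero_iff_nonzero.2 h
  rw [wt]
  show (toQ q (start q U B c)).trailingCoeff.natDegree < B
  rw [trailingCoeff, toQ_coeff] at hR ⊢
  rw [natDegree_lt_iff_degree_lt hR, degree_lt_iff_coeff_zero]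
  intro m hm
  rw [toP_coeff, start, getD_map_range]
  split_ifs with h1
  · rw [getD_map_range, if_neg (by omega), Nat.cast_zero]
  · simp

theorem roots_spec (U B n : ℕ) (c : List ℕ) (h : ∃ i < U * B, c.getD i 0 % q ≠ 0)
    (x : List Bool) (hx : x.length = n) (h0 : evalY q U B c (pol q x) = 0) :
    x ∈ roots q U B c n := by
  have h1 := start_ne_zero q h
  have hok : Ok q B (start q U B c, []) := by
    refine ⟨h1, ?_⟩
    intro r hr
    rw [start, List.mem_map] at hr
    obtain ⟨u, _, rfl⟩ := hr
    simp
  rw [← ev_start] at h0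
  obtain ⟨-, -, d, hd, -⟩ := level_inv q U B c hok (start_wt q h1) x h0 n (by omega)
  rw [roots, List.mem_map]
  refine ⟨_, hd, ?_⟩
  show x.take n = x
  rw [← hx, List.take_length]

end

end Pool.Agent.MPa0a715.WM.Roots
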