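import Pool.Agent.Lib.MP_a0a715_lc_WM.Stmts

/-!
# Roth-Ruckenstein root finding: the algebra
-/

namespace Pool.Agent.MPa0a715.WM.Roots

open Polynomial

section
variable {F : Type*} [Field F]

/-- the value at `Y = p` of a polynomial in `X` with coefficients in `F[Y]` -/
noncomputable def ev (p : F[X]) : (F[X])[X] →+* F[X] := eval₂RingHom (compRingHom p) X

/-- `f(Y)` goes to `f(b + X Y)` -/
noncomputable def psi (b : F) : F[X] →+* (F[X])[X] :=
  eval₂RingHom ((C : F[X] →+* (F[X])[X]).comp C) (C (C b) + X * C X)

/-- `Q(X, Y)` goes to `Q(X, b + X Y)` -/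
noncomputable def shP (b : F) : (F[X])[X] →+* (F[X])[X] := eval₂RingHom (psi b) X

theorem ev_shP (b : F) (p : F[X]) (Q : (F[X])[X]) : ev p (shP b Q) = ev (C b + X * p) Q := by
  have h : (ev p).comp (shP b) = ev (C b + X * p) := by
    apply Polynomial.ringHom_ext'
    · apply Polynomial.ringHom_ext'
      · ext a
        simp [ev, shP, psi]
      · simp [ev, shP, psi]
        ring
    · simp [ev, shP]
  exact congrArg (fun g => g Q) h

theorem diag_coeff (g : F[X]) (k : ℕ) :
    ((eval₂RingHom ((C : F[X] →+* (F[X])[X]).comp C) (X * C X)) g).coeff k =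
      C (g.coeff k) * X ^ k := by
  induction g using Polynomial.induction_on' with
  | add p q hp hq => rw [map_add, coeff_add, hp, hq, coeff_add, C_add, add_mul]
  | monomial n a =>
    simp only [coe_eval₂RingHom, eval₂_monomial, RingHom.coe_comp, Function.comp_apply]
    have e : C (C a) * (X * C (X : F[X])) ^ n = C (C a * X ^ n) * (X : (F[X])[X]) ^ n := by
      rw [mul_pow, C_mul, C_pow]
      ring
    rw [e, coeff_C_mul_X_pow, coeff_monomial]
    by_cases h : k = n
    · subst h; simp
    · rw [if_neg h, if_neg (Ne.symm h)]; simp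

theorem psi_coeff (b : F) (f : F[X]) (k : ℕ) :
    (psi b f).coeff k = C ((taylor b f).coeff k) * X ^ k := by
  have h : psi b = (eval₂RingHom ((C : F[X] →+* (F[X])[X]).comp C) (X * C X)).comp
      (compRingHom (X + C b)) := by
    apply Polynomial.ringHom_ext'
    · ext a
      simp [psi]
    · simp [psi, add_comm]
  rw [h]
  exact diag_coeff _ k

theorem shP_coeff (b : F) (Q : (F[X])[X]) (u v : ℕ) :
    ((shP b Q).coeff u).coeff v = if v ≤ u then (taylor b (Q.coeff (u - v))).coeff v else 0 := by
  induction Q using Polynomial.induction_on' with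
  | add p q hp hq =>
    rw [map_add, coeff_add, coeff_add, hp, hq]
    by_cases h : v ≤ u
    · simp only [h, if_true, coeff_add, map_add]
    · simp [h]
  | monomial w f =>
    have h1 : shP b (monomial w f) = psi b f * X ^ w := by
      simp [shP]
    rw [h1, coeff_mul_X_pow']
    by_cases hw : w ≤ u
    · rw [if_pos hw, psi_coeff, coeff_C_mul, coeff_X_pow]
      by_cases hv : v = u - w
      · have h2 : v ≤ u := by omega
        have h3 : u - v = w := by omega
        rw [if_pos hv, if_pos h2, h3, coeff_monomial, if_pos rfl, mul_one, hv]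
      · rw [if_neg hv, mul_zero]
        split_ifs with h2
        · rw [coeff_monomial, if_neg (by omega), map_zero, coeff_zero]
        · rfl
    · rw [if_neg hw, coeff_zero]
      split_ifs with h2
      · rw [coeff_monomial, if_neg (by omega), map_zero, coeff_zero]
      · rfl

/-- A root with constant coefficient `b` gives a root `b` of the trailing coefficient. -/
theorem root_trailing {Q : (F[X])[X]} {b : F} {p : F[X]} (h : ev (C b + X * p) Q = 0) :
    Q.trailingCoeff.eval b = 0 := by
  obtain ⟨Q₁, hQ₁⟩ := X_pow_dvd_iff.2 fun d (hd : d < Q.natTrailingDegree) =>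
    coeff_eq_zero_of_lt_natTrailingDegree hd
  have h1 : Q.trailingCoeff = Q₁.coeff 0 := by
    rw [trailingCoeff]
    conv_lhs => rw [hQ₁]
    rw [← hQ₁]
    have := coeff_X_pow_mul Q₁ Q.natTrailingDegree 0
    rw [← hQ₁, zero_add] at this
    exact this
  have h2 : ev (C b + X * p) Q₁ = 0 := by
    have h3 : ev (C b + X * p) (X ^ Q.natTrailingDegree * Q₁) = 0 := by rw [← hQ₁]; exact h
    rw [map_mul, map_pow] at h3
    have h4 : ev (C b + X * p) (X : (F[X])[X]) = X := by simp [ev]
    rw [h4] at h3
    exact (mul_eq_zero.1 h3).resolve_left (pow_ne_zero _ X_ne_zero)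
  have h5 : ev (C b + X * p) Q₁ =
      ev (C b + X * p) Q₁.divX * X + (Q₁.coeff 0).comp (C b + X * p) := by
    conv_lhs => rw [← divX_mul_X_add Q₁]
    simp [ev]
  rw [h1]
  have h6 := congrArg (eval 0) (h5.symm.trans h2)
  simpa [eval_comp] using h6

theorem shP_ne_zero_and {Q : (F[X])[X]} (hQ : Q ≠ 0) (b : F) :
    shP b Q ≠ 0 ∧
      (shP b Q).trailingCoeff.natDegree ≤ Q.trailingCoeff.rootMultiplicity b := by
  set m := Q.trailingCoeff.rootMultiplicity b with hm
  set d := Q.natTrailingDegree with hd
  have hR : Q.trailingCoeff ≠ 0 := trailingCoeff_nonzero_iff_nonzero.2 hQ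
  have h1 : ((shP b Q).coeff (d + m)).coeff m ≠ 0 := by
    rw [shP_coeff, if_pos (by omega), Nat.add_sub_cancel]
    have h2 : m = (taylor b (Q.coeff d)).natTrailingDegree := by
      rw [hm, rootMultiplicity_eq_natTrailingDegree]
      rfl
    rw [h2]
    have h3 : taylor b (Q.coeff d) ≠ 0 := by
      intro h4
      apply hR
      exact (taylor_injective b) (h4.trans (map_zero _).symm)
    exact trailingCoeff_nonzero_iff_nonzero.2 h3
  have h2 : (shP b Q).coeff (d + m) ≠ 0 := by
    intro h
    rw [h, coeff_zero] at h1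
    exact h1 rfl
  have h3 : (shP b Q).natTrailingDegree ≤ d + m := natTrailingDegree_le_of_ne_zero h2
  refine ⟨fun h => h2 (by rw [h, coeff_zero]), ?_⟩
  rw [natDegree_le_iff_coeff_eq_zero]
  intro v hv
  rw [trailingCoeff, shP_coeff]
  split_ifs with h
  · have : Q.coeff ((shP b Q).natTrailingDegree - v) = 0 :=
      coeff_eq_zero_of_lt_natTrailingDegree (by omega)
    rw [this, map_zero, coeff_zero]
  · rfl

theorem mult_le (R : F[X]) :
    R.rootMultiplicity 0 + R.rootMultiplicity 1 ≤ R.natDegree := by
  classical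
  refine le_trans ?_ (card_roots' R)
  rw [← count_roots, ← count_roots]
  have h := Multiset.toFinset_sum_count_eq R.roots
  rw [← h]
  have h2 : ∑ a ∈ ({0, 1} : Finset F), Multiset.count a R.roots =
      Multiset.count 0 R.roots + Multiset.count 1 R.roots := by
    rw [Finset.sum_pair zero_ne_one]
  rw [← h2]
  calc ∑ a ∈ ({0, 1} : Finset F), Multiset.count a R.roots
      ≤ ∑ a ∈ ({0, 1} ∪ R.roots.toFinset : Finset F), Multiset.count a R.roots :=
        Finset.sum_le_sum_of_subset Finset.subset_union_left
    _ = ∑ a ∈ R.roots.toFinset, Multiset.count a R.roots := by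
        symm
        apply Finset.sum_subset Finset.subset_union_right
        intro x _ hx
        rw [Multiset.mem_toFinset] at hx
        exact Multiset.count_eq_zero_of_notMem hx

end

end Pool.Agent.MPa0a715.WM.Roots
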