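import Pool.Agent.Lib.MP_a0a715_lc_WM.Tail
import Pool.Agent.Lib.MP_a0a715_lc_WM.RedPT

/-!
# Random sampling
-/

namespace Pool.Agent.MPa0a715.WM.B

open Pool.Agent.MPa0a715 Pool.Agent.PolyTime

/-- number of better neighbours -/
def nb (C : Circuit) (x : List Bool) : ℕ :=
  ((List.range C.n).filter fun i => decide (val (C.out (flip x i)) < val (C.out x))).length

theorem nb_eq (C : Circuit) (x : List Bool) : nb C x = (C.better x).card := by
  unfold nb Circuit.better
  rw [← A.card_filter_range]
  congr 1
  refine Finset.filter_congr fun i _ => ?_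
  exact IN.val_lt_cost

/-- a list member with the least number of better neighbours -/
def best (C : Circuit) (L : List (List Bool)) : List Bool :=
  match L.find? fun x => L.all fun y => decide (nb C x ≤ nb C y) with
  | none => []
  | some x => x

theorem best_spec (C : Circuit) {L : List (List Bool)} (hL : L ≠ []) :
    best C L ∈ L ∧ ∀ y ∈ L, nb C (best C L) ≤ nb C y := by
  unfold best
  cases hf : L.find? fun x => L.all fun y => decide (nb C x ≤ nb C y) with
  | none =>
    exfalso
    obtain ⟨x, hx, hx'⟩ := L.toFinset.exists_min_image (nb C)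
      (List.toFinset_nonempty_iff L |>.2 hL)
    rw [List.find?_eq_none] at hf
    refine hf x (List.mem_toFinset.1 hx) ?_
    rw [List.all_eq_true]
    intro y hy
    exact decide_eq_true (hx' y (List.mem_toFinset.2 hy))
  | some x =>
    have h1 := List.find?_some hf
    refine ⟨List.mem_of_find?_eq_some hf, fun y hy => ?_⟩
    rw [List.all_eq_true] at h1
    exact of_decide_eq_true (h1 y hy)

/-- a block of the word of random bits -/
def chunk (n : ℕ) (ρ : List Bool) (i : ℕ) : List Bool :=
  (List.range n).map fun j => ρ.getD (i * n + j) false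

/-- the blocks of the word of random bits -/
def samples (n T : ℕ) (ρ : List Bool) : List (List Bool) := (List.range T).map (chunk n ρ)

theorem length_chunk (n : ℕ) (ρ : List Bool) (i : ℕ) : (chunk n ρ i).length = n := by
  unfold chunk
  rw [List.length_map, List.length_range]

theorem few_best {C : Circuit} {T : ℕ} {ρ : List Bool} {θ : ℝ} {i : ℕ} (hi : i < T)
    (h : C.FewBetter θ (chunk C.n ρ i)) : C.FewBetter θ (best C (samples C.n T ρ)) := by
  have hmem : chunk C.n ρ i ∈ samples C.n T ρ := by
    unfold samples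
    rw [List.mem_map]
    exact ⟨i, List.mem_range.2 hi, rfl⟩
  obtain ⟨h1, h2⟩ := best_spec C (List.ne_nil_of_mem hmem)
  have h3 := h2 _ hmem
  rw [nb_eq, nb_eq] at h3
  refine ⟨?_, le_trans (by exact_mod_cast h3) h.2⟩
  unfold samples at h1
  rw [List.mem_map] at h1
  obtain ⟨j, _, hj⟩ := h1
  unfold samples
  rw [← hj, length_chunk]

theorem chunk_ofFn {n T : ℕ} (ρ : Fin (T * n) → Bool) (i : Fin T) :
    chunk n (List.ofFn ρ) i = List.ofFn fun j : Fin n => ρ (finProdFinEquiv (i, j)) := by
  refine ext_getD (by rw [length_chunk, List.length_ofFn]) fun j hj => ?_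
  rw [length_chunk] at hj
  rw [getD_ofFn _ hj]
  unfold chunk
  rw [List.getD_eq_getElem _ _ (by rw [List.length_map, List.length_range]; exact hj),
    List.getElem_map, List.getElem_range]
  have h1 : (i : ℕ) * n + j < T * n := by
    have := Nat.mul_le_mul_right n (show (i : ℕ) + 1 ≤ T from i.2)
    rw [Nat.add_mul, Nat.one_mul] at this
    omega
  rw [getD_ofFn _ h1]
  congr 1
  apply Fin.ext
  simp [finProdFinEquiv, Nat.mul_comm, Nat.add_comm]

theorem two_mul_pow_le {a g T : ℕ} (hT : 0 < T) (h : a ≤ T * g) : 2 * a ^ T ≤ (a + g) ^ T := by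
  have key : ∀ k : ℕ, a ^ (k + 1) + (k + 1) * g * a ^ k ≤ (a + g) ^ (k + 1) := by
    intro k
    induction k with
    | zero => simp
    | succ k ih =>
      have h1 := Nat.mul_le_mul_right (a + g) ih
      rw [← pow_succ] at h1
      refine le_trans ?_ h1
      have h2 : (a ^ (k + 1) + (k + 1) * g * a ^ k) * (a + g) =
          a ^ (k + 1 + 1) + (k + 1 + 1) * g * a ^ (k + 1) + (k + 1) * g * a ^ k * g := by
        ring
      rw [h2]
      exact Nat.le_add_right _ _
  obtain ⟨k, rfl⟩ : ∃ k, T = k + 1 := ⟨T - 1, by omega⟩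
  refine le_trans ?_ (key k)
  have h1 := Nat.mul_le_mul_right (a ^ k) h
  have h2 : a * a ^ k = a ^ (k + 1) := by rw [pow_succ, Nat.mul_comm]
  rw [h2] at h1
  omega

/-- if enough words are good, then for at least half of the sequences of `T` words there is a good
one -/
theorem half {n T N : ℕ} (hN : N = T * n) (hT : 0 < T) (G : Set (Fin n → Bool))
    (hG : 2 ^ n ≤ T * G.ncard) (P : List Bool → Prop)
    (hP : ∀ (ρ : List Bool) (i : ℕ), i < T → (∃ v ∈ G, chunk n ρ i = List.ofFn v) → P ρ) :
    2 ^ N ≤ 2 * {ρ : Fin N → Bool | P (List.ofFn ρ)}.ncard := by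
  classical
  subst hN
  set S := {ρ : Fin (T * n) → Bool | P (List.ofFn ρ)} with hS
  set e : (Fin (T * n) → Bool) ≃ (Fin T → Fin n → Bool) :=
    (Equiv.arrowCongr finProdFinEquiv.symm (Equiv.refl Bool)).trans (Equiv.curry _ _ _) with he
  have he' : ∀ ρ i j, e ρ i j = ρ (finProdFinEquiv (i, j)) := fun ρ i j => rfl
  set B : Finset (Fin n → Bool) := Finset.univ.filter fun v => v ∉ G with hB
  have hBc : B.card + G.ncard = 2 ^ n := by
    have h1 : G.ncard = (Finset.univ.filter fun v => v ∈ G).card := by
      rw [← Set.ncard_coe_finset]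
      congr 1
      ext v
      simp
    have h2 := Finset.card_filter_add_card_filter_not (s := (Finset.univ : Finset (Fin n → Bool)))
      (fun v => v ∈ G)
    rw [Finset.card_univ, ← h1] at h2
    have h3 : Fintype.card (Fin n → Bool) = 2 ^ n := by simp
    have h4 : (Finset.univ.filter fun v => ¬ v ∈ G).card = B.card := by
      rw [hB]
    omega
  have hbad : Sᶜ.ncard ≤ B.card ^ T := by
    have h1 : Sᶜ ⊆ ((Fintype.piFinset fun _ : Fin T => B).map e.symm.toEmbedding : Finset _) := by
      intro ρ hρ
      rw [Finset.mem_coe, Finset.mem_map]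
      refine ⟨e ρ, ?_, by simp⟩
      rw [Fintype.mem_piFinset]
      intro i
      rw [hB, Finset.mem_filter]
      refine ⟨Finset.mem_univ _, fun hv => hρ ?_⟩
      rw [hS, Set.mem_ofPred_eq]
      refine hP _ i i.2 ⟨e ρ i, hv, ?_⟩
      rw [chunk_ofFn]
      rfl
    refine (Set.ncard_le_ncard h1 (Finset.finite_toSet _)).trans ?_
    rw [Set.ncard_coe_finset, Finset.card_map, Fintype.card_piFinset_const]
  have htot : S.ncard + Sᶜ.ncard = 2 ^ (T * n) := by
    rw [Set.ncard_add_ncard_compl, Nat.card_eq_fintype_card]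
    simp
  have h2 := two_mul_pow_le (a := B.card) (g := G.ncard) hT (by omega)
  rw [hBc, ← pow_mul, Nat.mul_comm n T] at h2
  omega

/-! ### polynomial time -/

section
variable {α : Type} [Enc α]

theorem ptime_nb {C : α → Circuit} {x : α → List Bool} (hC : PTime C) (hx : PTime x) :
    PTime (fun a => nb (C a) (x a)) := by
  have hf : PTime (fun p : α × ℕ => flip (x p.1) p.2) :=
    ptime_flip (hx.comp PTime.fst) PTime.snd
  refine PTime.length (PTime.filter (g := fun (a : α) (i : ℕ) =>
      decide (val ((C a).out (flip (x a) i)) < val ((C a).out (x a)))) (pu_n hC).range ?_)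
  have e1 : PTime (fun p : α × ℕ => val ((C p.1).out (flip (x p.1) p.2))) :=
    (PTime.natOfBits (ptime_out (hC.comp PTime.fst) hf)).of_eq fun p => (val_eq_ofBits _).symm
  have e2 : PTime (fun p : α × ℕ => val ((C p.1).out (x p.1))) :=
    (PTime.natOfBits (ptime_out (hC.comp PTime.fst) (hx.comp PTime.fst))).of_eq fun p =>
      (val_eq_ofBits _).symm
  exact PTime.lt e1 e2

theorem ptime_best {C : α → Circuit} {L : α → List (List Bool)} (hC : PTime C) (hL : PTime L) :
    PTime (fun a => best (C a) (L a)) := by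
  have h1 : PTime₂ (fun (a : α) (x : List Bool) =>
      (L a).all fun y => decide (nb (C a) x ≤ nb (C a) y)) := by
    refine PTime.all (g := fun (p : α × List Bool) (y : List Bool) =>
      decide (nb (C p.1) p.2 ≤ nb (C p.1) y)) (hL.comp PTime.fst) ?_
    exact PTime.le (ptime_nb (hC.comp PTime.fst.fst') PTime.fst.snd')
      (ptime_nb (hC.comp PTime.fst.fst') PTime.snd)
  refine (PTime.option_cases (PTime.find? hL h1) (PTime.const ([] : List Bool))
    PTime.snd).of_eq fun a => ?_
  unfold best
  cases (L a).find? fun x => (L a).all fun y => decide (nb (C a) x ≤ nb (C a) y) <;> rfl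

theorem ptime_samples {n T : α → ℕ} {ρ : α → List Bool} (hn : PU n) (hT : PU T)
    (hρ : PTime ρ) : PTime (fun a => samples (n a) (T a) (ρ a)) := by
  refine PTime.map (g := fun (a : α) (i : ℕ) => chunk (n a) (ρ a) i) hT.range ?_
  refine PTime.map (g := fun (p : α × ℕ) (j : ℕ) => (ρ p.1).getD (p.2 * n p.1 + j) false)
    (hn.range.comp PTime.fst) ?_
  exact PTime.listGetD (hρ.comp PTime.fst.fst')
    ((PTime.fst.snd'.mul (hn.toNat.comp PTime.fst.fst')).add PTime.snd) (PTime.const false)

end

/-- random sampling finds inputs with at most `n / 2 - K * √ (n * log n)` better neighbours -/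
theorem random (K : ℝ) :
    HasRandomSolver fun C x => C.FewBetter (C.n / 2 - K * √(C.n * Real.log C.n)) x := by
  obtain ⟨c, D, h⟩ := abundant K
  have hn : PU (fun C : Circuit => C.n) := pu_n PTime.id
  have hT : PU (fun C : Circuit => c * (C.n + 1) ^ D) :=
    (PU.const c).mul (A.pu_pow (hn.add (PU.const 1)) D)
  refine ⟨fun C => List.replicate (c * (C.n + 1) ^ D * C.n) (),
    fun p => best p.1 (samples p.1.n (c * (p.1.n + 1) ^ D) p.2), (hT.mul hn).isPolyTime,
    (ptime_best PTime.fst (ptime_samples (hn.comp PTime.fst) (hT.comp PTime.fst)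
      PTime.snd)).isPolyTime, fun C _ => ?_⟩
  have h1 := h C
  have h2 : 0 < c * (C.n + 1) ^ D := by
    rcases Nat.eq_zero_or_pos (c * (C.n + 1) ^ D) with h0 | h0
    · rw [h0, Nat.zero_mul] at h1
      have : 0 < 2 ^ C.n := by positivity
      omega
    · exact h0
  refine half (T := c * (C.n + 1) ^ D) (n := C.n) List.length_replicate h2 _ h1
    (fun ρ => C.FewBetter (C.n / 2 - K * √(C.n * Real.log C.n))
      (best C (samples C.n (c * (C.n + 1) ^ D) ρ))) ?_
  rintro ρ i hi ⟨v, hv, hv'⟩
  refine few_best hi ?_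
  rw [hv']
  exact hv

end Pool.Agent.MPa0a715.WM.B
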