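import Pool.Agent.Lib.MP_a0a715_lc_WM.Weak
import Pool.Agent.Lib.MP_a0a715_lc_WM.Perc

/-!
# A polynomially large fraction of the inputs has few better neighbours
-/

namespace Pool.Agent.MPa0a715.WM.B

open Pool.Agent.MPa0a715

theorem choose_ratio (n m d : ℕ) :
    n.choose (m + d) * (m + 1) ^ d ≤ n.choose m * (n - m) ^ d := by
  induction d with
  | zero => simp
  | succ d ih =>
    have h1 : n.choose (m + d + 1) * (m + d + 1) = n.choose (m + d) * (n - (m + d)) :=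
      Nat.choose_succ_right_eq n (m + d)
    calc n.choose (m + (d + 1)) * (m + 1) ^ (d + 1)
        = n.choose (m + d + 1) * (m + 1) * (m + 1) ^ d := by rw [pow_succ]; ring_nf
      _ ≤ n.choose (m + d + 1) * (m + d + 1) * (m + 1) ^ d :=
          Nat.mul_le_mul_right _ (Nat.mul_le_mul_left _ (by omega))
      _ = n.choose (m + d) * (m + 1) ^ d * (n - (m + d)) := by rw [h1]; ring
      _ ≤ n.choose m * (n - m) ^ d * (n - m) := Nat.mul_le_mul ih (by omega)
      _ = _ := by rw [pow_succ]; ring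

/-- `(1 - y) / (1 + y) ≥ exp (- 3 y)` -/
theorem exp_ratio {y : ℝ} (h0 : 0 ≤ y) (h1 : y ≤ 1 / 2) :
    Real.exp (-(3 * y)) * (1 + y) ≤ 1 - y := by
  have h2 : 1 + 3 * y + (3 * y) ^ 2 / 2 ≤ Real.exp (3 * y) :=
    Real.quadratic_le_exp_of_nonneg (by linarith)
  have h3 : 1 + y ≤ (1 - y) * Real.exp (3 * y) := by
    refine le_trans ?_ (mul_le_mul_of_nonneg_left h2 (by linarith))
    nlinarith [mul_nonneg h0 (mul_nonneg h0 (sub_nonneg.2 h1)), mul_nonneg h0 h0]
  have h4 : Real.exp (-(3 * y)) * Real.exp (3 * y) = 1 := by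
    rw [← Real.exp_add]
    simp
  have h5 := mul_le_mul_of_nonneg_left h3 (Real.exp_pos (-(3 * y))).le
  calc Real.exp (-(3 * y)) * (1 + y) ≤ Real.exp (-(3 * y)) * ((1 - y) * Real.exp (3 * y)) := h5
    _ = (1 - y) * (Real.exp (-(3 * y)) * Real.exp (3 * y)) := by ring
    _ = 1 - y := by rw [h4, mul_one]

theorem choose_mid (n : ℕ) : 2 ^ n ≤ (n + 1) * n.choose (n / 2) := by
  rw [← Nat.sum_range_choose]
  refine (Finset.sum_le_card_nsmul _ _ (n.choose (n / 2)) fun k _ => Nat.choose_le_middle k n).trans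
    ?_
  rw [Finset.card_range, smul_eq_mul]

/-- binomial coefficients near the middle -/
theorem choose_low {n m : ℕ} {s : ℝ} (hs : 0 ≤ s) (hn : 4 * (s + 1) ≤ n)
    (hm : (n : ℝ) / 2 - s - 1 ≤ m) (hm' : 2 * m ≤ n) :
    Real.exp (-(6 * (s + 1) ^ 2 / n)) * n.choose (n / 2) ≤ n.choose m := by
  have hn0 : (0 : ℝ) < n := by linarith
  obtain ⟨d, hd⟩ : ∃ d, n / 2 = m + d := ⟨n / 2 - m, by omega⟩
  have h1 := choose_ratio n m d
  rw [← hd] at h1
  have h2 : (n.choose (n / 2) : ℝ) * ((m : ℝ) + 1) ^ d ≤ n.choose m * ((n : ℝ) - m) ^ d := by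
    have : ((n - m : ℕ) : ℝ) = (n : ℝ) - m := Nat.cast_sub (by omega)
    rw [← this]
    exact_mod_cast h1
  have hnm : (0 : ℝ) < (n : ℝ) - m := by
    have : (m : ℝ) * 2 ≤ n := by exact_mod_cast (by omega : m * 2 ≤ n)
    linarith
  set y : ℝ := 2 * (s + 1) / n with hy
  have hy0 : 0 ≤ y := by positivity
  have hy1 : y ≤ 1 / 2 := by
    rw [hy, div_le_iff₀ hn0]
    linarith
  have hyn : y * n = 2 * (s + 1) := by
    rw [hy]
    field_simp
  have h3 : Real.exp (-(3 * y)) * ((n : ℝ) - m) ≤ (m : ℝ) + 1 := by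
    have h4 := exp_ratio hy0 hy1
    have h5 : (n : ℝ) - m ≤ (1 + y) * (n / 2) := by nlinarith
    have h6 : (1 - y) * (n / 2) ≤ (m : ℝ) + 1 := by nlinarith
    calc Real.exp (-(3 * y)) * ((n : ℝ) - m)
        ≤ Real.exp (-(3 * y)) * ((1 + y) * (n / 2)) :=
          mul_le_mul_of_nonneg_left h5 (Real.exp_pos _).le
      _ = Real.exp (-(3 * y)) * (1 + y) * (n / 2) := by ring
      _ ≤ (1 - y) * (n / 2) := mul_le_mul_of_nonneg_right h4 (by positivity)
      _ ≤ _ := h6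
  have h4 : Real.exp (-(3 * y)) ^ d * ((n : ℝ) - m) ^ d ≤ ((m : ℝ) + 1) ^ d := by
    rw [← mul_pow]
    exact pow_le_pow_left₀ (by positivity) h3 d
  have h5 : Real.exp (-(3 * y)) ^ d * n.choose (n / 2) ≤ n.choose m := by
    have h6 : (0 : ℝ) < ((n : ℝ) - m) ^ d := pow_pos hnm d
    have h7 := mul_le_mul_of_nonneg_left h4 (Nat.cast_nonneg (α := ℝ) (n.choose (n / 2)))
    have h8 : Real.exp (-(3 * y)) ^ d * n.choose (n / 2) * ((n : ℝ) - m) ^ d ≤
        n.choose m * ((n : ℝ) - m) ^ d := by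
      calc Real.exp (-(3 * y)) ^ d * n.choose (n / 2) * ((n : ℝ) - m) ^ d
          = n.choose (n / 2) * (Real.exp (-(3 * y)) ^ d * ((n : ℝ) - m) ^ d) := by ring
        _ ≤ _ := h7
        _ ≤ _ := h2
    exact le_of_mul_le_mul_right h8 h6
  refine le_trans (mul_le_mul_of_nonneg_right ?_ (Nat.cast_nonneg _)) h5
  rw [← Real.exp_nat_mul, Real.exp_le_exp]
  have h6 : (d : ℝ) ≤ s + 1 := by
    have h7 : ((n / 2 : ℕ) : ℝ) ≤ (n : ℝ) / 2 := Nat.cast_div_le
    rw [hd] at h7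
    push_cast at h7
    linarith
  have h7 : 6 * (s + 1) ^ 2 / n = (s + 1) * (3 * y) := by
    rw [hy]
    field_simp
    ring
  rw [h7]
  nlinarith [mul_le_mul_of_nonneg_right h6 (show 0 ≤ 3 * y by positivity)]

theorem exists_large (K : ℝ) (hK : 0 ≤ K) :
    ∃ n₁ : ℕ, ∀ n : ℕ, n₁ ≤ n → 4 * (K * √(n * Real.log n) + 1) ≤ n := by
  have h1 := Real.isLittleO_log_id_atTop.bound
    (show (0 : ℝ) < 1 / (8 * (K + 1)) ^ 2 by positivity)
  have h2 := tendsto_natCast_atTop_atTop.eventually h1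
  obtain ⟨n₂, hn₂⟩ := Filter.eventually_atTop.1 h2
  refine ⟨max n₂ 8, fun n hn => ?_⟩
  have h3 := hn₂ n ((le_max_left _ _).trans hn)
  have h8 : (8 : ℝ) ≤ n := by exact_mod_cast (le_max_right n₂ 8).trans hn
  rw [id, Real.norm_eq_abs, Real.norm_eq_abs, abs_of_nonneg (Real.log_natCast_nonneg n),
    abs_of_nonneg (Nat.cast_nonneg (α := ℝ) n)] at h3
  have h4 : √(n * Real.log n) ≤ n / (8 * (K + 1)) := by
    refine Real.sqrt_le_iff.2 ⟨by positivity, ?_⟩
    calc (n : ℝ) * Real.log n ≤ n * (1 / (8 * (K + 1)) ^ 2 * n) :=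
          mul_le_mul_of_nonneg_left h3 (Nat.cast_nonneg n)
      _ = _ := by
          rw [div_pow]
          ring
  have h5 : K * √(n * Real.log n) ≤ n / 8 := by
    calc K * √(n * Real.log n) ≤ K * (n / (8 * (K + 1))) := mul_le_mul_of_nonneg_left h4 hK
      _ = K / (K + 1) * (n / 8) := by
          field_simp
      _ ≤ 1 * (n / 8) := by
          refine mul_le_mul_of_nonneg_right ?_ (by positivity)
          rw [div_le_one (by positivity)]
          linarith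
      _ = _ := one_mul _
  linarith

/-- binomial coefficients at `n / 2 - K * √ (n * log n)` -/
theorem choose_poly (K : ℝ) (hK : 0 ≤ K) {n : ℕ} (hn : 4 * (K * √(n * Real.log n) + 1) ≤ n) :
    (2 : ℝ) ^ n ≤ Real.exp 12 * (n + 1 : ℝ) ^ (⌈12 * K ^ 2⌉₊ + 1) *
      n.choose ⌊(n : ℝ) / 2 - K * √(n * Real.log n)⌋₊ := by
  set s := K * √(n * Real.log n) with hs
  have hs0 : 0 ≤ s := by positivity
  have hn4 : (4 : ℝ) ≤ n := by linarith
  have hpos : 0 ≤ (n : ℝ) / 2 - s := by linarith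
  set m := ⌊(n : ℝ) / 2 - s⌋₊ with hm
  have hm1 : (n : ℝ) / 2 - s - 1 ≤ m := by
    have := Nat.lt_floor_add_one ((n : ℝ) / 2 - s)
    rw [← hm] at this
    linarith
  have hm2 : 2 * m ≤ n := by
    have h1 := Nat.floor_le hpos
    rw [← hm] at h1
    have h2 : (2 : ℝ) * m ≤ n := by linarith
    exact_mod_cast h2
  have h1 := choose_low hs0 hn hm1 hm2
  have h2 : (2 : ℝ) ^ n ≤ (n + 1) * n.choose (n / 2) := by exact_mod_cast choose_mid n
  have hlog : 0 ≤ Real.log n := Real.log_natCast_nonneg n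
  have h3 : 6 * (s + 1) ^ 2 / n ≤ 12 * K ^ 2 * Real.log n + 12 := by
    rw [div_le_iff₀ (by linarith)]
    have h4 : s ^ 2 = K ^ 2 * (n * Real.log n) := by
      rw [hs, mul_pow, Real.sq_sqrt (by positivity)]
    nlinarith [sq_nonneg (s - 1), sq_nonneg K]
  have h4 : Real.exp (12 * K ^ 2 * Real.log n + 12) ≤
      Real.exp 12 * (n + 1 : ℝ) ^ ⌈12 * K ^ 2⌉₊ := by
    rw [Real.exp_add, mul_comm]
    refine mul_le_mul_of_nonneg_left ?_ (Real.exp_pos _).le
    have h5 : 12 * K ^ 2 * Real.log n ≤ (⌈12 * K ^ 2⌉₊ : ℝ) * Real.log (n + 1) :=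
      mul_le_mul (Nat.le_ceil _) (Real.log_le_log (by linarith) (by linarith)) hlog
        (Nat.cast_nonneg _)
    calc Real.exp (12 * K ^ 2 * Real.log n) ≤ Real.exp (⌈12 * K ^ 2⌉₊ * Real.log (n + 1)) :=
          Real.exp_le_exp.2 h5
      _ = (n + 1 : ℝ) ^ ⌈12 * K ^ 2⌉₊ := by
          rw [Real.exp_nat_mul, Real.exp_log (by linarith)]
  have h5 : (n.choose (n / 2) : ℝ) ≤
      Real.exp 12 * (n + 1 : ℝ) ^ ⌈12 * K ^ 2⌉₊ * n.choose m := by
    have h6 : (n.choose (n / 2) : ℝ) ≤ Real.exp (6 * (s + 1) ^ 2 / n) * n.choose m := by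
      have h7 := mul_le_mul_of_nonneg_left h1 (Real.exp_pos (6 * (s + 1) ^ 2 / n)).le
      rw [← mul_assoc, ← Real.exp_add, add_neg_cancel, Real.exp_zero, one_mul] at h7
      exact h7
    refine h6.trans (mul_le_mul_of_nonneg_right ?_ (Nat.cast_nonneg _))
    exact (Real.exp_le_exp.2 h3).trans h4
  calc (2 : ℝ) ^ n ≤ (n + 1) * n.choose (n / 2) := h2
    _ ≤ (n + 1) * (Real.exp 12 * (n + 1 : ℝ) ^ ⌈12 * K ^ 2⌉₊ * n.choose m) :=
        mul_le_mul_of_nonneg_left h5 (by positivity)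
    _ = _ := by
        rw [pow_succ]
        ring

/-- a global minimum -/
theorem exists_better_empty (C : Circuit) :
    ∃ v : Fin C.n → Bool, C.better (List.ofFn v) = ∅ := by
  obtain ⟨v, hv⟩ := Finite.exists_min fun v : Fin C.n → Bool => C.cost (List.ofFn v)
  refine ⟨v, ?_⟩
  unfold Circuit.better
  rw [Finset.filter_eq_empty_iff]
  intro i hi
  rw [Finset.mem_range] at hi
  have h1 := wd_flip (Finset.univ.filter fun j => v j = true) ⟨i, hi⟩
  have h2 : wd (Finset.univ.filter fun j => v j = true) = List.ofFn v := by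
    unfold wd
    congr 1
    funext j
    simp
  rw [h2] at h1
  dsimp only at h1
  rw [h1]
  exact not_lt.2 (hv _)

theorem abundant (K : ℝ) : ∃ c D : ℕ, ∀ C : Circuit, 2 ^ C.n ≤ c * (C.n + 1) ^ D *
    {v : Fin C.n → Bool |
      C.FewBetter (C.n / 2 - K * √(C.n * Real.log C.n)) (List.ofFn v)}.ncard := by
  obtain ⟨n₁, hn₁⟩ := exists_large |K| (abs_nonneg K)
  refine ⟨max (2 ^ n₁) ⌈Real.exp 12⌉₊, ⌈12 * |K| ^ 2⌉₊ + 2, fun C => ?_⟩
  set G := {v : Fin C.n → Bool |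
      C.FewBetter (C.n / 2 - K * √(C.n * Real.log C.n)) (List.ofFn v)} with hG
  have hGfin : G.Finite := Set.toFinite G
  by_cases hn : n₁ ≤ C.n
  · have h1 := hn₁ C.n hn
    have h2 := choose_poly |K| (abs_nonneg K) h1
    set θ := (C.n : ℝ) / 2 - |K| * √(C.n * Real.log C.n) with hθ
    set m := ⌊θ⌋₊ with hm
    have hθ0 : 0 ≤ θ := by
      have : 0 ≤ |K| * √(C.n * Real.log C.n) := by positivity
      rw [hθ]
      linarith
    have hmθ : (m : ℝ) ≤ θ := Nat.floor_le hθ0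
    have h3 := count C (m + 1)
    have h4 : C.n.choose m ≤ ∑ j ∈ Finset.range (m + 1), (m + 1 - j) * C.n.choose j := by
      have := Finset.single_le_sum (f := fun j => (m + 1 - j) * C.n.choose j)
        (fun j _ => Nat.zero_le _) (Finset.self_mem_range_succ m)
      rwa [show m + 1 - m = 1 by omega, Nat.one_mul] at this
    have h5 : ((Finset.univ : Finset (Fin C.n → Bool)).filter fun v =>
        (C.better (List.ofFn v)).card < m + 1).card ≤ G.ncard := by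
      rw [← Set.ncard_coe_finset]
      refine Set.ncard_le_ncard (fun v hv => ?_) hGfin
      rw [Finset.mem_coe, Finset.mem_filter] at hv
      rw [hG, Set.mem_ofPred_eq]
      refine ⟨List.length_ofFn, le_max_of_le_right ?_⟩
      have h6 : ((C.better (List.ofFn v)).card : ℝ) ≤ m := by
        exact_mod_cast Nat.lt_succ_iff.1 hv.2
      refine h6.trans (hmθ.trans ?_)
      rw [hθ]
      have h7 : K * √(C.n * Real.log C.n) ≤ |K| * √(C.n * Real.log C.n) :=
        mul_le_mul_of_nonneg_right (le_abs_self K) (Real.sqrt_nonneg _)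
      linarith
    have hmn : m ≤ C.n := by
      have h6 : (m : ℝ) ≤ C.n := by
        refine hmθ.trans ?_
        rw [hθ]
        have : 0 ≤ |K| * √(C.n * Real.log C.n) := by positivity
        have h7 : (0 : ℝ) ≤ C.n := Nat.cast_nonneg _
        linarith
      exact_mod_cast h6
    have h6 : C.n.choose m ≤ (C.n + 1) * G.ncard :=
      (h4.trans h3).trans (Nat.mul_le_mul (by omega) h5)
    have h7 : (2 : ℝ) ^ C.n ≤ (max (2 ^ n₁) ⌈Real.exp 12⌉₊ : ℕ) *
        (C.n + 1 : ℝ) ^ (⌈12 * |K| ^ 2⌉₊ + 2) * G.ncard := by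
      have h8 : Real.exp 12 ≤ ((max (2 ^ n₁) ⌈Real.exp 12⌉₊ : ℕ) : ℝ) :=
        (Nat.le_ceil _).trans (by exact_mod_cast le_max_right _ _)
      have h9 : (C.n.choose m : ℝ) ≤ (C.n + 1 : ℝ) * G.ncard := by exact_mod_cast h6
      calc (2 : ℝ) ^ C.n ≤ Real.exp 12 * (C.n + 1 : ℝ) ^ (⌈12 * |K| ^ 2⌉₊ + 1) *
            C.n.choose m := h2
        _ ≤ Real.exp 12 * (C.n + 1 : ℝ) ^ (⌈12 * |K| ^ 2⌉₊ + 1) *
            ((C.n + 1 : ℝ) * G.ncard) := mul_le_mul_of_nonneg_left h9 (by positivity)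
        _ = Real.exp 12 * ((C.n + 1 : ℝ) ^ (⌈12 * |K| ^ 2⌉₊ + 2) * G.ncard) := by ring
        _ ≤ (max (2 ^ n₁) ⌈Real.exp 12⌉₊ : ℕ) *
            ((C.n + 1 : ℝ) ^ (⌈12 * |K| ^ 2⌉₊ + 2) * G.ncard) :=
              mul_le_mul_of_nonneg_right h8 (by positivity)
        _ = _ := by ring
    exact_mod_cast h7
  · have h1 : 0 < G.ncard := by
      rw [Set.ncard_pos hGfin]
      obtain ⟨v, hv⟩ := exists_better_empty C
      refine ⟨v, ?_⟩
      rw [hG, Set.mem_ofPred_eq]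
      refine ⟨List.length_ofFn, le_max_of_le_left ?_⟩
      rw [hv]
      simp
    have h2 : 2 ^ C.n ≤ max (2 ^ n₁) ⌈Real.exp 12⌉₊ :=
      (Nat.pow_le_pow_right (by omega) (by omega)).trans (le_max_left _ _)
    have h3 : 1 ≤ (C.n + 1) ^ (⌈12 * |K| ^ 2⌉₊ + 2) := Nat.one_le_pow _ _ (by omega)
    calc 2 ^ C.n = 2 ^ C.n * 1 * 1 := by ring
      _ ≤ _ := Nat.mul_le_mul (Nat.mul_le_mul h2 h3) h1

end Pool.Agent.MPa0a715.WM.B
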